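import Mathlib

set_option autoImplicit false

namespace Pool.Agent.TH713.Pin

/-- number of `i < n` with `f (t + i) = k` -/
def cnt (f : ℕ → ℕ) (k : ℕ) : ℕ → ℕ → ℕ
  | _, 0 => 0
  | t, n + 1 => (if f t = k then 1 else 0) + cnt f k (t + 1) n

/-- the number of the numbers `v ≤ j` among the eight deadlines is more than `lim` -/
def ovr (j lim a1 a2 b1 b2 b3 b4 c d : ℕ) : Bool :=
  Nat.ble (lim + 1) ((Nat.ble a1 j).toNat + (Nat.ble a2 j).toNat + ((Nat.ble b1 j).toNat +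
    (Nat.ble b2 j).toNat + (Nat.ble b3 j).toNat + (Nat.ble b4 j).toNat) + (Nat.ble c j).toNat +
    (Nat.ble d j).toNat)

/-- after the hole -/
def goR : ℕ → ℕ → ℕ → ℕ → ℕ → ℕ → ℕ → ℕ → ℕ → Bool
  | 0, _, _, _, _, _, _, _, _ => false
  | n + 1, a1, a2, b1, b2, b3, b4, c, d =>
    ovr 0 0 a1 a2 b1 b2 b3 b4 c d || ovr 1 1 a1 a2 b1 b2 b3 b4 c d ||
    ovr 2 2 a1 a2 b1 b2 b3 b4 c d || ovr 3 3 a1 a2 b1 b2 b3 b4 c d ||
    ovr 4 4 a1 a2 b1 b2 b3 b4 c d || ovr 5 5 a1 a2 b1 b2 b3 b4 c d ||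
    ovr 6 6 a1 a2 b1 b2 b3 b4 c d || ovr 7 7 a1 a2 b1 b2 b3 b4 c d ||
    (goR n (a2 - 1) 7 (b1 - 1) (b2 - 1) (b3 - 1) (b4 - 1) (c - 1) (d - 1) &&
     goR n (a1 - 1) (a2 - 1) (b2 - 1) (b3 - 1) (b4 - 1) 8 (c - 1) (d - 1) &&
     goR n (a1 - 1) (a2 - 1) (b1 - 1) (b2 - 1) (b3 - 1) (b4 - 1) 16 (d - 1) &&
     goR n (a1 - 1) (a2 - 1) (b1 - 1) (b2 - 1) (b3 - 1) (b4 - 1) (c - 1) 23)

/-- the limit when the hole is `h` steps ahead -/
def lim (h j : ℕ) : ℕ := bif Nat.ble j h then j else j - 1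

/-- before the hole, which is `h` steps ahead -/
def goL (n : ℕ) : ℕ → ℕ → ℕ → ℕ → ℕ → ℕ → ℕ → ℕ → ℕ → Bool
  | 0, a1, a2, b1, b2, b3, b4, c, d =>
    goR n (a1 - 1) (a2 - 1) (b1 - 1) (b2 - 1) (b3 - 1) (b4 - 1) (c - 1) (d - 1)
  | h + 1, a1, a2, b1, b2, b3, b4, c, d =>
    ovr 0 0 a1 a2 b1 b2 b3 b4 c d || ovr 1 (lim (h + 1) 1) a1 a2 b1 b2 b3 b4 c d ||
    ovr 2 (lim (h + 1) 2) a1 a2 b1 b2 b3 b4 c d || ovr 3 (lim (h + 1) 3) a1 a2 b1 b2 b3 b4 c d ||
    ovr 4 (lim (h + 1) 4) a1 a2 b1 b2 b3 b4 c d || ovr 5 (lim (h + 1) 5) a1 a2 b1 b2 b3 b4 c d ||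
    ovr 6 (lim (h + 1) 6) a1 a2 b1 b2 b3 b4 c d || ovr 7 (lim (h + 1) 7) a1 a2 b1 b2 b3 b4 c d ||
    (goL n h (a2 - 1) 7 (b1 - 1) (b2 - 1) (b3 - 1) (b4 - 1) (c - 1) (d - 1) &&
     goL n h (a1 - 1) (a2 - 1) (b2 - 1) (b3 - 1) (b4 - 1) 8 (c - 1) (d - 1) &&
     goL n h (a1 - 1) (a2 - 1) (b1 - 1) (b2 - 1) (b3 - 1) (b4 - 1) 16 (d - 1) &&
     goL n h (a1 - 1) (a2 - 1) (b1 - 1) (b2 - 1) (b3 - 1) (b4 - 1) (c - 1) 23)

theorem chk : goL 14 13 7 7 8 8 8 8 16 23 = true := by decide +kernel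

section Cnt

variable {f : ℕ → ℕ}

theorem cnt_le_succ (k : ℕ) : ∀ (n t : ℕ), cnt f k t n ≤ cnt f k t (n + 1)
  | 0, t => by simp [cnt]
  | n + 1, t => by
    have h := cnt_le_succ k n (t + 1)
    rw [cnt, cnt]
    omega

theorem cnt_mono (k t : ℕ) : Monotone (cnt f k t) := monotone_nat_of_le_succ fun n => cnt_le_succ k n t

theorem cnt_sum_le : ∀ (n t : ℕ),
    cnt f 0 t n + cnt f 1 t n + cnt f 2 t n + cnt f 3 t n ≤ n
  | 0, t => by simp [cnt]
  | n + 1, t => by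
    have h := cnt_sum_le n (t + 1)
    simp only [cnt]
    have h2 : (if f t = 0 then 1 else 0) + (if f t = 1 then 1 else 0) + (if f t = 2 then 1 else 0) +
        (if f t = 3 then 1 else 0) ≤ 1 := by
      split_ifs <;> omega
    omega

theorem cnt_sum_hole : ∀ (n t h : ℕ), h < n → f (t + h) = 4 →
    cnt f 0 t n + cnt f 1 t n + cnt f 2 t n + cnt f 3 t n + 1 ≤ n
  | 0, t, h, hh, _ => by omega
  | n + 1, t, 0, _, h4 => by
    have h := cnt_sum_le (f := f) n (t + 1)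
    rw [Nat.add_zero] at h4
    simp only [cnt, h4]
    simp
    omega
  | n + 1, t, h + 1, hh, h4 => by
    have h5 := cnt_sum_hole n (t + 1) h (by omega) (by rw [← h4]; congr 1; omega)
    simp only [cnt]
    have h2 : (if f t = 0 then 1 else 0) + (if f t = 1 then 1 else 0) + (if f t = 2 then 1 else 0) +
        (if f t = 3 then 1 else 0) ≤ 1 := by
      split_ifs <;> omega
    omega

theorem cnt_hit {k t v q : ℕ} (h : q + 1 ≤ cnt f k t v) : q ≤ cnt f k (t + 1) (v - 1) := by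
  cases v with
  | zero => simp [cnt] at h
  | succ v =>
    simp only [cnt, Nat.add_sub_cancel] at h ⊢
    split_ifs at h <;> omega

theorem cnt_miss {k t v q : ℕ} (hq : 1 ≤ q) (hk : f t ≠ k) (h : q ≤ cnt f k t v) :
    q ≤ cnt f k (t + 1) (v - 1) := by
  cases v with
  | zero => simp [cnt] at h; omega
  | succ v =>
    simp only [cnt, Nat.add_sub_cancel, if_neg hk] at h ⊢
    omega

/-- the deadlines are met -/
structure Inv (f : ℕ → ℕ) (t a1 a2 b1 b2 b3 b4 c d : ℕ) : Prop where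
  a1 : 1 ≤ cnt f 0 t a1
  a2 : 2 ≤ cnt f 0 t a2
  b1 : 1 ≤ cnt f 1 t b1
  b2 : 2 ≤ cnt f 1 t b2
  b3 : 3 ≤ cnt f 1 t b3
  b4 : 4 ≤ cnt f 1 t b4
  c : 1 ≤ cnt f 2 t c
  d : 1 ≤ cnt f 3 t d

/-- all windows are fine -/
structure Win (f : ℕ → ℕ) : Prop where
  a : ∀ t, 2 ≤ cnt f 0 t 7
  b : ∀ t, 4 ≤ cnt f 1 t 8
  c : ∀ t, 1 ≤ cnt f 2 t 16
  d : ∀ t, 1 ≤ cnt f 3 t 23

theorem toNat_ble (v j : ℕ) : (Nat.ble v j).toNat = if v ≤ j then 1 else 0 := by
  by_cases h : v ≤ j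
  · rw [if_pos h, Nat.ble_eq_true_of_le h]; rfl
  · rw [if_neg h]
    have : Nat.ble v j = false := by
      rw [Bool.eq_false_iff]
      intro h2
      exact h (Nat.le_of_ble_eq_true h2)
    rw [this]; rfl

theorem ovr_sound {t a1 a2 b1 b2 b3 b4 c d j l : ℕ} (hI : Inv f t a1 a2 b1 b2 b3 b4 c d)
    (h : ovr j l a1 a2 b1 b2 b3 b4 c d = true) :
    l + 1 ≤ cnt f 0 t j + cnt f 1 t j + cnt f 2 t j + cnt f 3 t j := by
  unfold ovr at h
  have h := Nat.le_of_ble_eq_true h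
  simp only [toNat_ble] at h
  have m0 : ∀ {v}, v ≤ j → cnt f 0 t v ≤ cnt f 0 t j := fun hv => cnt_mono 0 t hv
  have m1 : ∀ {v}, v ≤ j → cnt f 1 t v ≤ cnt f 1 t j := fun hv => cnt_mono 1 t hv
  have m2 : ∀ {v}, v ≤ j → cnt f 2 t v ≤ cnt f 2 t j := fun hv => cnt_mono 2 t hv
  have m3 : ∀ {v}, v ≤ j → cnt f 3 t v ≤ cnt f 3 t j := fun hv => cnt_mono 3 t hv
  have e0 : (if a1 ≤ j then 1 else 0) + (if a2 ≤ j then 1 else 0) ≤ cnt f 0 t j := by
    have i1 := hI.a1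
    have i2 := hI.a2
    by_cases h2 : a2 ≤ j
    · have := m0 h2
      split_ifs <;> omega
    · by_cases h1 : a1 ≤ j
      · have := m0 h1
        simp only [h1, h2, if_true, if_false]; omega
      · simp [h1, h2]
  have e1 : (if b1 ≤ j then 1 else 0) + (if b2 ≤ j then 1 else 0) + (if b3 ≤ j then 1 else 0) +
      (if b4 ≤ j then 1 else 0) ≤ cnt f 1 t j := by
    have i1 := hI.b1
    have i2 := hI.b2
    have i3 := hI.b3
    have i4 := hI.b4
    by_cases h4 : b4 ≤ j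
    · have := m1 h4
      split_ifs <;> omega
    · by_cases h3 : b3 ≤ j
      · have := m1 h3
        simp only [h4, if_false]
        split_ifs <;> omega
      · by_cases h2 : b2 ≤ j
        · have := m1 h2
          simp only [h4, h3, if_false]
          split_ifs <;> omega
        · by_cases h1 : b1 ≤ j
          · have := m1 h1
            simp only [h1, h2, h3, h4, if_true, if_false]; omega
          · simp [h1, h2, h3, h4]
  have e2 : (if c ≤ j then 1 else 0) ≤ cnt f 2 t j := by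
    have i1 := hI.c
    split_ifs with h1
    · exact i1.trans (m2 h1)
    · omega
  have e3 : (if d ≤ j then 1 else 0) ≤ cnt f 3 t j := by
    have i1 := hI.d
    split_ifs with h1
    · exact i1.trans (m3 h1)
    · omega
  omega

theorem inv_A {t a1 a2 b1 b2 b3 b4 c d : ℕ} (hW : Win f) (hI : Inv f t a1 a2 b1 b2 b3 b4 c d)
    (h1 : f t ≠ 1) (h2 : f t ≠ 2) (h3 : f t ≠ 3) :
    Inv f (t + 1) (a2 - 1) 7 (b1 - 1) (b2 - 1) (b3 - 1) (b4 - 1) (c - 1) (d - 1) :=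
  ⟨cnt_hit hI.a2, hW.a _, cnt_miss (by norm_num) h1 hI.b1, cnt_miss (by norm_num) h1 hI.b2,
    cnt_miss (by norm_num) h1 hI.b3, cnt_miss (by norm_num) h1 hI.b4,
    cnt_miss (by norm_num) h2 hI.c, cnt_miss (by norm_num) h3 hI.d⟩

theorem inv_B {t a1 a2 b1 b2 b3 b4 c d : ℕ} (hW : Win f) (hI : Inv f t a1 a2 b1 b2 b3 b4 c d)
    (h1 : f t ≠ 0) (h2 : f t ≠ 2) (h3 : f t ≠ 3) :
    Inv f (t + 1) (a1 - 1) (a2 - 1) (b2 - 1) (b3 - 1) (b4 - 1) 8 (c - 1) (d - 1) :=
  ⟨cnt_miss (by norm_num) h1 hI.a1, cnt_miss (by norm_num) h1 hI.a2, cnt_hit hI.b2, cnt_hit hI.b3,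
    cnt_hit hI.b4, hW.b _, cnt_miss (by norm_num) h2 hI.c, cnt_miss (by norm_num) h3 hI.d⟩

theorem inv_C {t a1 a2 b1 b2 b3 b4 c d : ℕ} (hW : Win f) (hI : Inv f t a1 a2 b1 b2 b3 b4 c d)
    (h1 : f t ≠ 0) (h2 : f t ≠ 1) (h3 : f t ≠ 3) :
    Inv f (t + 1) (a1 - 1) (a2 - 1) (b1 - 1) (b2 - 1) (b3 - 1) (b4 - 1) 16 (d - 1) :=
  ⟨cnt_miss (by norm_num) h1 hI.a1, cnt_miss (by norm_num) h1 hI.a2,
    cnt_miss (by norm_num) h2 hI.b1, cnt_miss (by norm_num) h2 hI.b2,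
    cnt_miss (by norm_num) h2 hI.b3, cnt_miss (by norm_num) h2 hI.b4, hW.c _,
    cnt_miss (by norm_num) h3 hI.d⟩

theorem inv_D {t a1 a2 b1 b2 b3 b4 c d : ℕ} (hW : Win f) (hI : Inv f t a1 a2 b1 b2 b3 b4 c d)
    (h1 : f t ≠ 0) (h2 : f t ≠ 1) (h3 : f t ≠ 2) :
    Inv f (t + 1) (a1 - 1) (a2 - 1) (b1 - 1) (b2 - 1) (b3 - 1) (b4 - 1) (c - 1) 23 :=
  ⟨cnt_miss (by norm_num) h1 hI.a1, cnt_miss (by norm_num) h1 hI.a2,
    cnt_miss (by norm_num) h2 hI.b1, cnt_miss (by norm_num) h2 hI.b2,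
    cnt_miss (by norm_num) h2 hI.b3, cnt_miss (by norm_num) h2 hI.b4,
    cnt_miss (by norm_num) h3 hI.c, hW.d _⟩

theorem inv_hole {t a1 a2 b1 b2 b3 b4 c d : ℕ} (hI : Inv f t a1 a2 b1 b2 b3 b4 c d)
    (h : f t = 4) :
    Inv f (t + 1) (a1 - 1) (a2 - 1) (b1 - 1) (b2 - 1) (b3 - 1) (b4 - 1) (c - 1) (d - 1) :=
  ⟨cnt_miss (by norm_num) (by omega) hI.a1, cnt_miss (by norm_num) (by omega) hI.a2,
    cnt_miss (by norm_num) (by omega) hI.b1, cnt_miss (by norm_num) (by omega) hI.b2,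
    cnt_miss (by norm_num) (by omega) hI.b3, cnt_miss (by norm_num) (by omega) hI.b4,
    cnt_miss (by norm_num) (by omega) hI.c, cnt_miss (by norm_num) (by omega) hI.d⟩

theorem goR_sound (hW : Win f) : ∀ (n t a1 a2 b1 b2 b3 b4 c d : ℕ),
    Inv f t a1 a2 b1 b2 b3 b4 c d → goR n a1 a2 b1 b2 b3 b4 c d = true → False
  | 0, t, a1, a2, b1, b2, b3, b4, c, d => fun _ h => by simp [goR] at h
  | n + 1, t, a1, a2, b1, b2, b3, b4, c, d => fun hI h => by
    simp only [goR, Bool.or_eq_true, Bool.and_eq_true] at h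
    have key : ∀ j, ovr j j a1 a2 b1 b2 b3 b4 c d = true → False := by
      intro j hj
      have h1 := ovr_sound hI hj
      have h2 := cnt_sum_le (f := f) j t
      omega
    rcases h with (((((((h | h) | h) | h) | h) | h) | h) | h) | h
    · exact key 0 h
    · exact key 1 h
    · exact key 2 h
    · exact key 3 h
    · exact key 4 h
    · exact key 5 h
    · exact key 6 h
    · exact key 7 h
    · obtain ⟨⟨⟨hA, hB⟩, hC⟩, hD⟩ := h
      by_cases h1 : f t = 1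
      · exact goR_sound hW n _ _ _ _ _ _ _ _ _
          (inv_B hW hI (by omega) (by omega) (by omega)) hB
      · by_cases h2 : f t = 2
        · exact goR_sound hW n _ _ _ _ _ _ _ _ _
            (inv_C hW hI (by omega) (by omega) (by omega)) hC
        · by_cases h3 : f t = 3
          · exact goR_sound hW n _ _ _ _ _ _ _ _ _
              (inv_D hW hI (by omega) (by omega) (by omega)) hD
          · exact goR_sound hW n _ _ _ _ _ _ _ _ _ (inv_A hW hI h1 h2 h3) hA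

theorem lim_sound {t h j : ℕ} (h4 : f (t + h) = 4) :
    cnt f 0 t j + cnt f 1 t j + cnt f 2 t j + cnt f 3 t j ≤ lim h j := by
  unfold lim
  by_cases hj : j ≤ h
  · rw [Nat.ble_eq_true_of_le hj]
    exact cnt_sum_le j t
  · have : Nat.ble j h = false := by
      rw [Bool.eq_false_iff]
      intro h2
      exact hj (Nat.le_of_ble_eq_true h2)
    rw [this]
    have := cnt_sum_hole (f := f) j t h (by omega) h4
    simp only [cond_false]
    omega

theorem goL_sound (hW : Win f) (n : ℕ) : ∀ (h t a1 a2 b1 b2 b3 b4 c d : ℕ), f (t + h) = 4 →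
    Inv f t a1 a2 b1 b2 b3 b4 c d → goL n h a1 a2 b1 b2 b3 b4 c d = true → False
  | 0, t, a1, a2, b1, b2, b3, b4, c, d => fun h4 hI h => by
    rw [Nat.add_zero] at h4
    exact goR_sound hW n _ _ _ _ _ _ _ _ _ (inv_hole hI h4) h
  | m + 1, t, a1, a2, b1, b2, b3, b4, c, d => fun h4 hI h => by
    simp only [goL, Bool.or_eq_true, Bool.and_eq_true] at h
    have key : ∀ j, ovr j (lim (m + 1) j) a1 a2 b1 b2 b3 b4 c d = true → False := by
      intro j hj
      have h1 := ovr_sound hI hj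
      have h2 := lim_sound (f := f) (j := j) h4
      omega
    have h4' : f (t + 1 + m) = 4 := by rw [← h4]; congr 1; omega
    rcases h with (((((((h | h) | h) | h) | h) | h) | h) | h) | h
    · exact key 0 h
    · exact key 1 h
    · exact key 2 h
    · exact key 3 h
    · exact key 4 h
    · exact key 5 h
    · exact key 6 h
    · exact key 7 h
    · obtain ⟨⟨⟨hA, hB⟩, hC⟩, hD⟩ := h
      by_cases h1 : f t = 1
      · exact goL_sound hW n m _ _ _ _ _ _ _ _ _ h4'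
          (inv_B hW hI (by omega) (by omega) (by omega)) hB
      · by_cases h2 : f t = 2
        · exact goL_sound hW n m _ _ _ _ _ _ _ _ _ h4'
            (inv_C hW hI (by omega) (by omega) (by omega)) hC
        · by_cases h3 : f t = 3
          · exact goL_sound hW n m _ _ _ _ _ _ _ _ _ h4'
              (inv_D hW hI (by omega) (by omega) (by omega)) hD
          · exact goL_sound hW n m _ _ _ _ _ _ _ _ _ h4' (inv_A hW hI h1 h2 h3) hA

/-- no position is a hole -/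
theorem no_hole (hW : Win f) (t : ℕ) : f (t + 13) ≠ 4 := fun h =>
  goL_sound hW 14 13 t 7 7 8 8 8 8 16 23 h
    ⟨by have := hW.a t; omega, hW.a t, by have := hW.b t; omega, by have := hW.b t; omega,
      by have := hW.b t; omega, hW.b t, hW.c t, hW.d t⟩ chk

end Cnt

/-- `m` different tasks of the class `k` that occur in each window of length `p` -/
theorem cnt_eq_card (f : ℕ → ℕ) (k : ℕ) : ∀ (n t : ℕ),
    cnt f k t n = ((Finset.range n).filter fun i => f (t + i) = k).card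
  | 0, t => by simp [cnt]
  | n + 1, t => by
    rw [cnt, cnt_eq_card f k n (t + 1), Finset.range_eq_Ico, Finset.range_eq_Ico,
      ← Finset.insert_Ico_add_one_left_eq_Ico (Nat.succ_pos n), Finset.filter_insert]
    have e : ((Finset.Ico (0 + 1) (n + 1)).filter fun i => f (t + i) = k).card =
        ((Finset.Ico 0 n).filter fun i => f (t + 1 + i) = k).card := by
      symm
      apply Finset.card_bij (fun i _ => i + 1)
      · intro i hi
        simp only [Finset.mem_filter, Finset.mem_Ico] at hi ⊢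
        refine ⟨by omega, ?_⟩
        rw [← hi.2]; congr 1; omega
      · intro i _ j _ h
        omega
      · intro i hi
        simp only [Finset.mem_filter, Finset.mem_Ico] at hi
        refine ⟨i - 1, ?_, by omega⟩
        simp only [Finset.mem_filter, Finset.mem_Ico]
        refine ⟨by omega, ?_⟩
        rw [← hi.2]; congr 1; omega
    by_cases h : f (t + 0) = k
    · rw [if_pos h, if_pos (by simpa using h), Finset.card_insert_of_notMem (by simp), e]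
      ring
    · rw [if_neg h, if_neg (by simpa using h), e]
      ring

end Pool.Agent.TH713.Pin
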