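import Pool.Agent.TH179.SD.Geo
import Pool.Agent.Helper562.VK
set_option autoImplicit false

/-! SD-G3: the manifold is simply connected. -/

open Set Topology

namespace Pool.Agent.TH713.SDG3
open Pool.Agent.TH179.SD

/-- van Kampen for open subsets -/
theorem union {X : Type*} [TopologicalSpace X] {A B : Set X} (hA : IsOpen A) (hB : IsOpen B)
    (sA : IsSimplyConnected A) (sB : IsSimplyConnected B) (hI : IsPathConnected (A ∩ B)) :
    IsSimplyConnected (A ∪ B) := by
  have eA : (Subtype.val : ↥(A ∪ B) → X) '' (Subtype.val ⁻¹' A) = A := by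
    rw [Subtype.image_preimage_coe]; exact inter_eq_self_of_subset_right subset_union_left
  have eB : (Subtype.val : ↥(A ∪ B) → X) '' (Subtype.val ⁻¹' B) = B := by
    rw [Subtype.image_preimage_coe]; exact inter_eq_self_of_subset_right subset_union_right
  have hemb : IsEmbedding (Subtype.val : ↥(A ∪ B) → X) := IsEmbedding.subtypeVal
  refine Pool.Agent.Helper562.VK.simplyConnected_of_union (X := ↥(A ∪ B))
    (U := Subtype.val ⁻¹' A) (V := Subtype.val ⁻¹' B)
    (hA.preimage continuous_subtype_val) (hB.preimage continuous_subtype_val) ?_ ?_ ?_ ?_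
  · ext x
    have hx := x.2
    simp only [mem_union, mem_preimage, mem_univ, iff_true]
    exact hx
  · exact hemb.isSimplyConnected_image.1 (by rw [eA]; exact sA)
  · exact hemb.isSimplyConnected_image.1 (by rw [eB]; exact sB)
  · rw [hemb.isInducing.isPathConnected_iff]
    have e : (Subtype.val : ↥(A ∪ B) → X) '' (Subtype.val ⁻¹' A ∩ Subtype.val ⁻¹' B) = A ∩ B := by
      rw [← preimage_inter, Subtype.image_preimage_coe]
      exact inter_eq_self_of_subset_right (inter_subset_left.trans subset_union_left)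
    rw [e]; exact hI

/-- complements of subspaces of codimension at least two -/
theorem compl_pc {W : Type} [AddCommGroup W] [Module ℝ W] [Module.Finite ℝ W] (f : V →ₗ[ℝ] W)
    (hf : Function.Surjective f) (h2 : 2 ≤ Module.finrank ℝ W) : IsPathConnected {v | f v ≠ 0} := by
  have h : IsPathConnected ((LinearMap.ker f : Submodule ℝ V) : Set V)ᶜ := by
    apply isPathConnected_compl_of_one_lt_codim
    rw [(f.quotKerEquivOfSurjective hf).rank_eq, ← Module.finrank_eq_rank]
    exact_mod_cast h2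
  have e : {v | f v ≠ 0} = ((LinearMap.ker f : Submodule ℝ V) : Set V)ᶜ := by
    ext v; simp
  rw [e]; exact h

/-- the map `a` -/
def fA : V →ₗ[ℝ] (Fin 3 → ℝ) where
  toFun w := ![(w 0).re, (w 0).im, (w 1).re]
  map_add' x y := by ext i; fin_cases i <;> simp
  map_smul' c x := by ext i; fin_cases i <;> simp

/-- the map `b` -/
def fB : V →ₗ[ℝ] (Fin 5 → ℝ) where
  toFun w := ![(w 1).im, (w 2).re, (w 2).im, (w 3).re, (w 3).im]
  map_add' x y := by ext i; fin_cases i <;> simp
  map_smul' c x := by ext i; fin_cases i <;> simp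

theorem fA_surj : Function.Surjective fA := by
  intro y
  refine ⟨![⟨y 0, y 1⟩, ⟨y 2, 0⟩, 0, 0], ?_⟩
  ext i; fin_cases i <;> simp [fA]

theorem fB_surj : Function.Surjective fB := by
  intro y
  refine ⟨![0, ⟨0, y 0⟩, ⟨y 1, y 2⟩, ⟨y 3, y 4⟩], ?_⟩
  ext i; fin_cases i <;> simp [fB]

theorem na_iff (w : V) : na w ≠ 0 ↔ fA w ≠ 0 := by
  rw [not_iff_not]
  constructor
  · intro h
    unfold na at h
    have h1 : (w 0).re = 0 := by nlinarith [sq_nonneg (w 0).re, sq_nonneg (w 0).im, sq_nonneg (w 1).re]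
    have h2 : (w 0).im = 0 := by nlinarith [sq_nonneg (w 0).re, sq_nonneg (w 0).im, sq_nonneg (w 1).re]
    have h3 : (w 1).re = 0 := by nlinarith [sq_nonneg (w 0).re, sq_nonneg (w 0).im, sq_nonneg (w 1).re]
    ext i; fin_cases i <;> simp [fA, h1, h2, h3]
  · intro h
    have h1 := congrFun h 0
    have h2 := congrFun h 1
    have h3 := congrFun h 2
    simp [fA] at h1 h2 h3
    simp [na, h1, h2, h3]

theorem nb_iff (w : V) : nb w ≠ 0 ↔ fB w ≠ 0 := by
  rw [not_iff_not]
  constructor
  · intro h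
    unfold nb at h
    have k1 := sq_nonneg (w 1).im
    have k2 := sq_nonneg (w 2).re
    have k3 := sq_nonneg (w 2).im
    have k4 := sq_nonneg (w 3).re
    have k5 := sq_nonneg (w 3).im
    have h1 : (w 1).im = 0 := by rw [← sq_eq_zero_iff]; linarith
    have h2 : (w 2).re = 0 := by rw [← sq_eq_zero_iff]; linarith
    have h3 : (w 2).im = 0 := by rw [← sq_eq_zero_iff]; linarith
    have h4 : (w 3).re = 0 := by rw [← sq_eq_zero_iff]; linarith
    have h5 : (w 3).im = 0 := by rw [← sq_eq_zero_iff]; linarith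
    ext i; fin_cases i <;> simp [fB, h1, h2, h3, h4, h5]
  · intro h
    have h1 := congrFun h 0
    have h2 := congrFun h 1
    have h3 := congrFun h 2
    have h4 := congrFun h 3
    have h5 := congrFun h 4
    simp [fB] at h1 h2 h3 h4 h5
    simp [nb, h1, h2, h3, h4, h5]

theorem pc_na : IsPathConnected {w : V | na w ≠ 0} := by
  have h := compl_pc fA fA_surj (by simp)
  have e : {w : V | na w ≠ 0} = {w | fA w ≠ 0} := by ext w; exact na_iff w
  rw [e]; exact h

theorem pc_nb : IsPathConnected {w : V | nb w ≠ 0} := by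
  have h := compl_pc fB fB_surj (by simp)
  have e : {w : V | nb w ≠ 0} = {w | fB w ≠ 0} := by ext w; exact nb_iff w
  rw [e]; exact h

theorem pc_le (k : Fin 4) : IsPathConnected {v : V | ∃ i ≤ k, v i ≠ 0} := by
  have hs : Function.Surjective (LinearMap.funLeft ℝ ℂ (Subtype.val : {i : Fin 4 // i ≤ k} → Fin 4)) :=
    LinearMap.funLeft_surjective_of_injective ℝ ℂ _ Subtype.val_injective
  have h := compl_pc _ hs (by
    rw [Module.finrank_pi_fintype]
    simp only [Complex.finrank_real_complex, Finset.sum_const, smul_eq_mul]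
    have : 0 < (Finset.univ : Finset {i : Fin 4 // i ≤ k}).card :=
      Finset.card_pos.2 ⟨⟨k, le_refl k⟩, Finset.mem_univ _⟩
    omega)
  have e : {v : V | ∃ i ≤ k, v i ≠ 0} =
      {v | LinearMap.funLeft ℝ ℂ (Subtype.val : {i : Fin 4 // i ≤ k} → Fin 4) v ≠ 0} := by
    ext v
    simp only [mem_ofPred_eq, ne_eq]
    rw [← not_iff_not]
    push Not
    constructor
    · intro h; ext i
      exact h i.1 i.2
    · intro h i hi
      exact congrFun h ⟨i, hi⟩
  rw [e]; exact h

/-- if `w ≠ 0` then `na w ≠ 0` or `nb w ≠ 0` -/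
theorem na_or_nb {w : V} {j : Fin 4} (h : w j ≠ 0) : na w ≠ 0 ∨ nb w ≠ 0 := by
  by_contra hcon
  push Not at hcon
  obtain ⟨h1, h2⟩ := hcon
  have h1' : fA w = 0 := by by_contra hc; exact (na_iff w).2 hc h1
  have h2' : fB w = 0 := by by_contra hc; exact (nb_iff w).2 hc h2
  apply h
  have a0 := congrFun h1' 0
  have a1 := congrFun h1' 1
  have a2 := congrFun h1' 2
  have b0 := congrFun h2' 0
  have b1 := congrFun h2' 1
  have b2 := congrFun h2' 2
  have b3 := congrFun h2' 3
  have b4 := congrFun h2' 4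
  simp [fA] at a0 a1 a2
  simp [fB] at b0 b1 b2 b3 b4
  apply Complex.ext
  · fin_cases j <;> simp [a0, a2, b1, b3]
  · fin_cases j <;> simp [a1, b0, b2, b4]

theorem mem_inl_inr (k : Fin 4) (v : V) (hv : v k ≠ 0) :
    v ∈ O (Sum.inl k) (Sum.inr 0) ∨ v ∈ O (Sum.inl k) (Sum.inr 1) := by
  have h1 : bd k v k ≠ 0 := by simpa [bd] using hv
  rcases na_or_nb h1 with h | h
  · exact Or.inl ⟨hv, h⟩
  · exact Or.inr ⟨hv, h⟩

theorem inr_sub (k : Fin 4) (c : Fin 3) (v : V) (hv : v ∈ O (Sum.inl k) (Sum.inr c)) : v k ≠ 0 := hv.1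

section
variable {M : Type} [TopologicalSpace M] (D : Model M)

theorem chart_sc (c : Idx) : IsSimplyConnected (D.φ c).source := by
  have h1 : IsOpenEmbedding (D.φ c).symm :=
    (D.φ c).symm.isOpenEmbedding (by rw [OpenPartialHomeomorph.symm_source]; exact D.target c)
  have h2 : (D.φ c).symm '' univ = (D.φ c).source := by
    rw [← D.target c]; exact (D.φ c).symm_image_target_eq_source
  rw [← h2, h1.isEmbedding.isSimplyConnected_image]
  show SimplyConnectedSpace (univ : Set V)
  rw [(Homeomorph.Set.univ V).toHomotopyEquiv.simplyConnectedSpace_iff]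
  infer_instance

theorem inter_pc (c : Idx) {W : Set M} (h : IsPathConnected {q : V | (D.φ c).symm q ∈ W}) :
    IsPathConnected ((D.φ c).source ∩ W) := by
  have hc : Continuous (D.φ c).symm := by
    rw [← continuousOn_univ, ← D.target c]
    exact (D.φ c).continuousOn_symm
  have e : (D.φ c).source ∩ W = (D.φ c).symm '' {q : V | (D.φ c).symm q ∈ W} := by
    ext x
    constructor
    · rintro ⟨h1, h2⟩
      exact ⟨D.φ c x, by rw [mem_ofPred_eq, (D.φ c).left_inv h1]; exact h2, (D.φ c).left_inv h1⟩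
    · rintro ⟨q, hq, rfl⟩
      exact ⟨(D.φ c).map_target (by rw [D.target]; trivial), hq⟩
  rw [e]
  exact h.image hc

theorem step (c : Idx) {W : Set M} (hW : IsOpen W) (sW : IsSimplyConnected W)
    (h : IsPathConnected {q : V | (D.φ c).symm q ∈ W}) : IsSimplyConnected ((D.φ c).source ∪ W) :=
  union (D.φ c).open_source hW (chart_sc D c) sW (inter_pc D c h)

theorem stepL (k : Fin 4) {W : Set M} (hW : IsOpen W) (sW : IsSimplyConnected W)
    (h : ∀ x, x ∈ W ↔ (∃ c : Fin 3, x ∈ (D.φ (Sum.inr c)).source) ∨ ∃ i < k, x ∈ (D.φ (Sum.inl i)).source) :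
    IsSimplyConnected ((D.φ (Sum.inl k)).source ∪ W) := by
  apply step D _ hW sW
  have e : {q : V | (D.φ (Sum.inl k)).symm q ∈ W} = {v : V | ∃ i ≤ k, v i ≠ 0} := by
    ext q
    rw [mem_ofPred_eq, h]
    simp only [D.overlap]
    constructor
    · rintro (⟨c, hc⟩ | ⟨i, hi, hq⟩)
      · exact ⟨k, le_refl k, inr_sub k c q hc⟩
      · refine ⟨i, hi.le, ?_⟩
        have : O (Sum.inl k) (Sum.inl i) = {v : V | v i ≠ 0} := if_neg hi.ne'
        rw [this] at hq; exact hq
    · rintro ⟨i, hi, hq⟩
      rcases lt_or_eq_of_le hi with h1 | h1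
      · right
        refine ⟨i, h1, ?_⟩
        have : O (Sum.inl k) (Sum.inl i) = {v : V | v i ≠ 0} := if_neg h1.ne'
        rw [this]; exact hq
      · left
        subst h1
        rcases mem_inl_inr i q hq with h2 | h2
        · exact ⟨0, h2⟩
        · exact ⟨1, h2⟩
  rw [e]; exact pc_le k

end

theorem taskSC : TaskSC := by
  intro M _ ⟨D⟩
  have o : ∀ c, IsOpen (D.φ c).source := fun c => (D.φ c).open_source
  -- the charts of the sphere part
  have s1 : IsSimplyConnected ((D.φ (Sum.inr 0)).source ∪ (D.φ (Sum.inr 2)).source) := by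
    apply step D _ (o _) (chart_sc D _)
    have e : {q : V | (D.φ (Sum.inr 0)).symm q ∈ (D.φ (Sum.inr 2)).source} = {q : V | nb q ≠ 0} := by
      ext q; rw [mem_ofPred_eq, D.overlap]
      simp [O]
    rw [e]; exact pc_nb
  have s2 : IsSimplyConnected ((D.φ (Sum.inr 1)).source ∪
      ((D.φ (Sum.inr 0)).source ∪ (D.φ (Sum.inr 2)).source)) := by
    apply step D _ ((o _).union (o _)) s1
    have e : {q : V | (D.φ (Sum.inr 1)).symm q ∈ (D.φ (Sum.inr 0)).source ∪ (D.φ (Sum.inr 2)).source} =
        {q : V | na q ≠ 0} := by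
      ext q; rw [mem_ofPred_eq, mem_union, D.overlap, D.overlap]
      simp [O]
      tauto
    rw [e]; exact pc_na
  have o2 := (o (Sum.inr 1)).union ((o (Sum.inr 0)).union (o (Sum.inr 2)))
  have s3 := stepL D 0 o2 s2 (by
    intro x
    simp only [mem_union]
    constructor
    · rintro (h | h | h)
      · exact Or.inl ⟨1, h⟩
      · exact Or.inl ⟨0, h⟩
      · exact Or.inl ⟨2, h⟩
    · rintro (⟨c, hc⟩ | ⟨i, hi, hx⟩)
      · fin_cases c
        · exact Or.inr (Or.inl hc)
        · exact Or.inl hc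
        · exact Or.inr (Or.inr hc)
      · exact absurd hi (Fin.not_lt_zero i))
  have o3 := (o (Sum.inl 0)).union o2
  have s4 := stepL D 1 o3 s3 (by
    intro x
    simp only [mem_union]
    constructor
    · rintro (h | h | h | h)
      · exact Or.inr ⟨0, by decide, h⟩
      · exact Or.inl ⟨1, h⟩
      · exact Or.inl ⟨0, h⟩
      · exact Or.inl ⟨2, h⟩
    · rintro (⟨c, hc⟩ | ⟨i, hi, hx⟩)
      · fin_cases c
        · exact Or.inr (Or.inr (Or.inl hc))
        · exact Or.inr (Or.inl hc)
        · exact Or.inr (Or.inr (Or.inr hc))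
      · fin_cases i
        · exact Or.inl hx
        all_goals exact absurd hi (by decide))
  have o4 := (o (Sum.inl 1)).union o3
  have s5 := stepL D 2 o4 s4 (by
    intro x
    simp only [mem_union]
    constructor
    · rintro (h | h | h | h | h)
      · exact Or.inr ⟨1, by decide, h⟩
      · exact Or.inr ⟨0, by decide, h⟩
      · exact Or.inl ⟨1, h⟩
      · exact Or.inl ⟨0, h⟩
      · exact Or.inl ⟨2, h⟩
    · rintro (⟨c, hc⟩ | ⟨i, hi, hx⟩)
      · fin_cases c
        · exact Or.inr (Or.inr (Or.inr (Or.inl hc)))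
        · exact Or.inr (Or.inr (Or.inl hc))
        · exact Or.inr (Or.inr (Or.inr (Or.inr hc)))
      · fin_cases i
        · exact Or.inr (Or.inl hx)
        · exact Or.inl hx
        all_goals exact absurd hi (by decide))
  have o5 := (o (Sum.inl 2)).union o4
  have s6 := stepL D 3 o5 s5 (by
    intro x
    simp only [mem_union]
    constructor
    · rintro (h | h | h | h | h | h)
      · exact Or.inr ⟨2, by decide, h⟩
      · exact Or.inr ⟨1, by decide, h⟩
      · exact Or.inr ⟨0, by decide, h⟩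
      · exact Or.inl ⟨1, h⟩
      · exact Or.inl ⟨0, h⟩
      · exact Or.inl ⟨2, h⟩
    · rintro (⟨c, hc⟩ | ⟨i, hi, hx⟩)
      · fin_cases c
        · exact Or.inr (Or.inr (Or.inr (Or.inr (Or.inl hc))))
        · exact Or.inr (Or.inr (Or.inr (Or.inl hc)))
        · exact Or.inr (Or.inr (Or.inr (Or.inr (Or.inr hc))))
      · fin_cases i
        · exact Or.inr (Or.inr (Or.inl hx))
        · exact Or.inr (Or.inl hx)
        · exact Or.inl hx
        all_goals exact absurd hi (by decide))
  have e : (D.φ (Sum.inl 3)).source ∪ ((D.φ (Sum.inl 2)).source ∪ ((D.φ (Sum.inl 1)).source ∪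
      ((D.φ (Sum.inl 0)).source ∪ ((D.φ (Sum.inr 1)).source ∪
      ((D.φ (Sum.inr 0)).source ∪ (D.φ (Sum.inr 2)).source))))) = univ := by
    ext x
    simp only [mem_union, mem_univ, iff_true]
    obtain ⟨c, hc⟩ := D.cover x
    rcases c with j | c
    · fin_cases j
      · exact Or.inr (Or.inr (Or.inr (Or.inl hc)))
      · exact Or.inr (Or.inr (Or.inl hc))
      · exact Or.inr (Or.inl hc)
      · exact Or.inl hc
    · fin_cases c
      · exact Or.inr (Or.inr (Or.inr (Or.inr (Or.inr (Or.inl hc)))))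
      · exact Or.inr (Or.inr (Or.inr (Or.inr (Or.inl hc))))
      · exact Or.inr (Or.inr (Or.inr (Or.inr (Or.inr (Or.inr hc)))))
  rw [e] at s6
  have s7 : SimplyConnectedSpace (univ : Set M) := s6
  rwa [(Homeomorph.Set.univ M).toHomotopyEquiv.simplyConnectedSpace_iff] at s7

end Pool.Agent.TH713.SDG3
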