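import Pool.Agent.TH179.SD.Lin
set_option autoImplicit false
set_option linter.unusedSectionVars false
set_option linter.unusedSimpArgs false

/-! SD-L2: facts on the fourth power of a 2-form on `ℝ⁸`. -/

open scoped ContDiff Topology
open Set

namespace Pool.Agent.TH713.SDL2
open Pool.Agent.TH179.SD

section alg
variable {E : Type} [NormedAddCommGroup E] [NormedSpace ℝ E]

theorem upd0 (x y z : E) : Function.update ![x, y] 0 z = ![z, y] := by ext i; fin_cases i <;> simp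
theorem upd1 (x y z : E) : Function.update ![x, y] 1 z = ![x, z] := by ext i; fin_cases i <;> simp

theorem addL (a : AltE E 2) (x x' y : E) : a ![x + x', y] = a ![x, y] + a ![x', y] := by
  have := a.map_update_add ![x, y] 0 x x'
  simpa only [upd0] using this
theorem addR (a : AltE E 2) (x y y' : E) : a ![x, y + y'] = a ![x, y] + a ![x, y'] := by
  have := a.map_update_add ![x, y] 1 y y'
  simpa only [upd1] using this
theorem smulL (a : AltE E 2) (c : ℝ) (x y : E) : a ![c • x, y] = c * a ![x, y] := by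
  have := a.map_update_smul ![x, y] 0 c x
  simpa only [upd0, smul_eq_mul] using this
theorem smulR (a : AltE E 2) (c : ℝ) (x y : E) : a ![x, c • y] = c * a ![x, y] := by
  have := a.map_update_smul ![x, y] 1 c y
  simpa only [upd1, smul_eq_mul] using this
theorem self0 (a : AltE E 2) (x : E) : a ![x, x] = 0 :=
  a.map_eq_zero_of_eq ![x, x] (i := 0) (j := 1) rfl (by decide)
theorem anti (a : AltE E 2) (x y : E) : a ![y, x] = - a ![x, y] := by
  have h := self0 a (x + y)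
  rw [addL, addR, addR, self0, self0] at h
  linarith

/-- the product of four 2-forms as a multilinear map -/
def mm (a b c d : AltE E 2) : MultilinearMap ℝ (fun _ : Fin 8 => E) ℝ :=
  MultilinearMap.mk' (fun v => a ![v 0, v 1] * b ![v 2, v 3] * c ![v 4, v 5] * d ![v 6, v 7])
    (by
      intro m i x y
      fin_cases i <;> simp [Function.update_apply, addL, addR] <;> ring)
    (by
      intro m i c' x
      fin_cases i <;> simp [Function.update_apply, smulL, smulR] <;> ring)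

theorem mm_apply (a b c d : AltE E 2) (v : Fin 8 → E) :
    mm a b c d v = a ![v 0, v 1] * b ![v 2, v 3] * c ![v 4, v 5] * d ![v 6, v 7] := rfl

theorem wedge4_eq (a b c d : AltE E 2) (v : Fin 8 → E) :
    wedge4 a b c d v = MultilinearMap.alternatization (mm a b c d) v := by
  rw [MultilinearMap.alternatization_apply]
  unfold wedge4
  apply Finset.sum_congr rfl
  intro σ _
  rw [MultilinearMap.domDomCongr_apply, mm_apply, Units.smul_def, zsmul_eq_mul]

end alg

/-! ### sums over permutations -/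

/-- the sign as a real number -/
def sg (σ : Equiv.Perm (Fin 8)) : ℝ := (((Equiv.Perm.sign σ : ℤˣ) : ℤ) : ℝ)

theorem sg_mul (σ ρ : Equiv.Perm (Fin 8)) : sg (σ * ρ) = sg σ * sg ρ := by
  unfold sg; rw [Equiv.Perm.sign_mul]; push_cast; ring

theorem sum_mul (ρ : Equiv.Perm (Fin 8)) (f : Equiv.Perm (Fin 8) → ℝ) :
    ∑ σ, sg σ * f σ = sg ρ * ∑ σ, sg σ * f (σ * ρ) := by
  rw [← Equiv.sum_comp (Equiv.mulRight ρ), Finset.mul_sum]
  apply Finset.sum_congr rfl
  intro σ _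
  simp only [Equiv.coe_mulRight]
  rw [sg_mul]; ring

theorem sum_even {ρ : Equiv.Perm (Fin 8)} (h : sg ρ = 1) (f : Equiv.Perm (Fin 8) → ℝ) :
    ∑ σ, sg σ * f σ = ∑ σ, sg σ * f (σ * ρ) := by
  rw [sum_mul ρ, h, one_mul]

theorem sum_odd {ρ : Equiv.Perm (Fin 8)} (h : sg ρ = -1) (f : Equiv.Perm (Fin 8) → ℝ) :
    ∑ σ, sg σ * (f σ - f (σ * ρ)) = 2 * ∑ σ, sg σ * f σ := by
  have h1 := sum_mul ρ f
  rw [h] at h1
  have h2 : ∑ σ, sg σ * (f σ - f (σ * ρ)) = (∑ σ, sg σ * f σ) - ∑ σ, sg σ * f (σ * ρ) := by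
    rw [← Finset.sum_sub_distrib]
    apply Finset.sum_congr rfl; intro σ _; ring
  rw [h2]; linarith

theorem sg_swap {i j : Fin 8} (h : i ≠ j) : sg (Equiv.swap i j) = -1 := by
  unfold sg; rw [Equiv.Perm.sign_swap h]; simp

theorem sg_swap2 {i j k l : Fin 8} (h : i ≠ j) (h' : k ≠ l) : sg (Equiv.swap i j * Equiv.swap k l) = 1 := by
  rw [sg_mul, sg_swap h, sg_swap h']; norm_num

/-- the antisymmetrisation trick -/
theorem sixteen (A : Fin 8 → Fin 8 → ℝ) :
    ∑ σ : Equiv.Perm (Fin 8), sg σ * ((A (σ 0) (σ 1) - A (σ 1) (σ 0)) * (A (σ 2) (σ 3) - A (σ 3) (σ 2)) *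
      (A (σ 4) (σ 5) - A (σ 5) (σ 4)) * (A (σ 6) (σ 7) - A (σ 7) (σ 6))) =
    16 * ∑ σ : Equiv.Perm (Fin 8), sg σ * (A (σ 0) (σ 1) * A (σ 2) (σ 3) * A (σ 4) (σ 5) * A (σ 6) (σ 7)) := by
  have s1 := sum_odd (sg_swap (show (0 : Fin 8) ≠ 1 by decide)) (fun σ => A (σ 0) (σ 1) *
    (A (σ 2) (σ 3) - A (σ 3) (σ 2)) * (A (σ 4) (σ 5) - A (σ 5) (σ 4)) * (A (σ 6) (σ 7) - A (σ 7) (σ 6)))
  have s2 := sum_odd (sg_swap (show (2 : Fin 8) ≠ 3 by decide)) (fun σ => A (σ 0) (σ 1) *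
    A (σ 2) (σ 3) * (A (σ 4) (σ 5) - A (σ 5) (σ 4)) * (A (σ 6) (σ 7) - A (σ 7) (σ 6)))
  have s3 := sum_odd (sg_swap (show (4 : Fin 8) ≠ 5 by decide)) (fun σ => A (σ 0) (σ 1) *
    A (σ 2) (σ 3) * A (σ 4) (σ 5) * (A (σ 6) (σ 7) - A (σ 7) (σ 6)))
  have s4 := sum_odd (sg_swap (show (6 : Fin 8) ≠ 7 by decide)) (fun σ => A (σ 0) (σ 1) *
    A (σ 2) (σ 3) * A (σ 4) (σ 5) * A (σ 6) (σ 7))
  have e1 : (Equiv.swap (0 : Fin 8) 1) 0 = 1 := by decide
  have e2 : (Equiv.swap (0 : Fin 8) 1) 1 = 0 := by decide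
  have e3 : (Equiv.swap (0 : Fin 8) 1) 2 = 2 := by decide
  have e4 : (Equiv.swap (0 : Fin 8) 1) 3 = 3 := by decide
  have e5 : (Equiv.swap (0 : Fin 8) 1) 4 = 4 := by decide
  have e6 : (Equiv.swap (0 : Fin 8) 1) 5 = 5 := by decide
  have e7 : (Equiv.swap (0 : Fin 8) 1) 6 = 6 := by decide
  have e8 : (Equiv.swap (0 : Fin 8) 1) 7 = 7 := by decide
  have f1 : (Equiv.swap (2 : Fin 8) 3) 0 = 0 := by decide
  have f2 : (Equiv.swap (2 : Fin 8) 3) 1 = 1 := by decide
  have f3 : (Equiv.swap (2 : Fin 8) 3) 2 = 3 := by decide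
  have f4 : (Equiv.swap (2 : Fin 8) 3) 3 = 2 := by decide
  have f5 : (Equiv.swap (2 : Fin 8) 3) 4 = 4 := by decide
  have f6 : (Equiv.swap (2 : Fin 8) 3) 5 = 5 := by decide
  have f7 : (Equiv.swap (2 : Fin 8) 3) 6 = 6 := by decide
  have f8 : (Equiv.swap (2 : Fin 8) 3) 7 = 7 := by decide
  have g1 : (Equiv.swap (4 : Fin 8) 5) 0 = 0 := by decide
  have g2 : (Equiv.swap (4 : Fin 8) 5) 1 = 1 := by decide
  have g3 : (Equiv.swap (4 : Fin 8) 5) 2 = 2 := by decide
  have g4 : (Equiv.swap (4 : Fin 8) 5) 3 = 3 := by decide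
  have g5 : (Equiv.swap (4 : Fin 8) 5) 4 = 5 := by decide
  have g6 : (Equiv.swap (4 : Fin 8) 5) 5 = 4 := by decide
  have g7 : (Equiv.swap (4 : Fin 8) 5) 6 = 6 := by decide
  have g8 : (Equiv.swap (4 : Fin 8) 5) 7 = 7 := by decide
  have h1 : (Equiv.swap (6 : Fin 8) 7) 0 = 0 := by decide
  have h2 : (Equiv.swap (6 : Fin 8) 7) 1 = 1 := by decide
  have h3 : (Equiv.swap (6 : Fin 8) 7) 2 = 2 := by decide
  have h4 : (Equiv.swap (6 : Fin 8) 7) 3 = 3 := by decide
  have h5 : (Equiv.swap (6 : Fin 8) 7) 4 = 4 := by decide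
  have h6 : (Equiv.swap (6 : Fin 8) 7) 5 = 5 := by decide
  have h7 : (Equiv.swap (6 : Fin 8) 7) 6 = 7 := by decide
  have h8 : (Equiv.swap (6 : Fin 8) 7) 7 = 6 := by decide
  simp only [Equiv.Perm.coe_mul, Function.comp_apply, e1, e2, e3, e4, e5, e6, e7, e8] at s1
  simp only [Equiv.Perm.coe_mul, Function.comp_apply, f1, f2, f3, f4, f5, f6, f7, f8] at s2
  simp only [Equiv.Perm.coe_mul, Function.comp_apply, g1, g2, g3, g4, g5, g6, g7, g8] at s3
  simp only [Equiv.Perm.coe_mul, Function.comp_apply, h1, h2, h3, h4, h5, h6, h7, h8] at s4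
  have t1 : ∑ σ : Equiv.Perm (Fin 8), sg σ * ((A (σ 0) (σ 1) - A (σ 1) (σ 0)) *
      (A (σ 2) (σ 3) - A (σ 3) (σ 2)) * (A (σ 4) (σ 5) - A (σ 5) (σ 4)) * (A (σ 6) (σ 7) - A (σ 7) (σ 6))) =
      2 * ∑ σ : Equiv.Perm (Fin 8), sg σ * (A (σ 0) (σ 1) *
      (A (σ 2) (σ 3) - A (σ 3) (σ 2)) * (A (σ 4) (σ 5) - A (σ 5) (σ 4)) * (A (σ 6) (σ 7) - A (σ 7) (σ 6))) := by
    rw [← s1]; apply Finset.sum_congr rfl; intro σ _; ring
  have t2 : ∑ σ : Equiv.Perm (Fin 8), sg σ * (A (σ 0) (σ 1) *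
      (A (σ 2) (σ 3) - A (σ 3) (σ 2)) * (A (σ 4) (σ 5) - A (σ 5) (σ 4)) * (A (σ 6) (σ 7) - A (σ 7) (σ 6))) =
      2 * ∑ σ : Equiv.Perm (Fin 8), sg σ * (A (σ 0) (σ 1) * A (σ 2) (σ 3) *
        (A (σ 4) (σ 5) - A (σ 5) (σ 4)) * (A (σ 6) (σ 7) - A (σ 7) (σ 6))) := by
    rw [← s2]; apply Finset.sum_congr rfl; intro σ _; ring
  have t3 : ∑ σ : Equiv.Perm (Fin 8), sg σ * (A (σ 0) (σ 1) * A (σ 2) (σ 3) *
        (A (σ 4) (σ 5) - A (σ 5) (σ 4)) * (A (σ 6) (σ 7) - A (σ 7) (σ 6))) =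
      2 * ∑ σ : Equiv.Perm (Fin 8), sg σ * (A (σ 0) (σ 1) * A (σ 2) (σ 3) *
        A (σ 4) (σ 5) * (A (σ 6) (σ 7) - A (σ 7) (σ 6))) := by
    rw [← s3]; apply Finset.sum_congr rfl; intro σ _; ring
  have t4 : ∑ σ : Equiv.Perm (Fin 8), sg σ * (A (σ 0) (σ 1) * A (σ 2) (σ 3) *
        A (σ 4) (σ 5) * (A (σ 6) (σ 7) - A (σ 7) (σ 6))) =
      2 * ∑ σ : Equiv.Perm (Fin 8), sg σ * (A (σ 0) (σ 1) * A (σ 2) (σ 3) * A (σ 4) (σ 5) * A (σ 6) (σ 7)) := by
    rw [← s4]; apply Finset.sum_congr rfl; intro σ _; ring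
  rw [t1, t2, t3, t4]; ring

/-! ### evaluation -/

/-- `0, 2, 4, 6` -/
def e0 (m : Fin 4) : Fin 8 := ⟨2 * m, by omega⟩
/-- `1, 3, 5, 7` -/
def e1 (m : Fin 4) : Fin 8 := ⟨2 * m + 1, by omega⟩

/-- the upper half of the standard form -/
def AA (d : Fin 4 → ℝ) (p q : Fin 8) : ℝ :=
  if (p : ℕ) % 2 = 0 ∧ (q : ℕ) = p + 1 then d ⟨(p : ℕ) / 2, by omega⟩ else 0

/-- the permutation of the pairs -/
def kap (π : Equiv.Perm (Fin 4)) : Equiv.Perm (Fin 8) :=
  (finProdFinEquiv : Fin 4 × Fin 2 ≃ Fin 8).permCongr (Equiv.prodCongrLeft (fun _ : Fin 2 => π))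

theorem sg_kap (π : Equiv.Perm (Fin 4)) : sg (kap π) = 1 := by
  unfold sg kap
  rw [Equiv.Perm.sign_permCongr, Equiv.Perm.sign_prodCongrLeft, Finset.prod_const]
  simp

theorem kap_e0 (π : Equiv.Perm (Fin 4)) (m : Fin 4) : kap π (e0 m) = e0 (π m) := by
  have h : e0 m = (finProdFinEquiv : Fin 4 × Fin 2 ≃ Fin 8) (m, 0) := by
    apply Fin.ext; simp [e0, finProdFinEquiv]
  have h' : e0 (π m) = (finProdFinEquiv : Fin 4 × Fin 2 ≃ Fin 8) (π m, 0) := by
    apply Fin.ext; simp [e0, finProdFinEquiv]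
  rw [h, h']; unfold kap
  rw [Equiv.permCongr_apply, Equiv.symm_apply_apply]; rfl

theorem kap_e1 (π : Equiv.Perm (Fin 4)) (m : Fin 4) : kap π (e1 m) = e1 (π m) := by
  have h : e1 m = (finProdFinEquiv : Fin 4 × Fin 2 ≃ Fin 8) (m, 1) := by
    apply Fin.ext; simp [e1, finProdFinEquiv]; ring
  have h' : e1 (π m) = (finProdFinEquiv : Fin 4 × Fin 2 ≃ Fin 8) (π m, 1) := by
    apply Fin.ext; simp [e1, finProdFinEquiv]; ring
  rw [h, h']; unfold kap
  rw [Equiv.permCongr_apply, Equiv.symm_apply_apply]; rfl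

theorem cases8 (r : Fin 8) : (∃ m, r = e0 m) ∨ ∃ m, r = e1 m := by
  rcases Nat.mod_two_eq_zero_or_one r with h | h
  · left; exact ⟨⟨(r : ℕ) / 2, by omega⟩, by apply Fin.ext; simp [e0]; omega⟩
  · right; exact ⟨⟨(r : ℕ) / 2, by omega⟩, by apply Fin.ext; simp [e1]; omega⟩

theorem AA_e (d : Fin 4 → ℝ) (m : Fin 4) : AA d (e0 m) (e1 m) = d m := by
  unfold AA e0 e1
  rw [if_pos]
  · congr 1; apply Fin.ext; simp
  · constructor <;> simp

theorem AA_ne {d : Fin 4 → ℝ} {p q : Fin 8} (h : AA d p q ≠ 0) : ∃ k, p = e0 k ∧ q = e1 k := by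
  unfold AA at h
  split_ifs at h with h1
  · refine ⟨⟨(p : ℕ) / 2, by omega⟩, ?_, ?_⟩
    · apply Fin.ext; simp [e0]; omega
    · apply Fin.ext; simp [e1]; omega
  · exact absurd rfl h

theorem kap_inj : Function.Injective kap := by
  intro π π' h
  ext m
  have := congrArg (fun σ : Equiv.Perm (Fin 8) => σ (e0 m)) h
  simp only [kap_e0] at this
  have := congrArg Fin.val this
  simp [e0] at this
  omega

theorem surj_kap {σ : Equiv.Perm (Fin 8)} (h : ∀ m, ∃ k, σ (e0 m) = e0 k ∧ σ (e1 m) = e1 k) :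
    ∃ π, kap π = σ := by
  choose k hk using h
  have hinj : Function.Injective k := by
    intro m m' hm
    have : σ (e0 m) = σ (e0 m') := by rw [(hk m).1, (hk m').1, hm]
    have := σ.injective this
    have := congrArg Fin.val this
    simp [e0] at this
    exact Fin.ext (by omega)
  refine ⟨Equiv.ofBijective k (Finite.injective_iff_bijective.1 hinj), ?_⟩
  apply Equiv.ext
  intro r
  rcases cases8 r with ⟨m, rfl⟩ | ⟨m, rfl⟩
  · rw [kap_e0, (hk m).1]; rfl
  · rw [kap_e1, (hk m).2]; rfl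

theorem sumA (d : Fin 4 → ℝ) :
    ∑ σ : Equiv.Perm (Fin 8), sg σ * (AA d (σ 0) (σ 1) * AA d (σ 2) (σ 3) * AA d (σ 4) (σ 5) *
      AA d (σ 6) (σ 7)) = 24 * ∏ k, d k := by
  classical
  have hr : ∀ σ : Equiv.Perm (Fin 8), AA d (σ 0) (σ 1) * AA d (σ 2) (σ 3) * AA d (σ 4) (σ 5) *
      AA d (σ 6) (σ 7) = ∏ m : Fin 4, AA d (σ (e0 m)) (σ (e1 m)) := by
    intro σ
    rw [Fin.prod_univ_four]; rfl
  simp only [hr]
  rw [← Finset.sum_subset (Finset.subset_univ (Finset.univ.image kap))]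
  · rw [Finset.sum_image (fun x _ y _ h => kap_inj h)]
    have : ∀ π : Equiv.Perm (Fin 4), sg (kap π) * ∏ m : Fin 4, AA d (kap π (e0 m)) (kap π (e1 m)) = ∏ k, d k := by
      intro π
      rw [sg_kap, one_mul]
      simp only [kap_e0, kap_e1, AA_e]
      exact Equiv.prod_comp π d
    simp only [this]
    rw [Finset.sum_const, Finset.card_univ, Fintype.card_perm, Fintype.card_fin]
    norm_num [Nat.factorial]
  · intro σ _ hσ
    by_contra hne
    apply hσ
    rw [Finset.mem_image]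
    have h1 : ∏ m : Fin 4, AA d (σ (e0 m)) (σ (e1 m)) ≠ 0 := right_ne_zero_of_mul hne
    rw [Finset.prod_ne_zero_iff] at h1
    obtain ⟨π, hπ⟩ := surj_kap (fun m => AA_ne (h1 m (Finset.mem_univ m)))
    exact ⟨π, Finset.mem_univ _, hπ⟩

theorem pow4_std {E : Type} [NormedAddCommGroup E] [NormedSpace ℝ E] (a : AltE E 2) (v : Fin 8 → E)
    (d : Fin 4 → ℝ) (h : ∀ p q, a ![v p, v q] = AA d p q - AA d q p) : pow4 a v = 384 * ∏ k, d k := by
  have e : pow4 a v = ∑ σ : Equiv.Perm (Fin 8), sg σ * ((AA d (σ 0) (σ 1) - AA d (σ 1) (σ 0)) *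
      (AA d (σ 2) (σ 3) - AA d (σ 3) (σ 2)) *
      (AA d (σ 4) (σ 5) - AA d (σ 5) (σ 4)) * (AA d (σ 6) (σ 7) - AA d (σ 7) (σ 6))) := by
    unfold pow4 wedge4
    simp only [h]; rfl
  rw [e, sixteen, sumA]; ring

/-! ### symmetry and linearity -/

section sym
variable {E : Type} [NormedAddCommGroup E] [NormedSpace ℝ E]

theorem wedge4_sg (a b c d : AltE E 2) (v : Fin 8 → E) :
    wedge4 a b c d v = ∑ σ : Equiv.Perm (Fin 8), sg σ *
      (a ![v (σ 0), v (σ 1)] * b ![v (σ 2), v (σ 3)] * c ![v (σ 4), v (σ 5)] * d ![v (σ 6), v (σ 7)]) := rfl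

theorem symm12 (a b c d : AltE E 2) (v : Fin 8 → E) : wedge4 a b c d v = wedge4 b a c d v := by
  rw [wedge4_sg, wedge4_sg, sum_even (ρ := Equiv.swap 0 2 * Equiv.swap 1 3) (sg_swap2 (by decide) (by decide))]
  apply Finset.sum_congr rfl
  intro σ _
  have e0 : (Equiv.swap (0 : Fin 8) 2 * Equiv.swap 1 3 : Equiv.Perm (Fin 8)) 0 = 2 := by decide
  have e1 : (Equiv.swap (0 : Fin 8) 2 * Equiv.swap 1 3 : Equiv.Perm (Fin 8)) 1 = 3 := by decide
  have e2 : (Equiv.swap (0 : Fin 8) 2 * Equiv.swap 1 3 : Equiv.Perm (Fin 8)) 2 = 0 := by decide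
  have e3 : (Equiv.swap (0 : Fin 8) 2 * Equiv.swap 1 3 : Equiv.Perm (Fin 8)) 3 = 1 := by decide
  have e4 : (Equiv.swap (0 : Fin 8) 2 * Equiv.swap 1 3 : Equiv.Perm (Fin 8)) 4 = 4 := by decide
  have e5 : (Equiv.swap (0 : Fin 8) 2 * Equiv.swap 1 3 : Equiv.Perm (Fin 8)) 5 = 5 := by decide
  have e6 : (Equiv.swap (0 : Fin 8) 2 * Equiv.swap 1 3 : Equiv.Perm (Fin 8)) 6 = 6 := by decide
  have e7 : (Equiv.swap (0 : Fin 8) 2 * Equiv.swap 1 3 : Equiv.Perm (Fin 8)) 7 = 7 := by decide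
  simp only [Equiv.Perm.mul_apply σ, e0, e1, e2, e3, e4, e5, e6, e7]
  ring

theorem symm23 (a b c d : AltE E 2) (v : Fin 8 → E) : wedge4 a b c d v = wedge4 a c b d v := by
  rw [wedge4_sg, wedge4_sg, sum_even (ρ := Equiv.swap 2 4 * Equiv.swap 3 5) (sg_swap2 (by decide) (by decide))]
  apply Finset.sum_congr rfl
  intro σ _
  have e0 : (Equiv.swap (2 : Fin 8) 4 * Equiv.swap 3 5 : Equiv.Perm (Fin 8)) 0 = 0 := by decide
  have e1 : (Equiv.swap (2 : Fin 8) 4 * Equiv.swap 3 5 : Equiv.Perm (Fin 8)) 1 = 1 := by decide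
  have e2 : (Equiv.swap (2 : Fin 8) 4 * Equiv.swap 3 5 : Equiv.Perm (Fin 8)) 2 = 4 := by decide
  have e3 : (Equiv.swap (2 : Fin 8) 4 * Equiv.swap 3 5 : Equiv.Perm (Fin 8)) 3 = 5 := by decide
  have e4 : (Equiv.swap (2 : Fin 8) 4 * Equiv.swap 3 5 : Equiv.Perm (Fin 8)) 4 = 2 := by decide
  have e5 : (Equiv.swap (2 : Fin 8) 4 * Equiv.swap 3 5 : Equiv.Perm (Fin 8)) 5 = 3 := by decide
  have e6 : (Equiv.swap (2 : Fin 8) 4 * Equiv.swap 3 5 : Equiv.Perm (Fin 8)) 6 = 6 := by decide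
  have e7 : (Equiv.swap (2 : Fin 8) 4 * Equiv.swap 3 5 : Equiv.Perm (Fin 8)) 7 = 7 := by decide
  simp only [Equiv.Perm.mul_apply σ, e0, e1, e2, e3, e4, e5, e6, e7]
  ring

theorem symm34 (a b c d : AltE E 2) (v : Fin 8 → E) : wedge4 a b c d v = wedge4 a b d c v := by
  rw [wedge4_sg, wedge4_sg, sum_even (ρ := Equiv.swap 4 6 * Equiv.swap 5 7) (sg_swap2 (by decide) (by decide))]
  apply Finset.sum_congr rfl
  intro σ _
  have e0 : (Equiv.swap (4 : Fin 8) 6 * Equiv.swap 5 7 : Equiv.Perm (Fin 8)) 0 = 0 := by decide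
  have e1 : (Equiv.swap (4 : Fin 8) 6 * Equiv.swap 5 7 : Equiv.Perm (Fin 8)) 1 = 1 := by decide
  have e2 : (Equiv.swap (4 : Fin 8) 6 * Equiv.swap 5 7 : Equiv.Perm (Fin 8)) 2 = 2 := by decide
  have e3 : (Equiv.swap (4 : Fin 8) 6 * Equiv.swap 5 7 : Equiv.Perm (Fin 8)) 3 = 3 := by decide
  have e4 : (Equiv.swap (4 : Fin 8) 6 * Equiv.swap 5 7 : Equiv.Perm (Fin 8)) 4 = 6 := by decide
  have e5 : (Equiv.swap (4 : Fin 8) 6 * Equiv.swap 5 7 : Equiv.Perm (Fin 8)) 5 = 7 := by decide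
  have e6 : (Equiv.swap (4 : Fin 8) 6 * Equiv.swap 5 7 : Equiv.Perm (Fin 8)) 6 = 4 := by decide
  have e7 : (Equiv.swap (4 : Fin 8) 6 * Equiv.swap 5 7 : Equiv.Perm (Fin 8)) 7 = 5 := by decide
  simp only [Equiv.Perm.mul_apply σ, e0, e1, e2, e3, e4, e5, e6, e7]
  ring

theorem add' (a a' b c d : AltE E 2) (v : Fin 8 → E) :
    wedge4 (a + a') b c d v = wedge4 a b c d v + wedge4 a' b c d v := by
  rw [wedge4_sg, wedge4_sg, wedge4_sg, ← Finset.sum_add_distrib]
  apply Finset.sum_congr rfl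
  intro σ _
  rw [ContinuousAlternatingMap.add_apply]
  ring

theorem smul' (r : ℝ) (a b c d : AltE E 2) (v : Fin 8 → E) :
    wedge4 (r • a) b c d v = r * wedge4 a b c d v := by
  rw [wedge4_sg, wedge4_sg, Finset.mul_sum]
  apply Finset.sum_congr rfl
  intro σ _
  rw [ContinuousAlternatingMap.smul_apply, smul_eq_mul]
  ring

end sym

theorem cont' : Continuous fun a : Alt 2 => pow4 a rb := by
  unfold pow4 wedge4
  have h : ∀ u w : V, Continuous fun a : Alt 2 => a ![u, w] := fun u w => continuous_eval_const _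
  fun_prop

/-! ### the basis -/

/-- the real basis `rb` -/
noncomputable def rbB : Module.Basis (Fin 8) ℝ V :=
  (Pi.basis fun _ : Fin 4 => Complex.basisOneI).reindex
    ((Equiv.sigmaEquivProd (Fin 4) (Fin 2)).trans (finProdFinEquiv : Fin 4 × Fin 2 ≃ Fin 8))

theorem rbB_eq : (rbB : Fin 8 → V) = rb := by
  ext r : 1
  unfold rbB
  rw [Module.Basis.reindex_apply, Pi.basis_apply]
  rcases cases8 r with ⟨m, rfl⟩ | ⟨m, rfl⟩
  · have h : e0 m = (finProdFinEquiv : Fin 4 × Fin 2 ≃ Fin 8) (m, 0) := by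
      apply Fin.ext; simp [e0, finProdFinEquiv]
    have h2 : (((Equiv.sigmaEquivProd (Fin 4) (Fin 2)).trans
        (finProdFinEquiv : Fin 4 × Fin 2 ≃ Fin 8)).symm (e0 m)) = ⟨m, 0⟩ := by
      rw [h]; simp
    rw [h2]
    unfold rb e0
    simp
  · have h : e1 m = (finProdFinEquiv : Fin 4 × Fin 2 ≃ Fin 8) (m, 1) := by
      apply Fin.ext; simp [e1, finProdFinEquiv]; ring
    have h2 : (((Equiv.sigmaEquivProd (Fin 4) (Fin 2)).trans
        (finProdFinEquiv : Fin 4 × Fin 2 ≃ Fin 8)).symm (e1 m)) = ⟨m, 1⟩ := by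
      rw [h]; simp
    rw [h2]
    unfold rb e1
    have h3 : (⟨(2 * (m : ℕ) + 1) / 2, by omega⟩ : Fin 4) = m := by apply Fin.ext; simp; omega
    simp [h3]

theorem comp_vec {E E' : Type} [NormedAddCommGroup E] [NormedSpace ℝ E] [NormedAddCommGroup E']
    [NormedSpace ℝ E'] (a b c d : AltE E' 2) (L : E →L[ℝ] E') (v : Fin 8 → E) :
    wedge4 (a.compContinuousLinearMap L) (b.compContinuousLinearMap L)
      (c.compContinuousLinearMap L) (d.compContinuousLinearMap L) v = wedge4 a b c d (fun i => L (v i)) := by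
  have e : ∀ (a : AltE E' 2) (x y : E), a.compContinuousLinearMap L ![x, y] = a ![L x, L y] := by
    intro a x y
    rw [ContinuousAlternatingMap.compContinuousLinearMap_apply]
    congr 1; ext i : 1; fin_cases i <;> rfl
  rw [wedge4_sg, wedge4_sg]
  apply Finset.sum_congr rfl
  intro σ _
  simp only [e]

theorem alt_det' {E : Type} [NormedAddCommGroup E] [NormedSpace ℝ E] (B : Module.Basis (Fin 8) ℝ E)
    (f : E [⋀^Fin 8]→ₗ[ℝ] ℝ) (L : E →ₗ[ℝ] E) :
    f (fun i => L (B i)) = LinearMap.det L * f B := by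
  have h2 := f.eq_smul_basis_det B
  have h4 : (fun i => L (B i)) = L ∘ B := rfl
  rw [h4]
  have h3 : f (L ∘ B) = f B * B.det (L ∘ B) := by
    conv_lhs => rw [h2]
    rw [AlternatingMap.smul_apply, smul_eq_mul]
  rw [h3, Module.Basis.det_comp, Module.Basis.det_self, mul_one, mul_comm]

theorem wedge4_det {E : Type} [NormedAddCommGroup E] [NormedSpace ℝ E] (B : Module.Basis (Fin 8) ℝ E)
    (a b c d : AltE E 2) (L : E →L[ℝ] E) :
    wedge4 (a.compContinuousLinearMap L) (b.compContinuousLinearMap L)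
      (c.compContinuousLinearMap L) (d.compContinuousLinearMap L) B =
      LinearMap.det (L : E →ₗ[ℝ] E) * wedge4 a b c d B := by
  have h := alt_det' B (MultilinearMap.alternatization (mm a b c d)) (L : E →ₗ[ℝ] E)
  have e : (fun i => (L : E →ₗ[ℝ] E) (B i)) = fun i => L (B i) := rfl
  rw [e] at h
  rw [comp_vec, wedge4_eq, wedge4_eq, h]

theorem comp' (a b c d : Alt 2) (L : V →L[ℝ] V) :
    wedge4 (a.compContinuousLinearMap L) (b.compContinuousLinearMap L)
      (c.compContinuousLinearMap L) (d.compContinuousLinearMap L) rb = L.det * wedge4 a b c d rb := by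
  have h := wedge4_det (E := V) rbB a b c d L
  rw [rbB_eq] at h
  exact h

/-! ### the value on diagonal forms -/

theorem diag' (a : Alt 2) (d : Fin 4 → ℝ)
    (h : ∀ (i j : Fin 4) (x y : ℂ), a ![Pi.single i x, Pi.single j y] =
      if i = j then d i * ((starRingEnd ℂ) x * y).im else 0) : pow4 a rb = 384 * ∏ k, d k := by
  apply pow4_std
  have r0 : ∀ m, rb (e0 m) = Pi.single m 1 := by
    intro m; unfold rb e0; simp
  have r1 : ∀ m, rb (e1 m) = Pi.single m Complex.I := by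
    intro m; unfold rb e1
    have h3 : (⟨(2 * (m : ℕ) + 1) / 2, by omega⟩ : Fin 4) = m := by apply Fin.ext; simp; omega
    simp [h3]
  have n0 : ∀ m k, AA d (e0 m) (e0 k) = 0 := by
    intro m k; unfold AA e0; rw [if_neg]; simp; omega
  have n1 : ∀ m k, AA d (e1 m) (e1 k) = 0 := by
    intro m k; unfold AA e1; rw [if_neg]; simp
  have n2 : ∀ m k, AA d (e1 m) (e0 k) = 0 := by
    intro m k; unfold AA e0 e1; rw [if_neg]; simp
  have n3 : ∀ m k, AA d (e0 m) (e1 k) = if m = k then d m else 0 := by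
    intro m k
    by_cases hmk : m = k
    · subst hmk; rw [AA_e, if_pos rfl]
    · rw [if_neg hmk]; unfold AA e0 e1; rw [if_neg]; simp
      intro hc; apply hmk; exact Fin.ext (by omega)
  intro p q
  rcases cases8 p with ⟨m, rfl⟩ | ⟨m, rfl⟩ <;> rcases cases8 q with ⟨k, rfl⟩ | ⟨k, rfl⟩
  · rw [r0, r0, h, n0, n0]; simp
  · rw [r0, r1, h, n3, n2]; simp
  · rw [r1, r0, h, n3, n2]
    by_cases hmk : m = k
    · subst hmk; simp
    · rw [if_neg hmk, if_neg (Ne.symm hmk)]; simp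
  · rw [r1, r1, h, n1, n1]; simp

/-! ### nondegeneracy -/

section nondeg
variable {E : Type} [NormedAddCommGroup E] [NormedSpace ℝ E]

theorem nondeg1 (B : Module.Basis (Fin 8) ℝ E) (a : AltE E 2) {u : E} (hu : ∀ w, a ![u, w] = 0) (hne : u ≠ 0) :
    pow4 a B = 0 := by
  obtain ⟨φ, hφ⟩ := SeparatingDual.exists_eq_one (R := ℝ) hne
  set L : E →L[ℝ] E := ContinuousLinearMap.id ℝ E - φ.smulRight u with hL
  have hLx : ∀ x, L x = x + (-φ x) • u := by
    intro x; simp [hL, sub_eq_add_neg]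
  have hLu : L u = 0 := by rw [hLx, hφ]; simp
  have ha : a.compContinuousLinearMap L = a := by
    ext v
    have e : v = ![v 0, v 1] := by ext i; fin_cases i <;> rfl
    rw [ContinuousAlternatingMap.compContinuousLinearMap_apply]
    have e2 : (⇑L ∘ v) = ![L (v 0), L (v 1)] := by ext i; fin_cases i <;> rfl
    rw [e2]
    conv_rhs => rw [e]
    rw [hLx, hLx, addL, addR, addR, smulL, smulR, smulL, smulR, hu, hu, anti a u (v 0), hu]
    ring
  have h := wedge4_det B a a a a L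
  rw [ha] at h
  have hdet : LinearMap.det (L : E →ₗ[ℝ] E) = 0 := by
    haveI : FiniteDimensional ℝ E := Module.Finite.of_basis B
    rw [LinearMap.det_eq_zero_iff_ker_ne_bot, Submodule.ne_bot_iff]
    exact ⟨u, by simpa using hLu, hne⟩
  rw [hdet, zero_mul] at h
  exact h

/-- the form as a bilinear map -/
noncomputable def bil (a : AltE E 2) : E →ₗ[ℝ] E →ₗ[ℝ] ℝ :=
  LinearMap.mk₂ ℝ (fun x y => a ![x, y]) (addL a) (fun c x y => smulL a c x y) (addR a)
    (fun c x y => smulR a c x y)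

theorem bil_apply (a : AltE E 2) (x y : E) : bil a x y = a ![x, y] := rfl

theorem bil_anti (a : AltE E 2) (x y : E) : bil a y x = - bil a x y := anti a x y

theorem sympl (a : AltE E 2) (h8 : Module.finrank ℝ E = 8) (hnd : ∀ u, (∀ v, a ![u, v] = 0) → u = 0)
    (k : ℕ) (hk : k ≤ 4) : ∃ x y : ℕ → E, ∀ i < k, ∀ j < k, bil a (x i) (x j) = 0 ∧ bil a (y i) (y j) = 0 ∧
      bil a (x i) (y j) = if i = j then 1 else 0 := by
  induction k with
  | zero => exact ⟨fun _ => 0, fun _ => 0, fun i hi => absurd hi (Nat.not_lt_zero i)⟩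
  | succ k ih =>
    obtain ⟨x, y, hxy⟩ := ih (by omega)
    haveI : FiniteDimensional ℝ E := Module.finite_of_finrank_pos (by rw [h8]; norm_num)
    set Φ : E →ₗ[ℝ] (Fin k → ℝ) × (Fin k → ℝ) :=
      LinearMap.prod (LinearMap.pi fun i => bil a (x i)) (LinearMap.pi fun i => bil a (y i)) with hΦ
    have hker : LinearMap.ker Φ ≠ ⊥ := by
      apply LinearMap.ker_ne_bot_of_finrank_lt
      rw [h8]; simp; omega
    rw [Submodule.ne_bot_iff] at hker
    obtain ⟨u, hu, hu0⟩ := hker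
    rw [LinearMap.mem_ker] at hu
    have hux : ∀ i < k, bil a (x i) u = 0 := fun i hi => by
      have := congrFun (congrArg Prod.fst hu) ⟨i, hi⟩
      simpa [hΦ] using this
    have huy : ∀ i < k, bil a (y i) u = 0 := fun i hi => by
      have := congrFun (congrArg Prod.snd hu) ⟨i, hi⟩
      simpa [hΦ] using this
    obtain ⟨v0, hv0⟩ : ∃ v, bil a u v ≠ 0 := by
      by_contra hcon
      push Not at hcon
      exact hu0 (hnd u hcon)
    set v1 : E := v0 - ∑ i ∈ Finset.range k, bil a (x i) v0 • y i + ∑ i ∈ Finset.range k, bil a (y i) v0 • x i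
      with hv1
    have hx1 : ∀ j < k, bil a (x j) v1 = 0 := by
      intro j hj
      rw [hv1, map_add, map_sub, map_sum, map_sum]
      have e1 : ∑ i ∈ Finset.range k, bil a (x j) (bil a (x i) v0 • y i) = bil a (x j) v0 := by
        rw [Finset.sum_eq_single j]
        · rw [map_smul, (hxy j hj j hj).2.2, if_pos rfl, smul_eq_mul, mul_one]
        · intro i hi hij
          rw [map_smul, (hxy j hj i (Finset.mem_range.1 hi)).2.2, if_neg (Ne.symm hij), smul_zero]
        · intro h; exact absurd (Finset.mem_range.2 hj) h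
      have e2 : ∑ i ∈ Finset.range k, bil a (x j) (bil a (y i) v0 • x i) = 0 := by
        apply Finset.sum_eq_zero
        intro i hi
        rw [map_smul, (hxy j hj i (Finset.mem_range.1 hi)).1, smul_zero]
      rw [e1, e2]; ring
    have hy1 : ∀ j < k, bil a (y j) v1 = 0 := by
      intro j hj
      rw [hv1, map_add, map_sub, map_sum, map_sum]
      have e1 : ∑ i ∈ Finset.range k, bil a (y j) (bil a (x i) v0 • y i) = 0 := by
        apply Finset.sum_eq_zero
        intro i hi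
        rw [map_smul, (hxy j hj i (Finset.mem_range.1 hi)).2.1, smul_zero]
      have e2 : ∑ i ∈ Finset.range k, bil a (y j) (bil a (y i) v0 • x i) = - bil a (y j) v0 := by
        rw [Finset.sum_eq_single j]
        · rw [map_smul, bil_anti a (x j) (y j), (hxy j hj j hj).2.2, if_pos rfl, smul_eq_mul]; ring
        · intro i hi hij
          rw [map_smul, bil_anti a (x i) (y j), (hxy i (Finset.mem_range.1 hi) j hj).2.2, if_neg hij, neg_zero,
            smul_zero]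
        · intro h; exact absurd (Finset.mem_range.2 hj) h
      rw [e1, e2]; ring
    have hu1 : bil a u v1 = bil a u v0 := by
      rw [hv1, map_add, map_sub, map_sum, map_sum]
      have e1 : ∑ i ∈ Finset.range k, bil a u (bil a (x i) v0 • y i) = 0 := by
        apply Finset.sum_eq_zero
        intro i hi
        rw [map_smul, bil_anti a (y i) u, huy i (Finset.mem_range.1 hi), neg_zero, smul_zero]
      have e2 : ∑ i ∈ Finset.range k, bil a u (bil a (y i) v0 • x i) = 0 := by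
        apply Finset.sum_eq_zero
        intro i hi
        rw [map_smul, bil_anti a (x i) u, hux i (Finset.mem_range.1 hi), neg_zero, smul_zero]
      rw [e1, e2]; ring
    set c := bil a u v0 with hc
    refine ⟨Function.update x k u, Function.update y k (c⁻¹ • v1), ?_⟩
    intro i hi j hj
    rcases Nat.lt_succ_iff_lt_or_eq.1 hi with hi' | hi' <;> rcases Nat.lt_succ_iff_lt_or_eq.1 hj with hj' | hj'
    · rw [Function.update_of_ne hi'.ne, Function.update_of_ne hj'.ne, Function.update_of_ne hi'.ne,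
        Function.update_of_ne hj'.ne]
      exact hxy i hi' j hj'
    · subst hj'
      rw [Function.update_of_ne hi'.ne, Function.update_self, Function.update_of_ne hi'.ne,
        Function.update_self, map_smul, map_smul, hx1 i hi', hy1 i hi', if_neg hi'.ne]
      exact ⟨hux i hi', by simp, by simp⟩
    · subst hi'
      rw [Function.update_of_ne hj'.ne, Function.update_self, Function.update_of_ne hj'.ne,
        Function.update_self, map_smul, bil_anti a (x j) u, hux j hj', bil_anti a (y j) u, huy j hj',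
        LinearMap.smul_apply, bil_anti a (y j) v1, hy1 j hj', if_neg hj'.ne']
      simp
    · subst hi'; subst hj'
      rw [Function.update_self, Function.update_self, if_pos rfl]
      refine ⟨self0 a u, self0 a _, ?_⟩
      rw [map_smul, hu1, smul_eq_mul, inv_mul_cancel₀ hv0]

theorem std_family (a : AltE E 2) (h8 : Module.finrank ℝ E = 8) (hnd : ∀ u, (∀ v, a ![u, v] = 0) → u = 0) :
    ∃ v : Fin 8 → E, pow4 a v = 384 := by
  obtain ⟨x, y, hxy⟩ := sympl a h8 hnd 4 le_rfl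
  refine ⟨fun p => if (p : ℕ) % 2 = 0 then x (p / 2) else y (p / 2), ?_⟩
  set v : Fin 8 → E := fun p => if (p : ℕ) % 2 = 0 then x (p / 2) else y (p / 2) with hv
  have h : pow4 a v = 384 * ∏ _k : Fin 4, (1 : ℝ) := by
    apply pow4_std a v (fun _ => (1 : ℝ))
    have r0 : ∀ m : Fin 4, v (e0 m) = x m := by
      intro m; simp [hv, e0]
    have r1 : ∀ m : Fin 4, v (e1 m) = y m := by
      intro m
      have h3 : (2 * (m : ℕ) + 1) / 2 = m := by omega
      simp [hv, e1, h3]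
    have n0 : ∀ m k, AA (fun _ => (1 : ℝ)) (e0 m) (e0 k) = 0 := by
      intro m k; unfold AA e0; rw [if_neg]; simp; omega
    have n1 : ∀ m k, AA (fun _ => (1 : ℝ)) (e1 m) (e1 k) = 0 := by
      intro m k; unfold AA e1; rw [if_neg]; simp
    have n2 : ∀ m k, AA (fun _ => (1 : ℝ)) (e1 m) (e0 k) = 0 := by
      intro m k; unfold AA e0 e1; rw [if_neg]; simp
    have n3 : ∀ m k : Fin 4, AA (fun _ => (1 : ℝ)) (e0 m) (e1 k) = if (m : ℕ) = k then 1 else 0 := by
      intro m k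
      by_cases hmk : m = k
      · subst hmk; rw [AA_e, if_pos rfl]
      · have h' : (m : ℕ) ≠ k := fun h => hmk (Fin.ext h)
        rw [if_neg h']; unfold AA e0 e1; rw [if_neg]; simp; omega
    intro p q
    rcases cases8 p with ⟨m, rfl⟩ | ⟨m, rfl⟩ <;> rcases cases8 q with ⟨k, rfl⟩ | ⟨k, rfl⟩
    · rw [r0, r0, n0, n0, ← bil_apply, (hxy m m.2 k k.2).1]; simp
    · rw [r0, r1, n3, n2, ← bil_apply, (hxy m m.2 k k.2).2.2]; simp
    · rw [r1, r0, n3, n2, ← bil_apply, bil_anti a (x k) (y m), (hxy k k.2 m m.2).2.2]; simp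
    · rw [r1, r1, n1, n1, ← bil_apply, (hxy m m.2 k k.2).2.1]; simp
  rw [h]; simp

theorem alt_zero (B : Module.Basis (Fin 8) ℝ E) (f : E [⋀^Fin 8]→ₗ[ℝ] ℝ) (h : f B = 0) (v : Fin 8 → E) :
    f v = 0 := by
  rw [(AlternatingMap.map_basis_eq_zero_iff B f).1 h]
  exact AlternatingMap.zero_apply _

theorem nondeg2 (B : Module.Basis (Fin 8) ℝ E) (a : AltE E 2) (hnd : ∀ u, (∀ v, a ![u, v] = 0) → u = 0) :
    pow4 a B ≠ 0 := by
  have h8 : Module.finrank ℝ E = 8 := by rw [Module.finrank_eq_card_basis B]; simp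
  obtain ⟨v, hv⟩ := std_family a h8 hnd
  intro h0
  have hp : ∀ w : Fin 8 → E, pow4 a w = MultilinearMap.alternatization (mm a a a a) w := by
    intro w; unfold pow4; rw [wedge4_eq]
  rw [hp] at h0
  have h1 := alt_zero B _ h0 v
  rw [← hp, hv] at h1
  norm_num at h1

end nondeg

theorem nondeg' (a : Alt 2) : pow4 a rb ≠ 0 ↔ ∀ u : V, (∀ v, a ![u, v] = 0) → u = 0 := by
  rw [← rbB_eq]
  constructor
  · intro h u hu
    by_contra hne
    exact h (nondeg1 (E := V) rbB a hu hne)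
  · intro h
    exact nondeg2 (E := V) rbB a h

theorem taskPow : TaskPow where
  comp := comp'
  nondeg := nondeg'
  diag := diag'
  symm12 := symm12
  symm23 := symm23
  symm34 := symm34
  add := add'
  smul := smul'
  cont := cont'

end Pool.Agent.TH713.SDL2
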