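import Pool.Agent.TH28.FL.Dat

/-!
# Every Cartan subalgebra of a Killing Lie algebra carries a grading datum
-/

set_option autoImplicit false

universe u v

namespace Pool.Agent.TH713.J1768

open Module LieModule LieAlgebra LieAlgebra.IsKilling Pool.Agent.TH28.FL

section killing

variable {K : Type u} {L : Type v} [Field K] [CharZero K] [LieRing L] [LieAlgebra K L]
  [IsKilling K L] [FiniteDimensional K L]
  {H : LieSubalgebra K L} [H.IsCartanSubalgebra] [IsTriangularizable K H L]

/-- brackets of root spaces -/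
theorem brk {α β : Weight K H L} (hα : α.IsNonZero) (hβ : β.IsNonZero) {n : ℤ} (hn : 0 < n)
    (hv : β (coroot α) = (n : K)) {z : L} (hz : z ∈ rootSpace H β) :
    ∃ x ∈ rootSpace H α, ∃ y ∈ rootSpace H (β - α : H → K), z = ⁅x, y⁆ := by
  obtain ⟨h, e, f, t, he, hf⟩ := exists_isSl2Triple_of_weight_isNonZero hα
  obtain rfl := t.h_eq_coroot hα he hf
  obtain ⟨u, hu, hu0⟩ := (-β).exists_ne_zero
  have h1 : ⁅e, u⁆ ≠ 0 := by
    intro h0
    have P : t.HasPrimitiveVectorWith u (-(n : K)) :=
      ⟨hu0, by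
        have := lie_eq_smul_of_mem_rootSpace hu (coroot α)
        rw [← hv]
        simpa using this, h0⟩
    obtain ⟨m, hm⟩ := P.exists_nat
    have h2 : (n : K) + (m : K) = 0 := by rw [← hm]; ring
    have h3 : n + (m : ℤ) = 0 := by exact_mod_cast h2
    lia
  have h2 : ⁅e, u⁆ ∈ rootSpace H (α + (-β : Weight K H L) : H → K) :=
    lie_mem_genWeightSpace_of_mem_genWeightSpace he hu
  obtain ⟨y, hy, hy0⟩ : ∃ y ∈ rootSpace H (-(α + (-β : Weight K H L) : H → K)),
      killingForm K L ⁅e, u⁆ y ≠ 0 := by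
    by_contra! hcon
    have := mem_ker_killingForm_of_mem_rootSpace_of_forall_rootSpace_neg K L H h2 hcon
    rw [LieAlgebra.IsKilling.ker_killingForm_eq_bot] at this
    exact h1 (by simpa using this)
  have h3 : killingForm K L u ⁅e, y⁆ ≠ 0 := by
    intro h0
    apply hy0
    rw [← lie_skew, map_neg, LinearMap.neg_apply]
    have := LieModule.traceForm_apply_lie_apply K L L u e y
    rw [show killingForm K L ⁅u, e⁆ y = killingForm K L u ⁅e, y⁆ from this, h0, neg_zero]
  have h4 : ⁅e, y⁆ ≠ 0 := by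
    intro h0
    exact h3 (by rw [h0, map_zero])
  have h5 : ⁅e, y⁆ ∈ rootSpace H β := by
    have := lie_mem_genWeightSpace_of_mem_genWeightSpace he hy
    rwa [show (α + -(α + (-β : Weight K H L)) : H → K) = β by simp] at this
  obtain ⟨c, hc⟩ : ∃ c : K, c • ⁅e, y⁆ = z := by
    simpa using (finrank_eq_one_iff_of_nonzero' ⟨⁅e, y⁆, h5⟩ (by simpa using h4)).mp
      (finrank_rootSpace_eq_one _ hβ) ⟨_, hz⟩
  refine ⟨e, he, c • y, ?_, ?_⟩
  · have := (rootSpace H (-(α + (-β : Weight K H L) : H → K))).smul_mem c hy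
    rwa [show (-(α + (-β : Weight K H L)) : H → K) = β - α by
      simp [sub_eq_add_neg, add_comm]] at this
  · rw [lie_smul, hc]

end killing

/-- a family below an independent one with the same supremum is equal to it -/
theorem eq_of_le_indep {ι α : Type*} [CompleteLattice α] [IsModularLattice α] {A B : ι → α}
    (h : ∀ i, A i ≤ B i) (hB : iSupIndep B) (hA : ⨆ i, A i = ⊤) (j : ι) : A j = B j := by
  refine le_antisymm (h j) ?_
  have h1 : A j ⊔ ⨆ (i) (_ : i ≠ j), A i = ⊤ := by rw [← iSup_split_single A j, hA]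
  calc B j = (A j ⊔ ⨆ (i) (_ : i ≠ j), A i) ⊓ B j := by rw [h1, top_inf_eq]
    _ = A j ⊔ (⨆ (i) (_ : i ≠ j), A i) ⊓ B j := sup_inf_assoc_of_le _ (h j)
    _ ≤ A j ⊔ (⨆ (i) (_ : i ≠ j), B i) ⊓ B j :=
        sup_le_sup_left (inf_le_inf_right _ (iSup₂_mono fun i _ => h i)) _
    _ = A j := by rw [inf_comm, (hB j).eq_bot, sup_bot_eq]

theorem exists_t {ι : Type*} [Fintype ι] (S : Finset (ι → ℤ)) (hS : (0 : ι → ℤ) ∉ S) :
    ∃ t : ι → ℤ, (∀ i, 0 ≤ t i) ∧ ∀ m ∈ S, ∑ i, m i * t i ≠ 0 := by
  classical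
  let e : ι ≃ Fin (Fintype.card ι) := Fintype.equivFin ι
  let P : (ι → ℤ) → Polynomial ℤ := fun m => ∑ i, Polynomial.C (m i) * Polynomial.X ^ (e i : ℕ)
  have hP : ∀ m ∈ S, P m ≠ 0 := by
    intro m hm h0
    apply hS
    have : m = 0 := by
      funext i
      have h1 : (P m).coeff (e i : ℕ) = 0 := by rw [h0, Polynomial.coeff_zero]
      simp only [P, Polynomial.finset_sum_coeff, Polynomial.coeff_C_mul,
        Polynomial.coeff_X_pow] at h1
      rw [Finset.sum_eq_single i] at h1
      · simpa using h1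
      · intro b _ hb
        rw [if_neg, mul_zero]
        intro h2
        exact hb (e.injective (Fin.ext h2)).symm
      · intro h; exact absurd (Finset.mem_univ i) h
    rwa [← this]
  have hQ : ∏ m ∈ S, P m ≠ 0 := Finset.prod_ne_zero_iff.mpr hP
  obtain ⟨N, hN⟩ : ∃ N : ℕ, ¬ (∏ m ∈ S, P m).IsRoot (N : ℤ) := by
    by_contra! hcon
    exact hQ (Polynomial.eq_zero_of_infinite_isRoot _
      (Set.infinite_of_injective_forall_mem (f := fun n : ℕ => (n : ℤ)) Nat.cast_injective hcon))
  refine ⟨fun i => (N : ℤ) ^ (e i : ℕ), fun i => by positivity, fun m hm h0 => hN ?_⟩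
  rw [Polynomial.IsRoot, Polynomial.eval_prod]
  refine Finset.prod_eq_zero hm ?_
  simp only [P, Polynomial.eval_finset_sum, Polynomial.eval_mul, Polynomial.eval_C,
    Polynomial.eval_pow, Polynomial.eval_X]
  exact h0

/-- integers `c i` in `[M, 2 M)` for which finitely many nonzero integral combinations do not
vanish -/
theorem exists_c {ι : Type*} [Fintype ι] (S : Finset (ι → ℤ)) (hS : (0 : ι → ℤ) ∉ S) :
    ∃ (M : ℤ) (c : ι → ℤ), 0 < M ∧ (∀ i, M ≤ c i ∧ c i < 2 * M) ∧
      ∀ m ∈ S, ∑ i, m i * c i ≠ 0 := by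
  obtain ⟨t, ht, hS'⟩ := exists_t S hS
  obtain ⟨M, hM⟩ : ∃ M : ℤ, M = 1 + ∑ i, t i + ∑ m ∈ S, |∑ i, m i * t i| := ⟨_, rfl⟩
  have h1 : 0 ≤ ∑ i, t i := Finset.sum_nonneg fun i _ => ht i
  have h2 : 0 ≤ ∑ m ∈ S, |∑ i, m i * t i| := Finset.sum_nonneg fun i _ => abs_nonneg _
  refine ⟨M, fun i => M + t i, by lia, fun i => ⟨by have := ht i; lia, ?_⟩, ?_⟩
  · have : t i ≤ ∑ i, t i := Finset.single_le_sum (fun i _ => ht i) (Finset.mem_univ i)
    lia
  · intro m hm h0
    have h3 : |∑ i, m i * t i| ≤ ∑ m ∈ S, |∑ i, m i * t i| :=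
      Finset.single_le_sum (f := fun m : ι → ℤ => |∑ i, m i * t i|)
        (fun i _ => abs_nonneg _) hm
    have h4 : ∑ i, m i * (M + t i) = M * (∑ i, m i) + ∑ i, m i * t i := by
      rw [Finset.mul_sum, ← Finset.sum_add_distrib]
      exact Finset.sum_congr rfl fun i _ => by ring
    rw [h4] at h0
    have h5 := hS' m hm
    have h6 : ∑ i, m i ≠ 0 := by
      intro h7
      rw [h7, mul_zero, zero_add] at h0
      exact h5 h0
    have h7 : 1 ≤ |∑ i, m i| := Int.one_le_abs h6
    have h8 : |∑ i, m i * t i| = M * |∑ i, m i| := by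
      have : ∑ i, m i * t i = -(M * ∑ i, m i) := by lia
      rw [this, abs_neg, abs_mul, abs_of_nonneg (show 0 ≤ M by lia)]
    have h9 : M * 1 ≤ M * |∑ i, m i| := mul_le_mul_of_nonneg_left h7 (by lia)
    lia

section killing2

variable {K : Type u} {L : Type v} [Field K] [CharZero K] [LieRing L] [LieAlgebra K L]
  [IsKilling K L] [FiniteDimensional K L]
  {H : LieSubalgebra K L} [H.IsCartanSubalgebra] [IsTriangularizable K H L]

theorem pos_case (b : (rootSystem H).Base) (i : H.root) (f : H.root → ℤ)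
    (hf : f.support ⊆ b.support) (h0 : 0 < f)
    (hr : (rootSystem H).root i = ∑ j ∈ b.support, f j • (rootSystem H).root j) :
    ∃ j ∈ b.support, ∃ n : ℤ, 0 < n ∧ (i : Weight K H L) (coroot (j : Weight K H L)) = (n : K) := by
  have hp : b.IsPos i := by
    rw [RootPairing.Base.isPos_iff, RootPairing.Base.height_eq_sum hr]
    refine Finset.sum_pos' (fun i _ => h0.le i) ?_
    by_contra! hcon
    apply h0.ne
    funext j
    by_cases hj : j ∈ f.support
    · exact le_antisymm (h0.le j) (hcon j (hf hj))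
    · simpa using (show f j = 0 by simpa using hj).symm
  obtain ⟨j, hj, hj0⟩ := hp.exists_mem_support_pos_pairingIn
  refine ⟨j, hj, (rootSystem H).pairingIn ℤ i j, ?_, ?_⟩
  · exact ((rootSystem H).zero_lt_pairingIn_iff' ℤ).mp hj0
  · have := (rootSystem H).algebraMap_pairingIn ℤ i j
    rw [rootSystem_pairing_apply] at this
    rw [← this]; rfl

end killing2

theorem exists_w (K : Type u) {L : Type v} [Field K] [CharZero K] [LieRing L] [LieAlgebra K L]
    [IsKilling K L] [FiniteDimensional K L]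
    (H : LieSubalgebra K L) [H.IsCartanSubalgebra] [IsTriangularizable K H L] :
    ∃ (M : ℤ) (w : H) (v : Weight K H L → ℤ), 0 < M ∧ (∀ χ : Weight K H L, χ w = (v χ : K)) ∧
      (∀ χ : Weight K H L, χ.IsNonZero → M ≤ |v χ|) ∧
      (∀ χ χ' : Weight K H L, χ.IsNonZero → χ'.IsNonZero → v χ = v χ' → χ = χ') ∧
      (∀ β : Weight K H L, β.IsNonZero → ∃ α : Weight K H L, α.IsNonZero ∧ M ≤ |v α| ∧
        |v α| < 2 * M ∧ 0 < v α * v β ∧ ∃ n : ℤ, 0 < n ∧ β (coroot α) = (n : K)) := by
  classical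
  obtain ⟨b⟩ := (rootSystem H).nonempty_base
  choose F hF1 hF2 hF3 using fun i => b.exists_root_eq_sum_int i
  obtain ⟨M, c, hM, hc, hS⟩ := exists_c
    (((Finset.univ : Finset (H.root × H.root)).image fun p => F p.1 - F p.2).erase 0)
    (Finset.notMem_erase _ _)
  obtain ⟨w, hw⟩ : ∃ w : H, ∀ f : Dual K H, f w =
      b.toWeightBasis.constr K (fun i : b.support => (c i : K)) f :=
    ⟨(evalEquiv K H).symm (b.toWeightBasis.constr K (fun i : b.support => (c i : K))), fun f => by
      rw [← Dual.eval_apply K H, ← evalEquiv_toLinearMap, LinearEquiv.coe_coe,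
        LinearEquiv.apply_symm_apply]⟩
  -- the value of a simple root
  have hsim : ∀ j ∈ b.support, (rootSystem H).root j w = (c j : K) := by
    intro j hj
    rw [hw, ← b.toWeightBasis_apply ⟨j, hj⟩, Basis.constr_basis]
  -- the value of a root
  have hval : ∀ (i : H.root) (f : H.root → ℤ), (f.support : Set H.root) ⊆ b.support →
      (rootSystem H).root i = ∑ j ∈ b.support, f j • (rootSystem H).root j →
      (rootSystem H).root i w = ((∑ j, f j * c j : ℤ) : K) := by
    intro i f hf hr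
    rw [hr, LinearMap.sum_apply, Int.cast_sum]
    rw [← Finset.sum_subset (Finset.subset_univ b.support)]
    · refine Finset.sum_congr rfl fun j hj => ?_
      rw [LinearMap.smul_apply, hsim j hj, Int.cast_mul, zsmul_eq_mul]
    · intro j _ hj
      have : f j = 0 := by
        by_contra h
        exact hj (hf h)
      rw [this]; simp
  obtain ⟨g, hg⟩ : ∃ g : H.root → ℤ, ∀ i, g i = ∑ j, F i j * c j := ⟨_, fun _ => rfl⟩
  have hgw : ∀ i : H.root, (i : Weight K H L) w = (g i : K) := by
    intro i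
    rw [hg]
    exact hval i (F i) (hF1 i) (hF3 i)
  have hgs : ∀ j ∈ b.support, g j = c j := by
    intro j hj
    have h1 := hgw j
    have h2 := hsim j hj
    rw [rootSystem_root_apply] at h2
    exact_mod_cast (show (g j : K) = (c j : K) by rw [← h1, ← h2]; rfl)
  have hpos : ∀ f : H.root → ℤ, 0 < f → M ≤ ∑ j, f j * c j := by
    intro f hf
    obtain ⟨j, hj⟩ : ∃ j, 0 < f j := by
      by_contra! hcon
      exact hf.ne (funext fun j => le_antisymm (hf.le j) (hcon j))
    calc M = 1 * M := by ring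
      _ ≤ f j * c j := by
          have := (hc j).1
          nlinarith [show 1 ≤ f j from hj]
      _ ≤ ∑ j, f j * c j := Finset.single_le_sum (f := fun j => f j * c j)
          (fun j _ => mul_nonneg (hf.le j) (by have := (hc j).1; lia)) (Finset.mem_univ j)
  have hneg : ∀ f : H.root → ℤ, f < 0 → ∑ j, f j * c j ≤ -M := by
    intro f hf
    have := hpos (-f) (by simpa using hf)
    simp only [Pi.neg_apply, neg_mul, Finset.sum_neg_distrib] at this
    lia
  have hinj : ∀ i i', g i = g i' → i = i' := by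
    intro i i' h
    by_contra hne
    have h1 : F i - F i' ≠ 0 := by
      intro h2
      apply hne
      have h3 : F i = F i' := sub_eq_zero.mp h2
      apply (rootSystem H).root.injective
      rw [hF3 i, hF3 i', h3]
    refine hS (F i - F i') ?_ ?_
    · rw [Finset.mem_erase]
      exact ⟨h1, Finset.mem_image.mpr ⟨(i, i'), Finset.mem_univ _, rfl⟩⟩
    · rw [hg, hg] at h
      simp only [Pi.sub_apply, sub_mul, Finset.sum_sub_distrib]
      lia
  have hmem : ∀ χ : Weight K H L, χ.IsNonZero → χ ∈ H.root := by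
    intro χ hχ; simpa using hχ
  have hnz : ∀ i : H.root, (i : Weight K H L).IsNonZero := fun i =>
    LieSubalgebra.isNonZero_coe_root i
  refine ⟨M, w, fun χ => if h : χ.IsNonZero then g ⟨χ, hmem χ h⟩ else 0, hM, ?_, ?_, ?_, ?_⟩
  · intro χ
    by_cases h : χ.IsNonZero
    · simp only [dif_pos h]
      exact hgw ⟨χ, hmem χ h⟩
    · simp only [dif_neg h, Int.cast_zero]
      rw [Weight.IsNonZero, not_not] at h
      rw [h.eq]; rfl
  · intro χ h
    simp only [dif_pos h]
    rw [hg]
    rcases hF2 ⟨χ, hmem χ h⟩ with h1 | h1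
    · exact (hpos _ h1).trans (le_abs_self _)
    · exact (le_neg.mpr (hneg _ h1)).trans (neg_le_abs _)
  · intro χ χ' h h' he
    simp only [dif_pos h, dif_pos h'] at he
    exact congrArg Subtype.val (hinj _ _ he)
  · intro β hβ
    rcases hF2 ⟨β, hmem β hβ⟩ with h1 | h1
    · obtain ⟨j, hj, n, hn, hn'⟩ := pos_case b ⟨β, hmem β hβ⟩ _ (hF1 _) h1 (hF3 _)
      refine ⟨j, hnz j, ?_, ?_, ?_, n, hn, hn'⟩
      · simp only [dif_pos (hnz j)]
        rw [show (⟨(j : Weight K H L), hmem _ (hnz j)⟩ : H.root) = j from rfl, hgs j hj]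
        exact (hc j).1.trans (le_abs_self _)
      · simp only [dif_pos (hnz j)]
        rw [show (⟨(j : Weight K H L), hmem _ (hnz j)⟩ : H.root) = j from rfl, hgs j hj,
          abs_of_pos (hM.trans_le (hc j).1)]
        exact (hc j).2
      · simp only [dif_pos (hnz j), dif_pos hβ]
        rw [show (⟨(j : Weight K H L), hmem _ (hnz j)⟩ : H.root) = j from rfl, hgs j hj, hg]
        exact mul_pos (hM.trans_le (hc j).1) (hM.trans_le (hpos _ h1))
    · have hβ' : (-β).IsNonZero := hβ.neg
      have hr : (rootSystem H).root ⟨-β, hmem _ hβ'⟩ =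
          ∑ j ∈ b.support, (-F ⟨β, hmem β hβ⟩) j • (rootSystem H).root j := by
        simp only [Pi.neg_apply, neg_smul, Finset.sum_neg_distrib]
        rw [← hF3 ⟨β, hmem β hβ⟩]
        rfl
      obtain ⟨j, hj, n, hn, hn'⟩ := pos_case b ⟨-β, hmem _ hβ'⟩ (-F ⟨β, hmem β hβ⟩)
        (by simpa using hF1 ⟨β, hmem β hβ⟩) (by simpa using h1) hr
      have hj' : (-(j : Weight K H L)).IsNonZero := (hnz j).neg
      have hgj : g ⟨-(j : Weight K H L), hmem _ hj'⟩ = - c j := by
        have e1 := hgw ⟨-(j : Weight K H L), hmem _ hj'⟩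
        have e2 := hgw j
        rw [hgs j hj] at e2
        simp only [Weight.coe_neg, Pi.neg_apply] at e1
        rw [e2] at e1
        exact_mod_cast e1.symm
      refine ⟨-(j : Weight K H L), hj', ?_, ?_, ?_, n, hn, ?_⟩
      · simp only [dif_pos hj']
        rw [hgj, abs_neg]
        exact (hc j).1.trans (le_abs_self _)
      · simp only [dif_pos hj']
        rw [hgj, abs_neg, abs_of_pos (hM.trans_le (hc j).1)]
        exact (hc j).2
      · simp only [dif_pos hj', dif_pos hβ]
        rw [hgj, hg]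
        have := hneg _ h1
        exact mul_pos_of_neg_of_neg (by have := (hc j).1; lia) (by lia)
      · rw [coroot_neg, map_neg, ← hn']
        simp

theorem dg_indep {K : Type u} {L : Type v} [Field K] [CharZero K] [LieRing L] [LieAlgebra K L]
    (w : L) : iSupIndep (dg K w) := by
  have h := (Module.End.eigenspaces_iSupIndep (LieAlgebra.ad K L w)).comp
    (f := fun j : ℤ => (j : K)) Int.cast_injective
  have h2 : (fun j : ℤ => (LieAlgebra.ad K L w).eigenspace (j : K)) = dg K w := by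
    funext j
    ext x
    rw [Module.End.mem_eigenspace_iff, mem_dg, LieAlgebra.ad_apply]
  rw [← h2]
  exact h

theorem dat1 : S_DAT1.{u, v} := by
  intro K _ _ _ L _ _ _ _ H _
  obtain ⟨M, w, v, hM, hv, hvM, hinj, hgen⟩ := exists_w K H
  have hle : ∀ χ : Weight K H L, (rootSpace H χ).toSubmodule ≤ dg K (w : L) (v χ) := by
    intro χ x hx
    rw [mem_dg, ← hv χ]
    exact lie_eq_smul_of_mem_rootSpace (by simpa using hx) w
  obtain ⟨V, hVdef⟩ : ∃ V : ℤ → Submodule K L, ∀ j, V j =
      ⨆ (χ : Weight K H L) (_ : v χ = j), (rootSpace H χ).toSubmodule := ⟨_, fun _ => rfl⟩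
  have hV : ∀ j, V j = dg K (w : L) j := by
    refine eq_of_le_indep ?_ (dg_indep (w : L)) ?_
    · intro j
      rw [hVdef]
      refine iSup₂_le fun χ hχ => ?_
      rw [← hχ]
      exact hle χ
    · rw [eq_top_iff]
      have h := iSup_genWeightSpace_eq_top' K H L
      have h2 : (⊤ : Submodule K L) = ⨆ χ : Weight K H L, (rootSpace H χ).toSubmodule := by
        rw [← LieSubmodule.iSup_toSubmodule, h, LieSubmodule.top_toSubmodule]
      rw [h2]
      refine iSup_le fun χ => ?_
      refine le_trans ?_ (le_iSup V (v χ))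
      rw [hVdef]
      exact le_iSup₂_of_le χ rfl le_rfl
  have hH : dg K (w : L) 0 = H.toSubmodule := by
    apply le_antisymm
    · rw [← hV, hVdef]
      refine iSup₂_le fun χ hχ => ?_
      have hz : χ.IsZero := by
        by_contra h
        have := hvM χ h
        rw [hχ, abs_zero] at this
        lia
      rw [hz.eq, rootSpace_zero_eq]
      exact le_of_eq rfl
    · intro x hx
      rw [mem_dg, Int.cast_zero, zero_smul]
      have := LieModule.IsTrivial.trivial w (⟨x, hx⟩ : H)
      exact congrArg Subtype.val this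
  -- the other pieces
  have hpc : ∀ j : ℤ, j ≠ 0 → dg K (w : L) j = ⊥ ∨
      ∃ χ : Weight K H L, χ.IsNonZero ∧ v χ = j ∧ dg K (w : L) j = (rootSpace H χ).toSubmodule := by
    intro j hj
    have hnz : ∀ χ : Weight K H L, v χ = j → χ.IsNonZero := by
      intro χ hχ h0
      apply hj
      have h1 := hv χ
      rw [h0.eq, hχ] at h1
      have h2 : (j : K) = 0 := by rw [← h1]; rfl
      exact_mod_cast h2
    by_cases h : ∃ χ : Weight K H L, v χ = j
    · obtain ⟨χ, hχ⟩ := h
      refine Or.inr ⟨χ, hnz χ hχ, hχ, ?_⟩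
      rw [← hV, hVdef]
      refine le_antisymm (iSup₂_le fun χ' hχ' => ?_) (le_iSup₂_of_le χ hχ le_rfl)
      rw [hinj χ' χ (hnz _ hχ') (hnz _ hχ) (hχ'.trans hχ.symm)]
    · refine Or.inl ?_
      rw [← hV, hVdef, eq_bot_iff]
      refine iSup₂_le fun χ hχ => absurd ⟨χ, hχ⟩ h
  refine ⟨w, M, ⟨hM, ?_, ?_, ?_, ?_, ?_⟩, hH⟩
  · rw [eq_top_iff]
    have h := iSup_genWeightSpace_eq_top' K H L
    have h2 : (⊤ : Submodule K L) = ⨆ χ : Weight K H L, (rootSpace H χ).toSubmodule := by
      rw [← LieSubmodule.iSup_toSubmodule, h, LieSubmodule.top_toSubmodule]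
    rw [h2]
    exact iSup_le fun χ => (hle χ).trans (le_iSup (dg K (w : L)) (v χ))
  · intro j hj hjM
    rcases hpc j hj with h | ⟨χ, hχ, hvχ, -⟩
    · exact h
    · have := hvM χ hχ
      rw [hvχ] at this
      lia
  · intro j hj
    rcases hpc j hj with h | ⟨χ, hχ, -, h⟩
    · rw [h, finrank_bot]; exact Nat.zero_le _
    · rw [h]
      exact (finrank_rootSpace_eq_one χ hχ).le
  · intro x hx y hy
    rw [hH] at hx hy
    have := LieModule.IsTrivial.trivial (⟨x, hx⟩ : H) (⟨y, hy⟩ : H)
    exact congrArg Subtype.val this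
  · intro j hj z hz
    have hj0 : j ≠ 0 := by
      rintro rfl
      rw [abs_zero] at hj; lia
    rcases hpc j hj0 with h | ⟨β, hβ, hvβ, h⟩
    · rw [h, Submodule.mem_bot] at hz
      rw [hz]
      exact Submodule.zero_mem _
    · obtain ⟨α, hα, h1, h2, h3, n, hn, hn'⟩ := hgen β hβ
      have hz' : z ∈ rootSpace H β := by rw [h] at hz; exact hz
      obtain ⟨x, hx, y, hy, rfl⟩ := brk hα hβ hn hn' hz'
      refine Submodule.subset_span ⟨v α, h1, h2, by rw [← hvβ]; exact h3, x, hle α hx, y, ?_, rfl⟩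
      rw [mem_dg, ← LieSubalgebra.coe_bracket_of_module, lie_eq_smul_of_mem_rootSpace hy w,
        Pi.sub_apply, hv, hv, hvβ, Int.cast_sub]

end Pool.Agent.TH713.J1768
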