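import Pool.Agent.TH28.FL.DatK

/-!
# Specialisation at `t = 0` and linear independence
-/

set_option autoImplicit false

universe u

namespace Pool.Agent.TH713.J1843

open Pool.Agent.TH28.FL

theorem spc : S_SPC.{u} := by
  classical
  intro K K₁ _ _ _ t ht ι _ d P hP
  -- a right inverse of the matrix of values
  obtain ⟨V, hV⟩ : ∃ V : Matrix ι (Fin d) K, V = Matrix.of fun i j => (P i j).eval 0 := ⟨_, rfl⟩
  have hinj : Function.Injective V.vecMul := by
    rw [Matrix.vecMul_injective_iff, hV]
    exact hP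
  obtain ⟨g, hg⟩ : ∃ g : (Fin d → K) →ₗ[K] (ι → K), g ∘ₗ V.vecMulLinear = LinearMap.id :=
    LinearMap.exists_leftInverse_of_injective V.vecMulLinear (LinearMap.ker_eq_bot.mpr hinj)
  obtain ⟨Q, hQ⟩ : ∃ Q : Matrix (Fin d) ι K, V * Q = 1 := by
    refine ⟨Matrix.of fun j i => g (Pi.single j 1) i, ?_⟩
    ext i i'
    have h1 := congrArg (fun l => l (Pi.single i 1) i') hg
    simp only [LinearMap.comp_apply, Matrix.vecMulLinear_apply, LinearMap.id_apply,
      Matrix.single_one_vecMul] at h1
    have h2 : V.row i = ∑ j, V i j • (Pi.single j 1 : Fin d → K) := by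
      ext j
      simp [Finset.sum_apply, Pi.single_apply]
    rw [h2, map_sum] at h1
    simp only [map_smul, Finset.sum_apply, Pi.smul_apply, smul_eq_mul] at h1
    rw [Matrix.mul_apply, Matrix.one_apply]
    refine h1.trans ?_
    rw [Pi.single_apply]
    by_cases h : i = i'
    · rw [if_pos h, if_pos h.symm]
    · rw [if_neg h, if_neg (fun h' => h h'.symm)]
  obtain ⟨D, hD⟩ : ∃ D : Matrix ι ι (Polynomial K),
      D = (Matrix.of P) * Q.map Polynomial.C := ⟨_, rfl⟩
  have hDe : (D.det).eval 0 = 1 := by
    rw [← Polynomial.coe_evalRingHom, RingHom.map_det, RingHom.mapMatrix_apply, hD, Matrix.map_mul,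
      Matrix.map_map]
    rw [show ((Matrix.of P).map (Polynomial.evalRingHom (0 : K))) = V by
      rw [hV]; rfl]
    rw [show (Q.map (⇑(Polynomial.evalRingHom (0 : K)) ∘ ⇑Polynomial.C)) = Q by
      ext i j; simp]
    rw [hQ, Matrix.det_one]
  have hD0 : Polynomial.aeval t D.det ≠ 0 := by
    intro h
    have h1 := transcendental_iff.mp ht _ h
    rw [h1, Polynomial.eval_zero] at hDe
    exact zero_ne_one hDe
  have hDt : Polynomial.aeval t D.det =
      ((Matrix.of fun i j => Polynomial.aeval t (P i j)) * Q.map (algebraMap K K₁)).det := by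
    have h1 : Polynomial.aeval t D.det = (Polynomial.aeval t).toRingHom D.det := rfl
    rw [h1, RingHom.map_det, RingHom.mapMatrix_apply, hD, Matrix.map_mul, Matrix.map_map]
    congr 2
    ext i j
    simp
  rw [hDt] at hD0
  have hinj' : Function.Injective
      (Matrix.of fun i j => Polynomial.aeval t (P i j) : Matrix ι (Fin d) K₁).vecMul := by
    intro a b hab
    have h1 : Function.Injective ((Matrix.of fun i j => Polynomial.aeval t (P i j) :
        Matrix ι (Fin d) K₁) * Q.map (algebraMap K K₁)).vecMul :=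
      Matrix.vecMul_injective_of_isUnit ((Matrix.isUnit_iff_isUnit_det _).mpr (Ne.isUnit hD0))
    apply h1
    simp only at hab ⊢
    rw [← Matrix.vecMul_vecMul, ← Matrix.vecMul_vecMul, hab]
  exact Matrix.vecMul_injective_iff.mp hinj'

end Pool.Agent.TH713.J1843
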