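import Pool.Agent.TH28.FL.DatB
import Pool.Agent.TH611.FL.Expo

/-!
# The subalgebra generated by `bb w` and the line of a negative simple root
-/

set_option autoImplicit false

universe u v

namespace Pool.Agent.TH713.Step

open Module Pool.Agent.TH28.FL

variable {K : Type u} {L : Type v} [Field K] [LieRing L] [LieAlgebra K L]

/-- the sum of `bb w` and the line of `f` -/
def PP (K : Type u) {L : Type v} [Field K] [LieRing L] [LieAlgebra K L] (w f : L) :
    Submodule K L := bb K w ⊔ Submodule.span K {f}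

theorem mem_PP {w f v : L} : v ∈ PP K w f ↔ ∃ b ∈ bb K w, ∃ a : K, v = b + a • f := by
  unfold PP
  rw [Submodule.mem_sup]
  constructor
  · rintro ⟨b, hb, z, hz, rfl⟩
    obtain ⟨a, rfl⟩ := Submodule.mem_span_singleton.mp hz
    exact ⟨b, hb, a, rfl⟩
  · rintro ⟨b, hb, a, rfl⟩
    exact ⟨b, hb, a • f, Submodule.mem_span_singleton.mpr ⟨a, rfl⟩, rfl⟩

theorem bb_le_PP (w f : L) : bb K w ≤ PP K w f := le_sup_left

theorem f_mem_PP (w f : L) : f ∈ PP K w f :=
  (le_sup_right : _ ≤ bb K w ⊔ Submodule.span K {f}) (Submodule.mem_span_singleton_self f)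

section

variable [FiniteDimensional K L] {w : L} {M c : ℤ} (h : Dat K w M) (hc : M ≤ c) (hc2 : c < 2 * M)
  {f : L} (hf : f ∈ dg K w (-c)) (hf0 : f ≠ 0)
include h hc hf hf0

theorem dg_eq_span : dg K w (-c) = Submodule.span K {f} := by
  apply le_antisymm
  · intro x hx
    have hc0 : -c ≠ 0 := by have := h.pos; omega
    obtain ⟨a, ha⟩ := Pool.Agent.TH611.FL.line_smul (h.one _ hc0) hf hf0 hx
    rw [ha]
    exact Submodule.smul_mem _ _ (Submodule.mem_span_singleton_self f)
  · rw [Submodule.span_singleton_le_iff_mem]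
    exact hf

include hc2

theorem fB {x : L} (hx : x ∈ bb K w) : ⁅f, x⁆ ∈ PP K w f := by
  have hle : bb K w ≤ (PP K w f).comap (LieAlgebra.ad K L f) := by
    rw [bb_le_iff]
    intro j hj x hx
    rw [Submodule.mem_comap, LieAlgebra.ad_apply]
    have h1 : ⁅f, x⁆ ∈ dg K w (-c + j) := lie_dg hf hx
    rcases le_or_gt c j with h2 | h2
    · exact bb_le_PP w f (le_bb w (by omega) h1)
    · rcases hj.eq_or_lt with h3 | h3
      · rw [← h3, add_zero, dg_eq_span h hc hf hf0] at h1
        exact (le_sup_right : _ ≤ bb K w ⊔ Submodule.span K {f}) h1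
      · rcases lt_or_ge j M with h4 | h4
        · have h5 := h.gap j h3.ne' (by rw [abs_of_pos h3]; exact h4)
          rw [h5, Submodule.mem_bot] at hx
          rw [hx, lie_zero]
          exact zero_mem _
        · have h5 := h.gap (-c + j) (by omega) (by rw [abs_of_neg (by omega)]; omega)
          rw [h5, Submodule.mem_bot] at h1
          rw [h1]
          exact zero_mem _
  exact hle hx

theorem fP {x : L} (hx : x ∈ PP K w f) : ⁅f, x⁆ ∈ PP K w f := by
  obtain ⟨b, hb, a, rfl⟩ := mem_PP.mp hx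
  rw [lie_add, lie_smul, lie_self, smul_zero, add_zero]
  exact fB h hc hc2 hf hf0 hb

theorem PP_lie {x y : L} (hx : x ∈ PP K w f) (hy : y ∈ PP K w f) : ⁅x, y⁆ ∈ PP K w f := by
  obtain ⟨b, hb, a, rfl⟩ := mem_PP.mp hx
  rw [add_lie, smul_lie]
  refine add_mem ?_ (Submodule.smul_mem _ _ (fP h hc hc2 hf hf0 hy))
  obtain ⟨b', hb', a', rfl⟩ := mem_PP.mp hy
  rw [lie_add, lie_smul, ← lie_skew b f]
  refine add_mem (bb_le_PP w f (lie_bb_bb hb hb')) (Submodule.smul_mem _ _ (neg_mem ?_))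
  exact fB h hc hc2 hf hf0 hb

omit hc2

theorem f3 {x : L} (hx : x ∈ dg K w c) : ⁅f, ⁅f, ⁅f, x⁆⁆⁆ = 0 := by
  have h1 : ⁅f, x⁆ ∈ dg K w (-c + c) := lie_dg hf hx
  have h2 : ⁅f, ⁅f, x⁆⁆ ∈ dg K w (-c + (-c + c)) := lie_dg hf h1
  rw [neg_add_cancel, add_zero, dg_eq_span h hc hf hf0] at h2
  obtain ⟨a, ha⟩ := Submodule.mem_span_singleton.mp h2
  rw [← ha, lie_smul, lie_self, smul_zero]

theorem mem_bb_of_PP [CharZero K] [LieAlgebra.IsKilling K L] {p : L} (hp : p ∈ PP K w f)
    (hk : ∀ x ∈ dg K w c, killingForm K L p x = 0) : p ∈ bb K w := by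
  obtain ⟨b, hb, a, rfl⟩ := mem_PP.mp hp
  have hpos := h.pos
  have h1 : a • f = 0 := by
    refine kf_dg_nondeg h.top (i := -c) (Submodule.smul_mem _ _ hf) ?_
    intro y hy
    rw [neg_neg] at hy
    have h2 := hk y hy
    rw [map_add, LinearMap.add_apply, kf_bb_nn hb (le_nn w (by omega) hy), zero_add] at h2
    exact h2
  rw [h1, add_zero]
  exact hb

include hc2

theorem rad [CharZero K] [LieAlgebra.IsKilling K L] {v : L} (hv : v ∈ bb K w)
    (hv1 : ⁅f, v⁆ ∈ bb K w) (hv2 : ⁅f, ⁅f, v⁆⁆ ∈ bb K w) (m : ℕ) :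
    ((LieAlgebra.ad K L f) ^ m) v ∈ bb K w := by
  have hP : ∀ n : ℕ, ((LieAlgebra.ad K L f) ^ n) v ∈ PP K w f := by
    intro n
    induction n with
    | zero => simpa using bb_le_PP w f hv
    | succ n ih =>
      rw [pow_succ', Module.End.mul_apply, LieAlgebra.ad_apply]
      exact fP h hc hc2 hf hf0 ih
  rcases m with _ | _ | _ | n
  · simpa using hv
  · simpa using hv1
  · simpa [pow_succ] using hv2
  · refine mem_bb_of_PP h hc hf hf0 (hP _) ?_
    intro x hx
    rw [show n + 1 + 1 + 1 = 3 + n by omega, pow_add, Module.End.mul_apply]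
    set u := ((LieAlgebra.ad K L f) ^ n) v with hu
    have h1 : ((LieAlgebra.ad K L f) ^ 3) u = ⁅f, ⁅f, ⁅f, u⁆⁆⁆ := by
      simp [pow_succ]
    rw [h1, kf_lie', kf_lie', kf_lie', f3 h hc hf hf0 hx, map_zero, neg_zero, neg_zero, neg_zero]

end

/-- the largest subspace of `bb w` stable under `ad f` -/
def NN (K : Type u) {L : Type v} [Field K] [LieRing L] [LieAlgebra K L] (w f : L) :
    Submodule K L where
  carrier := {v | ∀ m : ℕ, ((LieAlgebra.ad K L f) ^ m) v ∈ bb K w}
  add_mem' := by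
    intro x y hx hy m
    rw [map_add]; exact add_mem (hx m) (hy m)
  zero_mem' := by intro m; rw [map_zero]; exact zero_mem _
  smul_mem' := by
    intro a x hx m
    rw [map_smul]; exact Submodule.smul_mem _ _ (hx m)

theorem NN_le (w f : L) : NN K w f ≤ bb K w := by
  intro x hx
  simpa using hx 0

theorem NN_lie {w f x : L} (hx : x ∈ NN K w f) : ⁅f, x⁆ ∈ NN K w f := by
  intro m
  have := hx (m + 1)
  rwa [pow_succ, Module.End.mul_apply, LieAlgebra.ad_apply] at this

end Pool.Agent.TH713.Step
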