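import Pool.Agent.TH28.FL.BC
import Pool.Agent.TH713.StepA
import Pool.Agent.TH713.J1843

/-!
# Moving the datum along a simple root
-/

set_option autoImplicit false

universe u v

namespace Pool.Agent.TH713.Step

open Module TensorProduct Pool.Agent.TH28.FL

section spec

variable {k : Type u} [Field k] {s : Type v} [LieRing s] [LieAlgebra k s] [FiniteDimensional k s]
  {K : Type u} [Field K] [Algebra k K]
  {K₁ : Type u} [Field K₁] [Algebra k K₁] [Algebra K K₁] [IsScalarTower k K K₁]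

/-- the elements of `K ⊗ s` that are values at `t = 0` of polynomials with values in `T` -/
def QS (K : Type u) [Field K] [Algebra k K] [Algebra K K₁] [IsScalarTower k K K₁] (t : K₁)
    (T : Submodule K₁ (K₁ ⊗[k] s)) (N : ℕ) : Submodule K (K ⊗[k] s) where
  carrier := {σ | ∃ g : ℕ → K ⊗[k] s, g 0 = σ ∧
    ∑ j ∈ Finset.range N, t ^ j • io k s K K₁ (g j) ∈ T}
  add_mem' := by
    rintro x y ⟨g, rfl, hg⟩ ⟨g', rfl, hg'⟩
    refine ⟨fun j => g j + g' j, rfl, ?_⟩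
    simp only [map_add, smul_add, Finset.sum_add_distrib]
    exact add_mem hg hg'
  zero_mem' := ⟨fun _ => 0, rfl, by simp⟩
  smul_mem' := by
    rintro a x ⟨g, rfl, hg⟩
    refine ⟨fun j => a • g j, rfl, ?_⟩
    simp only [io_smul, smul_comm _ (algebraMap K K₁ a), ← Finset.smul_sum]
    exact Submodule.smul_mem _ _ hg

theorem mem_QS {t : K₁} {T : Submodule K₁ (K₁ ⊗[k] s)} {N : ℕ} {σ : K ⊗[k] s} :
    σ ∈ QS K t T N ↔ ∃ g : ℕ → K ⊗[k] s, g 0 = σ ∧
      ∑ j ∈ Finset.range N, t ^ j • io k s K K₁ (g j) ∈ T := Iff.rfl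

theorem mem_QS_of_io {t : K₁} {T : Submodule K₁ (K₁ ⊗[k] s)} {N : ℕ} {σ : K ⊗[k] s}
    (h : io k s K K₁ σ ∈ T) : σ ∈ QS K t T (N + 1) := by
  refine ⟨fun j => if j = 0 then σ else 0, rfl, ?_⟩
  rw [Finset.sum_eq_single 0]
  · simpa using h
  · intro j _ hj
    simp [hj]
  · intro h0; simp at h0

/-- the dimension does not drop under specialisation -/
theorem finrank_QS (hS : S_SPC.{u}) {t : K₁} (ht : Transcendental K t)
    {T : Submodule K₁ (K₁ ⊗[k] s)} {N : ℕ} {U : Submodule K (K ⊗[k] s)} (hN : 0 < N)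
    (hU : U ≤ QS K t T N) : finrank K U ≤ finrank K₁ T := by
  classical
  obtain ⟨n, hn⟩ : ∃ n, n = finrank K U := ⟨_, rfl⟩
  let b : Basis (Fin n) K U := finBasisOfFinrankEq K U hn.symm
  have hg : ∀ i : Fin n, ∃ g : ℕ → K ⊗[k] s, g 0 = (b i : K ⊗[k] s) ∧
      ∑ j ∈ Finset.range N, t ^ j • io k s K K₁ (g j) ∈ T := fun i => hU (b i).2
  choose g hg0 hgT using hg
  let v := finBasis K (K ⊗[k] s)
  have h1 : LinearIndependent K (fun i => (b i : K ⊗[k] s)) :=
    b.linearIndependent.map' U.subtype (Submodule.ker_subtype U)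
  have h2 : LinearIndependent K (fun (i : Fin n) (j : Fin (finrank K (K ⊗[k] s))) =>
      (∑ m ∈ Finset.range N, Polynomial.C (v.repr (g i m) j) * Polynomial.X ^ m).eval 0) := by
    have h3 : (fun (i : Fin n) (j : Fin (finrank K (K ⊗[k] s))) =>
      (∑ m ∈ Finset.range N, Polynomial.C (v.repr (g i m) j) * Polynomial.X ^ m).eval 0) =
        fun i => v.equivFun (b i : K ⊗[k] s) := by
      funext i j
      rw [Polynomial.eval_finset_sum, Finset.sum_eq_single 0]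
      · rw [← hg0 i]; simp
      · intro m _ hm
        simp [hm]
      · intro h0; exact absurd (Finset.mem_range.mpr hN) h0
    rw [h3]
    exact h1.map' v.equivFun.toLinearMap (LinearEquiv.ker _)
  have h3 := hS K K₁ t ht (Fin n) (finrank K (K ⊗[k] s))
    (fun i j => ∑ m ∈ Finset.range N, Polynomial.C (v.repr (g i m) j) * Polynomial.X ^ m) h2
  have h4 : LinearIndependent K₁ (fun i : Fin n =>
      ∑ j ∈ Finset.range N, t ^ j • io k s K K₁ (g i j)) := by
    have h5 : (fun (i : Fin n) (j : Fin (finrank K (K ⊗[k] s))) => Polynomial.aeval t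
        (∑ m ∈ Finset.range N, Polynomial.C (v.repr (g i m) j) * Polynomial.X ^ m)) =
        (ioB K₁ v).equivFun.toLinearMap ∘ (fun i : Fin n =>
          ∑ j ∈ Finset.range N, t ^ j • io k s K K₁ (g i j)) := by
      funext i j
      simp only [Function.comp_apply, LinearEquiv.coe_coe, Basis.equivFun_apply]
      rw [map_sum, map_sum, Finsupp.finsetSum_apply]
      refine Finset.sum_congr rfl fun m _ => ?_
      rw [map_smul, Finsupp.smul_apply, ioB_repr, map_mul, Polynomial.aeval_C, map_pow,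
        Polynomial.aeval_X, smul_eq_mul, mul_comm]
    rw [h5] at h3
    exact LinearIndependent.of_comp _ h3
  have h5 : LinearIndependent K₁ (fun i : Fin n =>
      (⟨∑ j ∈ Finset.range N, t ^ j • io k s K K₁ (g i j), hgT i⟩ : T)) :=
    LinearIndependent.of_comp T.subtype h4
  have h6 := h5.fintype_card_le_finrank
  rw [Fintype.card_fin] at h6
  omega

end spec

section main

variable {k : Type u} [Field k] {s : Type v} [LieRing s] [LieAlgebra k s]
  [FiniteDimensional k s]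
  {K : Type u} [Field K] [Algebra k K]
  {K₁ : Type u} [Field K₁] [Algebra k K₁] [Algebra K K₁] [IsScalarTower k K K₁]

omit [FiniteDimensional k s] in
/-- `ad (t F)` on the image of `L` -/
theorem ad_pow_io (t : K₁) (f x : K ⊗[k] s) (m : ℕ) :
    ((LieAlgebra.ad K₁ (K₁ ⊗[k] s) (t • io k s K K₁ f)) ^ m) (io k s K K₁ x) =
      t ^ m • io k s K K₁ (((LieAlgebra.ad K (K ⊗[k] s) f) ^ m) x) := by
  induction m with
  | zero => simp
  | succ m ih =>
    rw [pow_succ', Module.End.mul_apply, ih, LieAlgebra.ad_apply, lie_smul, smul_lie, ← io_lie,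
      smul_smul, ← pow_succ, pow_succ' (LieAlgebra.ad K (K ⊗[k] s) f), Module.End.mul_apply,
      LieAlgebra.ad_apply]

omit [FiniteDimensional k s] in
/-- stability under `ad (t F)` of an extension of scalars -/
theorem stab_ioS (t : K₁) {f : K ⊗[k] s} {V : Submodule K (K ⊗[k] s)}
    (hV : ∀ x ∈ V, ⁅f, x⁆ ∈ V) : ∀ x ∈ ioS K K₁ V, ⁅t • io k s K K₁ f, x⁆ ∈ ioS K K₁ V := by
  intro x hx
  unfold ioS at hx
  induction hx using Submodule.span_induction with
  | mem x hx =>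
    obtain ⟨x, hx, rfl⟩ := hx
    rw [smul_lie, ← io_lie]
    exact Submodule.smul_mem _ _ (io_mem_ioS (hV x hx))
  | zero => rw [lie_zero]; exact zero_mem _
  | add y y' _ _ h h' => rw [lie_add]; exact add_mem h h'
  | smul c y _ h => rw [lie_smul]; exact Submodule.smul_mem _ c h

theorem step (hK : S_KT.{u}) (hS : S_SPC.{u}) : S_STEP.{u, v} := by
  intro k _ _ s _ _ _ _ r K _ _ w M h c hc hc2 f hf hfT
  have hcK : CharZero K := charZero_of_injective_algebraMap (algebraMap k K).injective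
  obtain ⟨K₁, _, _, _, _, t, ht, hext, d, hd0, hdt⟩ := hK k K
  have hcK1 : CharZero K₁ := charZero_of_injective_algebraMap (algebraMap k K₁).injective
  have hf0 : f ≠ 0 := by rintro rfl; exact hfT (zero_mem _)
  have hcpos : 0 < c := h.pos.trans_le hc
  obtain ⟨W, hW⟩ : ∃ W, W = io k s K K₁ w := ⟨_, rfl⟩
  obtain ⟨F, hF⟩ : ∃ F, F = io k s K K₁ f := ⟨_, rfl⟩
  have hDW : Dat K₁ W M := by rw [hW]; exact dat_io h
  have hFd : F ∈ dg K₁ W (-c) := by rw [hW, hF, ← ioS_dg]; exact io_mem_ioS hf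
  have hnil : IsNilpotent (LieAlgebra.ad K₁ (K₁ ⊗[k] s) (t • F)) :=
    Pool.Agent.TH611.FL.nilp_dg hDW.top (c := -c) (by omega) (Submodule.smul_mem _ _ hFd)
  obtain ⟨ψ, hψ⟩ := Pool.Agent.TH611.FL.expA_equiv hnil
  have hfw : ⁅f, w⁆ = (c : K) • f := by
    rw [← lie_skew, mem_dg.1 hf, Int.cast_neg, neg_smul, neg_neg]
  obtain ⟨f', hf'⟩ : ∃ f', f' = (c : K) • f := ⟨_, rfl⟩
  have hff' : ⁅f, f'⁆ = 0 := by rw [hf', lie_smul, lie_self, smul_zero]
  have hFW : ⁅F, W⁆ = io k s K K₁ f' := by rw [hF, hW, ← io_lie, hfw, hf']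
  have hFF : ⁅F, io k s K K₁ f'⁆ = 0 := by rw [hF, ← io_lie, hff', map_zero]
  obtain ⟨w₁, hw₁⟩ : ∃ w₁, w₁ = ψ W := ⟨_, rfl⟩
  have hw₁' : w₁ = W + t • io k s K K₁ f' := by
    rw [hw₁, hψ, Pool.Agent.TH611.FL.expA_two hnil, smul_lie, hFW]
    rw [smul_lie, smul_lie, hFW, lie_smul, hFF, smul_zero, smul_zero]
  have hD₁ : Dat K₁ w₁ M := by rw [hw₁]; exact hDW.map ψ
  have hbb : bb K₁ w₁ = (ioS K K₁ (bb K w)).map (ψ : (K₁ ⊗[k] s) →ₗ[K₁] (K₁ ⊗[k] s)) := by
    rw [hw₁, ioS_bb, ← hW, bb_map]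
  -- velocities
  have hFw₁ : ⁅F, w₁⁆ = io k s K K₁ f' := by
    rw [hw₁', lie_add, lie_smul, hFF, smul_zero, add_zero, hFW]
  have hdio : ∀ x, dL s d (io k s K K₁ x) = 0 := by
    intro x
    rw [io_dL (δ := 0) (by intro a; rw [hd0, Derivation.zero_apply, map_zero]), dL_zero_der,
      map_zero]
  have hv1 : dL s d w₁ = ⁅F, w₁⁆ := by
    rw [hFw₁, hw₁', map_add, dL_smul, hW, hdio, hdio, hdt, one_smul, smul_zero, add_zero, zero_add]
  have hf'd : f' ∈ dg K w (-c) := by rw [hf']; exact Submodule.smul_mem _ _ hf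
  have hv2 : ∀ (δ : Derivation k K K) (A : K ⊗[k] s), dL s δ w = ⁅A, w⁆ →
      ∃ (δ₁ : Derivation k K₁ K₁) (μ : K₁), dL s δ₁ w₁ = ⁅io k s K K₁ A + μ • F, w₁⁆ := by
    intro δ A hA
    obtain ⟨δ₁, hδ₁, hδt⟩ := hext δ
    have h1 : dL s δ f' - ⁅A, f'⁆ ∈ dg K w (-c) := vel_dg hA hf'd
    have hf'0 : f' ≠ 0 := by
      rw [hf']
      exact smul_ne_zero (by exact_mod_cast hcpos.ne') hf0
    rw [dg_eq_span h hc hf'd hf'0] at h1
    obtain ⟨μ, hμ⟩ := Submodule.mem_span_singleton.mp h1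
    refine ⟨δ₁, t * algebraMap K K₁ μ, ?_⟩
    have h2 : dL s δ f' = ⁅A, f'⁆ + μ • f' := by rw [hμ]; abel
    rw [add_lie, smul_lie, hFw₁, hw₁', map_add, dL_smul, hW, io_dL hδ₁, io_dL hδ₁, hA, h2, hδt,
      zero_smul, zero_add, map_add, io_lie, io_lie, io_smul, lie_add, lie_smul, smul_add, mul_smul,
      add_assoc]
  refine ⟨K₁, _, _, w₁, hD₁, ?_, ?_⟩
  · -- the dimension of `TT` increases
    have hFT : F ∈ TT r.toSubmodule w₁ := vel_mem_TT hv1
    obtain ⟨N, hN⟩ : ∃ N, N = finrank K₁ (K₁ ⊗[k] s) := ⟨_, rfl⟩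
    have hle : TT r.toSubmodule w ⊔ Submodule.span K {f} ≤
        QS K t (TT r.toSubmodule w₁) (N + 1) := by
      refine sup_le (sup_le (sup_le ?_ ?_) ?_) ?_
      · rw [Submodule.span_le]
        rintro A ⟨δ, hA⟩
        obtain ⟨δ₁, μ, h1⟩ := hv2 δ A hA
        refine mem_QS_of_io ?_
        have h2 := sub_mem (vel_mem_TT (r := r.toSubmodule) h1) (Submodule.smul_mem _ μ hFT)
        rwa [add_sub_cancel_right] at h2
      · intro x hx
        refine mem_QS_of_io (rK_le_TT _ _ ?_)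
        rw [← ioS_rK (K := K)]
        exact io_mem_ioS hx
      · intro x hx
        refine ⟨fun m => ((m.factorial : K)⁻¹) • ((LieAlgebra.ad K (K ⊗[k] s) f) ^ m) x,
          by simp, ?_⟩
        have h1 : ψ (io k s K K₁ x) ∈ bb K₁ w₁ := by
          rw [hbb]
          exact Submodule.mem_map_of_mem (io_mem_ioS hx)
        have h2 : ψ (io k s K K₁ x) = ∑ j ∈ Finset.range (N + 1), t ^ j • io k s K K₁
            (((j.factorial : K)⁻¹) • ((LieAlgebra.ad K (K ⊗[k] s) f) ^ j) x) := by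
          rw [hψ]
          unfold expA
          rw [LinearMap.sum_apply, hN]
          refine Finset.sum_congr rfl fun j _ => ?_
          rw [LinearMap.smul_apply, hF, ad_pow_io, io_smul, smul_comm]
          congr 2
          rw [map_inv₀, map_natCast]
        rw [← h2]
        exact bb_le_TT _ _ h1
      · rw [Submodule.span_singleton_le_iff_mem]
        refine mem_QS_of_io ?_
        rw [← hF]; exact hFT
    refine lt_of_lt_of_le ?_ (finrank_QS hS ht (Nat.succ_pos N) hle)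
    apply Submodule.finrank_lt_finrank_of_lt
    rw [lt_iff_le_and_ne]
    refine ⟨le_sup_left, fun h1 => hfT ?_⟩
    rw [h1]
    exact (le_sup_right : _ ≤ TT r.toSubmodule w ⊔ Submodule.span K {f})
      (Submodule.mem_span_singleton_self f)
  · -- `CC` for the new datum implies `CC` for the old one
    intro hCC δ A hA
    have hPst : ∀ x ∈ PP K w f, ⁅f, x⁆ ∈ PP K w f := fun x hx => fP h hc hc2 hf hf0 hx
    have hψP : ∀ x ∈ ioS K K₁ (PP K w f), ψ x ∈ ioS K K₁ (PP K w f) := by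
      intro x hx
      rw [hψ]
      exact Pool.Agent.TH611.FL.expA_mem (by rw [hF]; exact stab_ioS t hPst) x hx
    have hbbP : bb K₁ w₁ ≤ ioS K K₁ (PP K w f) := by
      rw [hbb]
      rintro _ ⟨x, hx, rfl⟩
      exact hψP x (ioS_mono (bb_le_PP w f) hx)
    have hcc1 := hCC d F hv1
    obtain ⟨δ₁, μ, hA₁⟩ := hv2 δ A hA
    have hcc2 := hCC δ₁ _ hA₁
    have hioA : io k s K K₁ A ∈ rK K₁ r.toSubmodule ⊔ bb K₁ w₁ := by
      have h1 := sub_mem hcc2 (Submodule.smul_mem _ μ hcc1)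
      rwa [add_sub_cancel_right] at h1
    have hAP : A ∈ rK K r.toSubmodule ⊔ PP K w f := by
      rw [← io_mem_ioS_iff (K₁ := K₁), ioS_sup, ioS_rK]
      exact sup_le_sup_left hbbP _ hioA
    obtain ⟨ρ, hρ, p, hp, hAeq⟩ := Submodule.mem_sup.1 hAP
    obtain ⟨β, hβ, γ, rfl⟩ := mem_PP.1 hp
    by_cases hγ : γ = 0
    · rw [← hAeq, hγ, zero_smul, add_zero]
      exact Submodule.add_mem_sup hρ hβ
    exfalso
    have hfRB : f ∉ rK K r.toSubmodule ⊔ bb K w := fun h' =>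
      hfT ((sup_le (rK_le_TT _ _) (bb_le_TT _ _) : rK K r.toSubmodule ⊔ bb K w ≤ _) h')
    obtain ⟨Q, hQ⟩ : ∃ Q, Q = rK K r.toSubmodule ⊓ PP K w f := ⟨_, rfl⟩
    have hQB : ∀ v ∈ Q, v ∈ bb K w := by
      intro v hv
      rw [hQ] at hv
      obtain ⟨hv1, hv2⟩ := hv
      obtain ⟨b, hb, a, hab⟩ := mem_PP.1 hv2
      by_cases ha : a = 0
      · rw [hab, ha, zero_smul, add_zero]; exact hb
      · exfalso
        apply hfRB
        have h1 : f = a⁻¹ • (v - b) := by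
          rw [hab, add_sub_cancel_left, smul_smul, inv_mul_cancel₀ ha, one_smul]
        rw [h1]
        exact Submodule.smul_mem _ _ (sub_mem (Submodule.mem_sup_left hv1)
          (Submodule.mem_sup_right hb))
    have hD'Q : ∀ v ∈ Q, dL s δ v - ⁅ρ, v⁆ ∈ Q := by
      intro v hv
      rw [hQ] at hv ⊢
      obtain ⟨h1, h2⟩ := hv
      refine ⟨sub_mem (dL_rK δ h1) (rK_lie r hρ h1), ?_⟩
      have h3 : dL s δ v - ⁅ρ, v⁆ = (dL s δ v - ⁅A, v⁆) + ⁅β + γ • f, v⁆ := by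
        rw [← hAeq, add_lie ρ]; abel
      rw [h3]
      refine add_mem ?_ (PP_lie h hc hc2 hf hf0 hp h2)
      obtain ⟨b, hb, a, rfl⟩ := mem_PP.1 h2
      have h4 : dL s δ (b + a • f) - ⁅A, b + a • f⁆ =
          (dL s δ b - ⁅A, b⁆) + (dL s δ (a • f) - ⁅A, a • f⁆) := by
        rw [map_add, lie_add]; abel
      rw [h4]
      refine add_mem (bb_le_PP _ _ (vel_bb hA hb)) ?_
      have h5 := vel_dg hA (Submodule.smul_mem _ a hf)
      rw [dg_eq_span h hc hf hf0] at h5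
      exact (le_sup_right : _ ≤ bb K w ⊔ Submodule.span K {f}) h5
    have hQ1 : ∀ v ∈ Q, ⁅f, v⁆ ∈ bb K w := by
      intro v hv
      have h1 := hQB _ (hD'Q v hv)
      have h2 : γ • ⁅f, v⁆ = (dL s δ v - ⁅ρ, v⁆) - (dL s δ v - ⁅A, v⁆) - ⁅β, v⁆ := by
        rw [← hAeq]
        simp only [add_lie, smul_lie]; abel
      have h3 : γ • ⁅f, v⁆ ∈ bb K w := by
        rw [h2]
        exact sub_mem (sub_mem h1 (vel_bb hA (hQB v hv))) (lie_bb_bb hβ (hQB v hv))
      have h4 := Submodule.smul_mem _ γ⁻¹ h3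
      rwa [smul_smul, inv_mul_cancel₀ hγ, one_smul] at h4
    have hQ2 : ∀ v ∈ Q, ⁅f, ⁅f, v⁆⁆ ∈ bb K w := by
      intro v hv
      have h1 := hQ1 _ (hD'Q v hv)
      have hfd := vel_dg hA hf
      rw [dg_eq_span h hc hf hf0] at hfd
      obtain ⟨μ', hμ'⟩ := Submodule.mem_span_singleton.mp hfd
      have hfv := hQ1 v hv
      have h2 : dL s δ ⁅f, v⁆ - ⁅A, ⁅f, v⁆⁆ ∈ bb K w := vel_bb hA hfv
      have h3 : ⁅f, dL s δ v - ⁅A, v⁆⁆ = (dL s δ ⁅f, v⁆ - ⁅A, ⁅f, v⁆⁆) - μ' • ⁅f, v⁆ := by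
        rw [← smul_lie, hμ', dL_lie, leibniz_lie A f v, sub_lie, lie_sub]; abel
      have h4 : ⁅f, ⁅β, v⁆⁆ ∈ bb K w := by
        rw [leibniz_lie]
        obtain ⟨b, hb, a, hab⟩ := mem_PP.1 (fB h hc hc2 hf hf0 hβ)
        rw [hab, add_lie, smul_lie]
        exact add_mem (add_mem (lie_bb_bb hb (hQB v hv)) (Submodule.smul_mem _ _ hfv))
          (lie_bb_bb hβ hfv)
      have h5 : γ • ⁅f, ⁅f, v⁆⁆ = ⁅f, dL s δ v - ⁅ρ, v⁆⁆ - ⁅f, dL s δ v - ⁅A, v⁆⁆ -
          ⁅f, ⁅β, v⁆⁆ := by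
        rw [← hAeq]
        simp only [add_lie, smul_lie, lie_sub, lie_add, lie_smul]; abel
      have h6 : γ • ⁅f, ⁅f, v⁆⁆ ∈ bb K w := by
        rw [h5]
        refine sub_mem (sub_mem h1 ?_) h4
        rw [h3]
        exact sub_mem h2 (Submodule.smul_mem _ _ hfv)
      have h7 := Submodule.smul_mem _ γ⁻¹ h6
      rwa [smul_smul, inv_mul_cancel₀ hγ, one_smul] at h7
    have hQN : Q ≤ NN K w f := fun v hv m =>
      rad h hc hc2 hf hf0 (hQB v hv) (hQ1 v hv) (hQ2 v hv) m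
    obtain ⟨ρ₁, hρ₁, y, hy, hFy⟩ := Submodule.mem_sup.1 hcc1
    have hρP : ρ₁ ∈ ioS K K₁ (PP K w f) := by
      have h1 : ρ₁ = F - y := by rw [← hFy]; abel
      rw [h1]
      exact sub_mem (by rw [hF]; exact io_mem_ioS (f_mem_PP w f)) (hbbP hy)
    have hρN : ρ₁ ∈ ioS K K₁ (NN K w f) := by
      apply ioS_mono hQN
      rw [hQ, ioS_inf, ioS_rK]
      exact ⟨hρ₁, hρP⟩
    have hψN : (ioS K K₁ (NN K w f)).map (ψ : (K₁ ⊗[k] s) →ₗ[K₁] (K₁ ⊗[k] s)) =
        ioS K K₁ (NN K w f) := by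
      apply Submodule.eq_of_le_of_finrank_eq
      · rintro _ ⟨x, hx, rfl⟩
        change ψ x ∈ _
        rw [hψ]
        exact Pool.Agent.TH611.FL.expA_mem
          (by rw [hF]; exact stab_ioS t (fun x hx => NN_lie hx)) x hx
      · exact LinearEquiv.finrank_map_eq ψ.toLinearEquiv _
    rw [← hψN] at hρN
    obtain ⟨ν, hν, hν'⟩ := hρN
    rw [hbb] at hy
    obtain ⟨β₁, hβ₁, hβ₁'⟩ := hy
    have hψF : ψ F = F := by
      rw [hψ]
      exact Pool.Agent.TH611.FL.expA_fix hnil (by rw [smul_lie, lie_self, smul_zero])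
    have h1 : ψ F = ψ (ν + β₁) := by
      rw [map_add, hψF, ← hFy, ← hν', ← hβ₁']; rfl
    have h2 : F = ν + β₁ := ψ.injective h1
    have h3 : F ∈ ioS K K₁ (bb K w) := by
      rw [h2]; exact add_mem (ioS_mono (NN_le w f) hν) hβ₁
    rw [hF, io_mem_ioS_iff] at h3
    exact hfT (bb_le_TT _ _ h3)

theorem step' (hK : S_KT.{u}) : S_STEP.{u, v} := step hK Pool.Agent.TH713.J1843.spc

end main

end Pool.Agent.TH713.Step
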