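import Mathlib
set_option autoImplicit false
open MeasureTheory Filter
namespace Pool.Agent.TH443.MJ

namespace H713a

theorem card_bound (m n : ℕ) :
    (Finset.univ.biUnion (fun j0 : Fin (m + 1) => Fintype.piFinset
      (fun j => if j = j0 then ({(n : ℤ), -(n : ℤ)} : Finset ℤ) else Finset.Icc (-(n : ℤ)) n))).card ≤
      2 * (m + 1) * (2 * n + 1) ^ m := by
  refine Finset.card_biUnion_le.trans ?_
  have h : ∀ j0 : Fin (m + 1), (Fintype.piFinset
      (fun j => if j = j0 then ({(n : ℤ), -(n : ℤ)} : Finset ℤ) else Finset.Icc (-(n : ℤ)) n)).card ≤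
      2 * (2 * n + 1) ^ m := by
    intro j0
    rw [Fintype.card_piFinset, Fin.prod_univ_succAbove _ j0]
    rw [if_pos rfl]
    apply Nat.mul_le_mul Finset.card_le_two
    apply le_of_eq
    have : ∀ i : Fin m, (if j0.succAbove i = j0 then ({(n : ℤ), -(n : ℤ)} : Finset ℤ)
        else Finset.Icc (-(n : ℤ)) n).card = 2 * n + 1 := by
      intro i
      rw [if_neg (Fin.succAbove_ne j0 i), Int.card_Icc]
      omega
    rw [Finset.prod_congr rfl (fun i _ => this i)]
    simp
  refine (Finset.sum_le_card_nsmul _ _ _ (fun j _ => h j)).trans (le_of_eq ?_)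
  simp; ring

theorem mem_union {m n : ℕ} {q : Fin (m + 1) → ℤ} (hq : Finset.univ.sup (fun j => (q j).natAbs) = n) :
    q ∈ Finset.univ.biUnion (fun j0 : Fin (m + 1) => Fintype.piFinset
      (fun j => if j = j0 then ({(n : ℤ), -(n : ℤ)} : Finset ℤ) else Finset.Icc (-(n : ℤ)) n)) := by
  obtain ⟨j0, -, hj0⟩ := Finset.exists_mem_eq_sup Finset.univ ⟨(0 : Fin (m + 1)), Finset.mem_univ _⟩
    (fun j => (q j).natAbs)
  rw [Finset.mem_biUnion]
  refine ⟨j0, Finset.mem_univ _, ?_⟩
  rw [Fintype.mem_piFinset]
  intro j
  by_cases hj : j = j0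
  · rw [if_pos hj, hj]
    have : (q j0).natAbs = n := by rw [← hj0]; exact hq
    simp only [Finset.mem_insert, Finset.mem_singleton]
    omega
  · rw [if_neg hj]
    have h1 : (q j).natAbs ≤ n := by
      rw [← hq]; exact Finset.le_sup (f := fun j => (q j).natAbs) (Finset.mem_univ j)
    rw [Finset.mem_Icc]
    omega

end H713a

open H713a in
theorem sum_over_norm (m : ℕ) (F : ℕ → ENNReal) :
    ∑' q : {q : Fin (m + 1) → ℤ // q ≠ 0}, F (Finset.univ.sup (fun j => (q.1 j).natAbs)) ≤
      (2 * (m + 1) * 3 ^ m : ENNReal) * ∑' n : ℕ, (n : ENNReal) ^ m * F n := by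
  classical
  set N : (Fin (m + 1) → ℤ) → ℕ := fun q => Finset.univ.sup (fun j => (q j).natAbs) with hN
  have e1 : ∀ q : {q : Fin (m + 1) → ℤ // q ≠ 0}, F (N q.1) = ∑' n : ℕ, if N q.1 = n then F n else 0 := by
    intro q
    rw [tsum_eq_single (N q.1)]
    · simp
    · intro n hn; rw [if_neg (fun h => hn h.symm)]
  calc ∑' q : {q : Fin (m + 1) → ℤ // q ≠ 0}, F (N q.1)
      = ∑' q : {q : Fin (m + 1) → ℤ // q ≠ 0}, ∑' n : ℕ, (if N q.1 = n then F n else 0) :=
        tsum_congr e1
    _ = ∑' n : ℕ, ∑' q : {q : Fin (m + 1) → ℤ // q ≠ 0}, (if N q.1 = n then F n else 0) := ENNReal.tsum_comm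
    _ ≤ ∑' n : ℕ, (2 * (m + 1) * 3 ^ m : ENNReal) * ((n : ENNReal) ^ m * F n) := by
        apply ENNReal.tsum_le_tsum
        intro n
        rcases Nat.eq_zero_or_pos n with hn | hn
        · have : ∀ q : {q : Fin (m + 1) → ℤ // q ≠ 0}, (if N q.1 = n then F n else 0) = 0 := by
            intro q
            rw [if_neg]
            intro h
            apply q.2
            ext j
            have h1 : (q.1 j).natAbs ≤ N q.1 := Finset.le_sup (f := fun j => (q.1 j).natAbs) (Finset.mem_univ j)
            rw [h, hn] at h1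
            simpa using h1
          simp [this]
        · set S := Finset.univ.biUnion (fun j0 : Fin (m + 1) => Fintype.piFinset
            (fun j => if j = j0 then ({(n : ℤ), -(n : ℤ)} : Finset ℤ) else Finset.Icc (-(n : ℤ)) n)) with hS
          calc ∑' q : {q : Fin (m + 1) → ℤ // q ≠ 0}, (if N q.1 = n then F n else 0)
              ≤ ∑' q : Fin (m + 1) → ℤ, (if N q = n then F n else 0) :=
                ENNReal.tsum_comp_le_tsum_of_injective Subtype.val_injective
                  (fun q : Fin (m + 1) → ℤ => if N q = n then F n else 0)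
            _ ≤ ∑' q : Fin (m + 1) → ℤ, (if q ∈ S then F n else 0) := by
                apply ENNReal.tsum_le_tsum
                intro q
                by_cases h : N q = n
                · rw [if_pos h, if_pos (mem_union h)]
                · rw [if_neg h]; exact bot_le
            _ = ∑ q ∈ S, F n := by
                rw [tsum_eq_sum (s := S)]
                · exact Finset.sum_congr rfl fun q hq => if_pos hq
                · intro q hq; exact if_neg hq
            _ = (S.card : ENNReal) * F n := by rw [Finset.sum_const, nsmul_eq_mul]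
            _ ≤ ((2 * (m + 1) * 3 ^ m * n ^ m : ℕ) : ENNReal) * F n := by
                gcongr
                refine (card_bound m n).trans ?_
                rw [mul_assoc (2 * (m + 1)), ← mul_pow]
                apply Nat.mul_le_mul_left
                apply Nat.pow_le_pow_left
                omega
            _ = (2 * (m + 1) * 3 ^ m : ENNReal) * ((n : ENNReal) ^ m * F n) := by
                push_cast; ring
    _ = (2 * (m + 1) * 3 ^ m : ENNReal) * ∑' n : ℕ, (n : ENNReal) ^ m * F n := ENNReal.tsum_mul_left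

end Pool.Agent.TH443.MJ
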