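import Mathlib
set_option autoImplicit false
open MeasureTheory Filter
namespace Pool.Agent.TH443.MJ

theorem ae_slice (m d : ℕ) (p : (Fin (m + 1) → ℝ) → Prop)
    (h : ∀ᵐ x : Fin (m + 1) → ℝ ∂(volume.restrict (Set.Icc 0 1)), p x) :
    ∀ᵐ X : Fin (d + 1) → Fin (m + 1) → ℝ, (∀ j, X 0 j ∈ Set.Icc (0 : ℝ) 1) →
      ∀ᵐ t : ℝ ∂(volume.restrict (Set.Icc 0 1)), p (Fin.cons t (Fin.tail (X 0))) := by
  rw [ae_restrict_iff' measurableSet_Icc] at h
  -- transfer to the product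
  have mp := (volume_preserving_piFinSuccAbove (fun _ : Fin (m + 1) => ℝ) 0)
  have h1 : ∀ᵐ z : ℝ × (Fin m → ℝ), ((Fin.cons z.1 z.2 : Fin (m + 1) → ℝ) ∈ Set.Icc (0 : Fin (m + 1) → ℝ) 1 →
      p (Fin.cons z.1 z.2)) := by
    have := (mp.symm _).quasiMeasurePreserving.ae h
    refine this.mono fun z hz => ?_
    have e : (MeasurableEquiv.piFinSuccAbove (fun _ : Fin (m + 1) => ℝ) 0).symm z = Fin.cons z.1 z.2 := by
      simp [MeasurableEquiv.piFinSuccAbove]
      rfl
    rw [e] at hz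
    exact hz
  have h2 : ∀ᵐ z : (Fin m → ℝ) × ℝ, ((Fin.cons z.2 z.1 : Fin (m + 1) → ℝ) ∈ Set.Icc (0 : Fin (m + 1) → ℝ) 1 →
      p (Fin.cons z.2 z.1)) :=
    (Measure.measurePreserving_swap (μ := (volume : Measure (Fin m → ℝ))) (ν := (volume : Measure ℝ))).quasiMeasurePreserving.ae h1
  have h3 := Measure.ae_ae_of_ae_prod h2
  -- transfer to X
  have q1 : Measure.QuasiMeasurePreserving (fun X : Fin (d + 1) → Fin (m + 1) → ℝ => X 0) :=
    Measure.quasiMeasurePreserving_eval (fun _ : Fin (d + 1) => (volume : Measure (Fin (m + 1) → ℝ))) 0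
  have q2 : Measure.QuasiMeasurePreserving (fun x : Fin (m + 1) → ℝ => (Fin.tail x : Fin m → ℝ)) := by
    have := (Measure.quasiMeasurePreserving_snd (μ := (volume : Measure ℝ)) (ν := (volume : Measure (Fin m → ℝ)))).comp
      mp.quasiMeasurePreserving
    exact this
  have h4 := (q2.comp q1).ae h3
  refine h4.mono fun X hX hX0 => ?_
  rw [ae_restrict_iff' measurableSet_Icc]
  refine hX.mono fun t ht ht0 => ?_
  apply ht
  rw [Set.mem_Icc, Pi.le_def, Pi.le_def]
  constructor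
  · intro j
    refine Fin.cases ?_ (fun j => ?_) j
    · exact ht0.1
    · exact (hX0 j.succ).1
  · intro j
    refine Fin.cases ?_ (fun j => ?_) j
    · exact ht0.2
    · exact (hX0 j.succ).2

end Pool.Agent.TH443.MJ
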