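import Mathlib

set_option autoImplicit false

open Polynomial KaehlerDifferential

namespace Pool.Agent.TH713.LogForms

variable (k : Type*) [Field k]

/-- The differential `dz` of `k(z) / k`. The module `Ω[k(z)/k]` of Kaehler differentials is the
space of meromorphic differentials on `P^1_k`. -/
noncomputable def dz : Ω[RatFunc k⁄k] := D k (RatFunc k) RatFunc.X

/-- A meromorphic differential `ω` on `P^1` is logarithmic if `ω = df / f` for some `f ∈ k(z)^×`. -/
def IsLogarithmic (ω : Ω[RatFunc k⁄k]) : Prop :=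
  ∃ f : RatFunc k, f ≠ 0 ∧ ω = f⁻¹ • D k (RatFunc k) f

variable {k} in
/-- The order at `a ∈ k` of the differential `h dz` (`z - a` is a uniformizer at `a`), that is, the
order of vanishing at `a` of the rational function `h`. -/
noncomputable def ordAt (a : k) (h : RatFunc k) : ℤ :=
  (h.num.rootMultiplicity a : ℤ) - (h.denom.rootMultiplicity a : ℤ)

variable {k} in
/-- The order at `∞` of the differential `h dz`, for `h ≠ 0` (`t = 1 / z` is a uniformizer at `∞`
and `dz = - t⁻² dt`). -/
noncomputable def ordInfty (h : RatFunc k) : ℤ := - h.intDegree - 2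

/-- `V` is a space `L_{m+1,n}`: an `𝔽_p`-linear subspace of dimension `n` of the space of
meromorphic differentials on `P^1_k` such that every nonzero `ω ∈ V` is logarithmic, has no zero
on `P^1_k` other than `∞`, and vanishes at `∞` to order exactly `m - 1`. -/
structure IsSpaceL (p : ℕ) [Algebra (ZMod p) k] (m n : ℕ)
    (V : Submodule (ZMod p) (Ω[RatFunc k⁄k])) : Prop where
  dim : Module.finrank (ZMod p) V = n
  log : ∀ ω ∈ V, ω ≠ 0 → IsLogarithmic k ω
  no_zero : ∀ ω ∈ V, ω ≠ 0 → ∀ h : RatFunc k, ω = h • dz k → ∀ a : k, ordAt a h ≤ 0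
  infty : ∀ ω ∈ V, ω ≠ 0 → ∀ h : RatFunc k, ω = h • dz k → ordInfty h = (m : ℤ) - 1

end Pool.Agent.TH713.LogForms
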