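import Pool.Agent.TH713.LogDefs

set_option autoImplicit false

open Polynomial KaehlerDifferential TensorProduct

namespace Pool.Agent.TH713.LogForms

variable (k : Type*) [Field k]

instance formallyEtale_ratFunc : Algebra.FormallyEtale k[X] (RatFunc k) :=
  Algebra.FormallyEtale.of_isLocalization (nonZeroDivisors k[X])

/-- The isomorphism `Ω[k(z)/k] ≃ k(z)`, `h dz ↦ h`. -/
noncomputable def coeffEquiv : Ω[RatFunc k⁄k] ≃ₗ[RatFunc k] RatFunc k :=
  (tensorKaehlerEquivOfFormallyEtale k k[X] (RatFunc k)).symm ≪≫ₗ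
    (TensorProduct.AlgebraTensorModule.congr (LinearEquiv.refl (RatFunc k) (RatFunc k))
      (polynomialEquiv k)) ≪≫ₗ
    (TensorProduct.AlgebraTensorModule.rid k[X] (RatFunc k) (RatFunc k))

theorem coeffEquiv_D (P : k[X]) :
    coeffEquiv k (D k (RatFunc k) (algebraMap k[X] (RatFunc k) P)) =
      algebraMap k[X] (RatFunc k) (derivative P) := by
  unfold coeffEquiv
  simp only [LinearEquiv.trans_apply]
  rw [tensorKaehlerEquivOfFormallyEtale_symm_D_algebraMap]
  simp [polynomialEquiv_D, Algebra.smul_def]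

theorem coeffEquiv_dz : coeffEquiv k (dz k) = 1 := by
  have h := coeffEquiv_D k X
  rw [RatFunc.algebraMap_X] at h
  simpa [dz] using h

theorem D_algebraMap (P : k[X]) :
    D k (RatFunc k) (algebraMap k[X] (RatFunc k) P) =
      algebraMap k[X] (RatFunc k) (derivative P) • dz k := by
  apply (coeffEquiv k).injective
  rw [coeffEquiv_D, map_smul, coeffEquiv_dz, smul_eq_mul, mul_one]

theorem smul_dz_injective {h₁ h₂ : RatFunc k} (h : h₁ • dz k = h₂ • dz k) : h₁ = h₂ := by
  have := congrArg (coeffEquiv k) h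
  simpa [map_smul, coeffEquiv_dz] using this

theorem exists_eq_smul_dz (ω : Ω[RatFunc k⁄k]) : ∃ h : RatFunc k, ω = h • dz k := by
  refine ⟨coeffEquiv k ω, (coeffEquiv k).injective ?_⟩
  rw [map_smul, coeffEquiv_dz, smul_eq_mul, mul_one]


section char3

variable [Algebra (ZMod 3) k]

variable {k}

theorem charP_three : CharP k 3 :=
  charP_of_injective_algebraMap (algebraMap (ZMod 3) k).injective 3

theorem three_eq_zero' : (3 : k) = 0 := by
  have hc := charP_three (k := k)
  have := CharP.cast_eq_zero k 3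
  exact_mod_cast this

theorem three_eq_zero : (3 : k[X]) = 0 := by
  have := congrArg (C : k → k[X]) (three_eq_zero' (k := k))
  rw [map_zero] at this
  rw [← this]; rfl

theorem derivative_cube (f : k[X]) : derivative (f ^ 3) = 0 := by
  have h3 := three_eq_zero (k := k)
  have e : f ^ 3 = f * f * f := by ring
  rw [e]
  simp only [derivative_mul]
  linear_combination (f ^ 2 * derivative f) * h3

/-- If `(g g')' = 1` then `dz / g` is logarithmic. -/
theorem log_of_eq_one (g : k[X]) (hg2 : 2 ≤ g.natDegree)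
    (h : derivative (g * derivative g) = 1) :
    IsLogarithmic k ((algebraMap k[X] (RatFunc k) g)⁻¹ • dz k) := by
  have h3 := three_eq_zero (k := k)
  obtain ⟨N, hN⟩ : ∃ N : k[X], N = g ^ 2 + X * g - X ^ 2 - X ^ 2 * derivative g := ⟨_, rfl⟩
  have h' : derivative g * derivative g + g * derivative (derivative g) = 1 := by
    rw [← h, derivative_mul]
  have hder : derivative (N * g) = N := by
    have e : N * g = g ^ 3 + (X * (g * g) - X * X * g - X * X * (g * derivative g)) := by
      rw [hN]; ring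
    rw [e, derivative_add, derivative_cube, zero_add, hN]
    simp only [derivative_sub, derivative_mul, derivative_X]
    linear_combination (-X ^ 2) * h' - (X * g) * h3
  have hg0 : g ≠ 0 := by rintro rfl; simp at hg2
  have hN0 : N ≠ 0 := by
    intro h0
    have e : g ^ 2 = X ^ 2 + X ^ 2 * derivative g - X * g := by
      linear_combination h0 - hN
    have hd : (g ^ 2).natDegree = 2 * g.natDegree := natDegree_pow g 2
    have hle : (X ^ 2 + X ^ 2 * derivative g - X * g).natDegree ≤ g.natDegree + 1 := by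
      refine (natDegree_sub_le _ _).trans (max_le ((natDegree_add_le _ _).trans (max_le ?_ ?_)) ?_)
      · rw [natDegree_X_pow]; omega
      · refine natDegree_mul_le.trans ?_
        have := natDegree_derivative_le g
        rw [natDegree_X_pow]; omega
      · refine natDegree_mul_le.trans ?_
        rw [natDegree_X]; omega
    rw [e] at hd
    omega
  refine ⟨algebraMap k[X] (RatFunc k) (N * g), ?_, ?_⟩
  · simpa using ⟨hN0, hg0⟩
  · rw [D_algebraMap, hder, smul_smul]
    congr 1
    rw [map_mul]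
    have h1 : algebraMap k[X] (RatFunc k) N ≠ 0 := by
      simpa using hN0
    have h2 : algebraMap k[X] (RatFunc k) g ≠ 0 := by
      simpa using hg0
    field_simp

omit [Algebra (ZMod 3) k] in
/-- The order of `dz / g` at a point of the affine line. -/
theorem ordAt_inv_le (g : k[X]) (hg : g ≠ 0) (a : k) :
    ordAt a ((algebraMap k[X] (RatFunc k) g)⁻¹) ≤ 0 := by
  have h1 : ((algebraMap k[X] (RatFunc k) g)⁻¹).num ∣ 1 := by
    have := RatFunc.num_div_dvd (K := k) 1 hg
    rwa [map_one, one_div] at this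
  have h2 : ((algebraMap k[X] (RatFunc k) g)⁻¹).num.rootMultiplicity a = 0 := by
    apply rootMultiplicity_eq_zero
    intro hr
    have hu : IsUnit ((algebraMap k[X] (RatFunc k) g)⁻¹).num := isUnit_of_dvd_one h1
    have := hu.map (evalRingHom a)
    rw [coe_evalRingHom, hr.eq_zero] at this
    exact not_isUnit_zero this
  unfold ordAt
  rw [h2]
  simp

omit [Algebra (ZMod 3) k] in
theorem ordInfty_inv (g : k[X]) :
    ordInfty ((algebraMap k[X] (RatFunc k) g)⁻¹) = (g.natDegree : ℤ) - 2 := by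
  unfold ordInfty
  rw [RatFunc.intDegree_inv, RatFunc.intDegree_polynomial]
  ring

theorem derivative_cube_mul (P Q : k[X]) : derivative (P ^ 3 * Q) = P ^ 3 * derivative Q := by
  rw [derivative_mul, derivative_cube, zero_mul, zero_add]

theorem key_identity (A B a b c g : k[X])
    (h1 : A * a + B * b = 1)
    (h2 : derivative (derivative (A * B ^ 2)) = - a ^ 3)
    (h3 : derivative (derivative (A ^ 2 * B)) = - b ^ 3)
    (hg : g ^ 2 = A ^ 3 * (A * B ^ 2) + B ^ 3 * (A ^ 2 * B) + c ^ 3) :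
    derivative (g * derivative g) = 1 := by
  have h30 := three_eq_zero (k := k)
  have e1 : derivative (derivative (g ^ 2)) = - 1 := by
    rw [hg]
    simp only [derivative_add, derivative_cube, derivative_cube_mul, h2, h3, add_zero]
    have h1' : (A * a + B * b) ^ 3 = 1 := by rw [h1, one_pow]
    linear_combination - h1' + (A ^ 2 * a ^ 2 * B * b + A * a * B ^ 2 * b ^ 2) * h30
  have e2 : derivative (g ^ 2) = g * derivative g + g * derivative g := by
    rw [pow_two, derivative_mul]; ring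
  rw [e2, derivative_add] at e1
  linear_combination (- 1 : k[X]) * e1 + derivative (g * derivative g) * h30

theorem exists_factor (A B a b : k[X])
    (h1 : A * a + B * b = 1)
    (h2 : derivative (derivative (A * B ^ 2)) = - a ^ 3)
    (h3 : derivative (derivative (A ^ 2 * B)) = - b ^ 3)
    (s t : ZMod 3) (hst : ¬ (s = 0 ∧ t = 0)) :
    ∃ g : k[X], (algebraMap (ZMod 3) k[X] s * A + algebraMap (ZMod 3) k[X] t * B) * g =
      A * B * (A + B) * (A - B) ∧ derivative (g * derivative g) = 1 := by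
  have h30 := three_eq_zero (k := k)
  have m0 : algebraMap (ZMod 3) k[X] 0 = 0 := map_zero _
  have m1 : algebraMap (ZMod 3) k[X] 1 = 1 := map_one _
  have m2 : algebraMap (ZMod 3) k[X] 2 = -1 := by
    have : (2 : ZMod 3) = -1 := by decide
    rw [this, map_neg, map_one]
  have G0 : derivative ((B * (A ^ 2 - B ^ 2)) * derivative (B * (A ^ 2 - B ^ 2))) = 1 :=
    key_identity A B a b (B ^ 2) _ h1 h2 h3 (by linear_combination (- A ^ 2 * B ^ 4) * h30)
  have G1 : derivative ((A * (A ^ 2 - B ^ 2)) * derivative (A * (A ^ 2 - B ^ 2))) = 1 :=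
    key_identity A B a b (A ^ 2) _ h1 h2 h3 (by linear_combination (- A ^ 4 * B ^ 2) * h30)
  have G2 : derivative ((A * B * (A - B)) * derivative (A * B * (A - B))) = 1 :=
    key_identity A B a b (A * B) _ h1 h2 h3 (by linear_combination (- A ^ 3 * B ^ 3) * h30)
  have G3 : derivative ((A * B * (A + B)) * derivative (A * B * (A + B))) = 1 :=
    key_identity A B a b (- (A * B)) _ h1 h2 h3 (by linear_combination (A ^ 3 * B ^ 3) * h30)
  have neg : ∀ g : k[X], derivative (g * derivative g) = 1 →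
      derivative ((-g) * derivative (-g)) = 1 := by
    intro g hg
    rw [derivative_neg, neg_mul_neg, hg]
  fin_cases s <;> fin_cases t
  · exact absurd ⟨rfl, rfl⟩ hst
  · refine ⟨A * (A ^ 2 - B ^ 2), ?_, G1⟩
    change (algebraMap (ZMod 3) k[X] 0 * A + algebraMap (ZMod 3) k[X] 1 * B) * _ = _
    rw [m0, m1]; ring
  · refine ⟨-(A * (A ^ 2 - B ^ 2)), ?_, neg _ G1⟩
    change (algebraMap (ZMod 3) k[X] 0 * A + algebraMap (ZMod 3) k[X] 2 * B) * _ = _
    rw [m0, m2]; ring
  · refine ⟨B * (A ^ 2 - B ^ 2), ?_, G0⟩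
    change (algebraMap (ZMod 3) k[X] 1 * A + algebraMap (ZMod 3) k[X] 0 * B) * _ = _
    rw [m0, m1]; ring
  · refine ⟨A * B * (A - B), ?_, G2⟩
    change (algebraMap (ZMod 3) k[X] 1 * A + algebraMap (ZMod 3) k[X] 1 * B) * _ = _
    rw [m1]; ring
  · refine ⟨A * B * (A + B), ?_, G3⟩
    change (algebraMap (ZMod 3) k[X] 1 * A + algebraMap (ZMod 3) k[X] 2 * B) * _ = _
    rw [m1, m2]; ring
  · refine ⟨-(B * (A ^ 2 - B ^ 2)), ?_, neg _ G0⟩
    change (algebraMap (ZMod 3) k[X] 2 * A + algebraMap (ZMod 3) k[X] 0 * B) * _ = _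
    rw [m0, m2]; ring
  · refine ⟨-(A * B * (A + B)), ?_, neg _ G3⟩
    change (algebraMap (ZMod 3) k[X] 2 * A + algebraMap (ZMod 3) k[X] 1 * B) * _ = _
    rw [m1, m2]; ring
  · refine ⟨-(A * B * (A - B)), ?_, neg _ G2⟩
    change (algebraMap (ZMod 3) k[X] 2 * A + algebraMap (ZMod 3) k[X] 2 * B) * _ = _
    rw [m2]; ring

/-- The basic construction. -/
theorem exists_space (A B a b : k[X]) (l : ℕ) (hl : 1 ≤ l)
    (hdeg : ∀ s t : ZMod 3, ¬ (s = 0 ∧ t = 0) →
      (algebraMap (ZMod 3) k[X] s * A + algebraMap (ZMod 3) k[X] t * B).natDegree = l)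
    (h1 : A * a + B * b = 1)
    (h2 : derivative (derivative (A * B ^ 2)) = - a ^ 3)
    (h3 : derivative (derivative (A ^ 2 * B)) = - b ^ 3) :
    ∃ V : Submodule (ZMod 3) (Ω[RatFunc k⁄k]), IsSpaceL k 3 (3 * l - 1) 2 V := by
  obtain ⟨Δ, hΔ⟩ : ∃ Δ : k[X], Δ = A * B * (A + B) * (A - B) := ⟨_, rfl⟩
  have m0 : algebraMap (ZMod 3) k[X] 0 = 0 := map_zero _
  have m1 : algebraMap (ZMod 3) k[X] 1 = 1 := map_one _
  have m2 : algebraMap (ZMod 3) k[X] 2 = -1 := by
    have : (2 : ZMod 3) = -1 := by decide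
    rw [this, map_neg, map_one]
  have dA : A.natDegree = l := by
    have := hdeg 1 0 (by decide)
    rwa [m0, m1, one_mul, zero_mul, add_zero] at this
  have dB : B.natDegree = l := by
    have := hdeg 0 1 (by decide)
    rwa [m0, m1, one_mul, zero_mul, zero_add] at this
  have dP : (A + B).natDegree = l := by
    have := hdeg 1 1 (by decide)
    rwa [m1, one_mul, one_mul] at this
  have dM : (A - B).natDegree = l := by
    have := hdeg 1 2 (by decide)
    rwa [m1, m2, one_mul, neg_one_mul, ← sub_eq_add_neg] at this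
  have ne : ∀ P : k[X], P.natDegree = l → P ≠ 0 := by
    rintro P hP rfl
    simp at hP; omega
  have hΔ0 : Δ ≠ 0 := by
    rw [hΔ]
    exact mul_ne_zero (mul_ne_zero (mul_ne_zero (ne _ dA) (ne _ dB)) (ne _ dP)) (ne _ dM)
  have dΔ : Δ.natDegree = 4 * l := by
    rw [hΔ, natDegree_mul (mul_ne_zero (mul_ne_zero (ne _ dA) (ne _ dB)) (ne _ dP)) (ne _ dM),
      natDegree_mul (mul_ne_zero (ne _ dA) (ne _ dB)) (ne _ dP), natDegree_mul (ne _ dA) (ne _ dB),
      dA, dB, dP, dM]
    ring
  obtain ⟨ι, hι⟩ : ∃ ι : k[X] →+* RatFunc k, ι = algebraMap k[X] (RatFunc k) := ⟨_, rfl⟩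
  have ιinj : ∀ P : k[X], P ≠ 0 → ι P ≠ 0 := by
    intro P hP; rw [hι]; simpa using hP
  obtain ⟨w₁, hw₁⟩ : ∃ w : Ω[RatFunc k⁄k], w = (ι A / ι Δ) • dz k := ⟨_, rfl⟩
  obtain ⟨w₂, hw₂⟩ : ∃ w : Ω[RatFunc k⁄k], w = (ι B / ι Δ) • dz k := ⟨_, rfl⟩
  have comb : ∀ s t : ZMod 3, s • w₁ + t • w₂ =
      (ι (algebraMap (ZMod 3) k[X] s * A + algebraMap (ZMod 3) k[X] t * B) / ι Δ) • dz k := by
    intro s t
    have hs : ∀ (s : ZMod 3) (w : Ω[RatFunc k⁄k]),
        s • w = ι (algebraMap (ZMod 3) k[X] s) • w := by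
      intro s w
      rw [hι, ← IsScalarTower.algebraMap_apply, algebraMap_smul]
    rw [hs, hs, hw₁, hw₂, smul_smul, smul_smul, ← add_smul]
    congr 1
    rw [map_add, map_mul, map_mul]
    ring
  have main : ∀ s t : ZMod 3, ¬ (s = 0 ∧ t = 0) → ∃ g : k[X], g.natDegree = 3 * l ∧
      derivative (g * derivative g) = 1 ∧ s • w₁ + t • w₂ = (ι g)⁻¹ • dz k := by
    intro s t hst
    obtain ⟨g, hg1, hg2⟩ := exists_factor A B a b h1 h2 h3 s t hst
    have hL := hdeg s t hst
    rw [← hΔ] at hg1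
    have hL0 := ne _ hL
    have hg0 : g ≠ 0 := by
      rintro rfl
      rw [mul_zero] at hg1
      exact hΔ0 hg1.symm
    refine ⟨g, ?_, hg2, ?_⟩
    · have := congrArg natDegree hg1
      rw [natDegree_mul hL0 hg0, hL, dΔ] at this
      omega
    · rw [comb, ← hg1, map_mul]
      congr 1
      have := ιinj _ hL0
      have := ιinj _ hg0
      field_simp
  have indep : ∀ s t : ZMod 3, s • w₁ + t • w₂ = 0 → s = 0 ∧ t = 0 := by
    intro s t h0
    by_contra hst
    obtain ⟨g, hg1, hg2, hg3⟩ := main s t hst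
    rw [h0] at hg3
    have hg0 : g ≠ 0 := by
      rintro rfl
      simp at hg1; omega
    have : (0 : RatFunc k) • dz k = (ι g)⁻¹ • dz k := by rw [zero_smul]; exact hg3
    have := smul_dz_injective k this
    exact inv_ne_zero (ιinj _ hg0) this.symm
  have mem : ∀ ω ∈ Submodule.span (ZMod 3) {w₁, w₂}, ω ≠ 0 → ∃ g : k[X], g.natDegree = 3 * l ∧
      derivative (g * derivative g) = 1 ∧ ω = (ι g)⁻¹ • dz k := by
    intro ω hω h0
    obtain ⟨s, t, rfl⟩ := Submodule.mem_span_pair.1 hω
    refine main s t ?_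
    rintro ⟨rfl, rfl⟩
    apply h0
    simp
  refine ⟨Submodule.span (ZMod 3) {w₁, w₂}, ?_, ?_, ?_, ?_⟩
  · have hli : LinearIndependent (ZMod 3) ![w₁, w₂] := LinearIndependent.pair_iff.2 indep
    have h2 := finrank_span_eq_card hli
    have hr : Set.range ![w₁, w₂] = {w₁, w₂} := by
      ext x
      simp [eq_comm, or_comm]
    rw [hr] at h2
    simpa using h2
  · intro ω hω h0
    obtain ⟨g, hg1, hg2, rfl⟩ := mem ω hω h0
    rw [hι]
    exact log_of_eq_one g (by omega) hg2
  · intro ω hω h0 h hh x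
    obtain ⟨g, hg1, hg2, rfl⟩ := mem ω hω h0
    have := smul_dz_injective k hh
    rw [← this, hι]
    apply ordAt_inv_le
    rintro rfl
    simp at hg1; omega
  · intro ω hω h0 h hh
    obtain ⟨g, hg1, hg2, rfl⟩ := mem ω hω h0
    have := smul_dz_injective k hh
    rw [← this, hι, ordInfty_inv, hg1]
    omega

end char3

end Pool.Agent.TH713.LogForms
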