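import Pool.Agent.TH713.LogForms

set_option autoImplicit false

open Polynomial

namespace Pool.Agent.TH713.LogForms

variable {k : Type*} [Field k] [Algebra (ZMod 3) k]

theorem second_derivatives (A B a b c d W : k[X])
    (h1 : W = derivative A * B - A * derivative B)
    (h2 : A * W = b ^ 3 * X + c ^ 3) (h3 : B * W = - a ^ 3 * X + d ^ 3) :
    derivative (derivative (A * B ^ 2)) = - a ^ 3 ∧
      derivative (derivative (A ^ 2 * B)) = - b ^ 3 := by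
  have h30 := three_eq_zero (k := k)
  have e1 : derivative (A * B ^ 2) = B * W := by
    rw [h1, pow_two]
    simp only [derivative_mul]
    linear_combination (A * B * derivative B) * h30
  have e2 : derivative (A ^ 2 * B) = - (A * W) := by
    rw [h1, pow_two]
    simp only [derivative_mul]
    linear_combination (A * derivative A * B) * h30
  constructor
  · rw [e1, h3, derivative_add, derivative_cube, neg_mul, derivative_neg, derivative_cube_mul,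
      derivative_X]
    ring
  · rw [e2, h2, derivative_neg, derivative_add, derivative_cube, derivative_cube_mul, derivative_X]
    ring

/-- Degrees of all `𝔽₃`-combinations. -/
theorem natDegree_comb (A B : k[X]) (l : ℕ) (i : k) (hi : i * i = -1)
    (hA : A.natDegree ≤ l) (hB : B.natDegree ≤ l)
    (h : (A.coeff l = 1 + i ∧ B.coeff l = 1) ∨ (A.coeff l = i ∧ B.coeff l = 1))
    (s t : ZMod 3) (hst : ¬ (s = 0 ∧ t = 0)) :
    (algebraMap (ZMod 3) k[X] s * A + algebraMap (ZMod 3) k[X] t * B).natDegree = l := by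
  have h3 := three_eq_zero' (k := k)
  have m0 : algebraMap (ZMod 3) k 0 = 0 := map_zero _
  have m1 : algebraMap (ZMod 3) k 1 = 1 := map_one _
  have m2 : algebraMap (ZMod 3) k 2 = -1 := by
    have : (2 : ZMod 3) = -1 := by decide
    rw [this, map_neg, map_one]
  have hC : ∀ s : ZMod 3, algebraMap (ZMod 3) k[X] s = C (algebraMap (ZMod 3) k s) := fun s => rfl
  have h1 : (1 : k) ≠ 0 := one_ne_zero
  have i0 : i ≠ 0 := by
    rintro rfl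
    rw [mul_zero] at hi
    exact h1 (by linear_combination hi)
  have i1 : i ≠ 1 := by
    rintro rfl
    exact h1 (by linear_combination h3 - hi)
  have i2 : i ≠ -1 := by
    rintro rfl
    exact h1 (by linear_combination h3 - hi)
  refine le_antisymm ?_ ?_
  · refine (natDegree_add_le _ _).trans (max_le ?_ ?_)
    · rw [hC]; exact (natDegree_C_mul_le _ _).trans hA
    · rw [hC]; exact (natDegree_C_mul_le _ _).trans hB
  · apply le_natDegree_of_ne_zero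
    rw [coeff_add, hC, hC, coeff_C_mul, coeff_C_mul]
    rcases h with ⟨h1, h2⟩ | ⟨h1, h2⟩
    · rw [h1, h2]
      fin_cases s <;> fin_cases t
      · exact absurd ⟨rfl, rfl⟩ hst
      · change algebraMap (ZMod 3) k 0 * _ + algebraMap (ZMod 3) k 1 * _ ≠ 0
        rw [m0, m1]; intro h; apply one_ne_zero (α := k); linear_combination h
      · change algebraMap (ZMod 3) k 0 * _ + algebraMap (ZMod 3) k 2 * _ ≠ 0
        rw [m0, m2]; intro h; apply one_ne_zero (α := k); linear_combination - h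
      · change algebraMap (ZMod 3) k 1 * _ + algebraMap (ZMod 3) k 0 * _ ≠ 0
        rw [m0, m1]; intro h; apply i2; linear_combination h
      · change algebraMap (ZMod 3) k 1 * _ + algebraMap (ZMod 3) k 1 * _ ≠ 0
        rw [m1]; intro h; apply i1; linear_combination h - h3
      · change algebraMap (ZMod 3) k 1 * _ + algebraMap (ZMod 3) k 2 * _ ≠ 0
        rw [m1, m2]; intro h; apply i0; linear_combination h
      · change algebraMap (ZMod 3) k 2 * _ + algebraMap (ZMod 3) k 0 * _ ≠ 0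
        rw [m0, m2]; intro h; apply i2; linear_combination - h
      · change algebraMap (ZMod 3) k 2 * _ + algebraMap (ZMod 3) k 1 * _ ≠ 0
        rw [m1, m2]; intro h; apply i0; linear_combination - h
      · change algebraMap (ZMod 3) k 2 * _ + algebraMap (ZMod 3) k 2 * _ ≠ 0
        rw [m2]; intro h; apply i1; linear_combination - h - h3
    · rw [h1, h2]
      fin_cases s <;> fin_cases t
      · exact absurd ⟨rfl, rfl⟩ hst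
      · change algebraMap (ZMod 3) k 0 * _ + algebraMap (ZMod 3) k 1 * _ ≠ 0
        rw [m0, m1]; intro h; apply one_ne_zero (α := k); linear_combination h
      · change algebraMap (ZMod 3) k 0 * _ + algebraMap (ZMod 3) k 2 * _ ≠ 0
        rw [m0, m2]; intro h; apply one_ne_zero (α := k); linear_combination - h
      · change algebraMap (ZMod 3) k 1 * _ + algebraMap (ZMod 3) k 0 * _ ≠ 0
        rw [m0, m1]; intro h; apply i0; linear_combination h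
      · change algebraMap (ZMod 3) k 1 * _ + algebraMap (ZMod 3) k 1 * _ ≠ 0
        rw [m1]; intro h; apply i2; linear_combination h
      · change algebraMap (ZMod 3) k 1 * _ + algebraMap (ZMod 3) k 2 * _ ≠ 0
        rw [m1, m2]; intro h; apply i1; linear_combination h
      · change algebraMap (ZMod 3) k 2 * _ + algebraMap (ZMod 3) k 0 * _ ≠ 0
        rw [m0, m2]; intro h; apply i0; linear_combination - h
      · change algebraMap (ZMod 3) k 2 * _ + algebraMap (ZMod 3) k 1 * _ ≠ 0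
        rw [m1, m2]; intro h; apply i1; linear_combination - h
      · change algebraMap (ZMod 3) k 2 * _ + algebraMap (ZMod 3) k 2 * _ ≠ 0
        rw [m2]; intro h; apply i2; linear_combination - h

/-- Pullback of a pair along `z ↦ P(z)` with `P' = 1`. -/
theorem comp_pair (A B a b P : k[X]) (l : ℕ) (hP : derivative P = 1)
    (hdeg : ∀ s t : ZMod 3, ¬ (s = 0 ∧ t = 0) →
      (algebraMap (ZMod 3) k[X] s * A + algebraMap (ZMod 3) k[X] t * B).natDegree = l)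
    (h1 : A * a + B * b = 1)
    (h2 : derivative (derivative (A * B ^ 2)) = - a ^ 3)
    (h3 : derivative (derivative (A ^ 2 * B)) = - b ^ 3) :
    ∃ A B a b : k[X],
      (∀ s t : ZMod 3, ¬ (s = 0 ∧ t = 0) →
        (algebraMap (ZMod 3) k[X] s * A + algebraMap (ZMod 3) k[X] t * B).natDegree =
          l * P.natDegree) ∧
      A * a + B * b = 1 ∧ derivative (derivative (A * B ^ 2)) = - a ^ 3 ∧
      derivative (derivative (A ^ 2 * B)) = - b ^ 3 := by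
  refine ⟨A.comp P, B.comp P, a.comp P, b.comp P, ?_, ?_, ?_, ?_⟩
  · intro s t hst
    rw [← hdeg s t hst, ← natDegree_comp]
    congr 1
    simp
  · rw [← mul_comp, ← mul_comp, ← add_comp, h1, one_comp]
  · rw [← pow_comp, ← mul_comp, derivative_comp, hP, one_mul, derivative_comp, hP, one_mul, h2,
      neg_comp, pow_comp]
  · rw [← pow_comp, ← mul_comp, derivative_comp, hP, one_mul, derivative_comp, hP, one_mul, h3,
      neg_comp, pow_comp]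

/-- A certified pair of polynomials of degree `5`. -/
theorem pair_five (i : k) (hi : i * i = -1) :
    ∃ A B a b : k[X],
      (∀ s t : ZMod 3, ¬ (s = 0 ∧ t = 0) →
        (algebraMap (ZMod 3) k[X] s * A + algebraMap (ZMod 3) k[X] t * B).natDegree = 5) ∧
      A * a + B * b = 1 ∧ derivative (derivative (A * B ^ 2)) = - a ^ 3 ∧
      derivative (derivative (A ^ 2 * B)) = - b ^ 3 := by
  have h3 := three_eq_zero (k := k)
  obtain ⟨I, hI⟩ : ∃ I : k[X], I = C i := ⟨_, rfl⟩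
  have hi2 : I ^ 2 + 1 = 0 := by
    rw [hI, pow_two, ← C_mul, hi, C_neg, C_1]; ring
  have dI : derivative I = 0 := by rw [hI, derivative_C]
  obtain ⟨A, hA⟩ : ∃ A : k[X], A = (1 + I) * X ^ 5 + (-1) * X ^ 2 + (-I) * X := ⟨_, rfl⟩
  obtain ⟨B, hB⟩ : ∃ B : k[X], B = 1 * X ^ 5 + (-I) * X ^ 3 + (-1 - I) * X + (-1 + I) := ⟨_, rfl⟩
  obtain ⟨a, ha⟩ : ∃ a : k[X], a = (-1) * X ^ 3 + (-1 - I) * X + (-I) := ⟨_, rfl⟩
  obtain ⟨b, hb⟩ : ∃ b : k[X], b = (1 + I) * X ^ 3 + (-1) * X + (1 + I) := ⟨_, rfl⟩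
  obtain ⟨c, hc⟩ : ∃ c : k[X], c = 1 * X ^ 4 + 1 * X ^ 3 + (1 - I) * X ^ 2 + (-1 - I) * X := ⟨_, rfl⟩
  obtain ⟨d, hd⟩ : ∃ d : k[X], d = (-1 - I) * X ^ 4 + (-1 + I) * X ^ 3 + 1 * X ^ 2 + (-1 + I) * X + 1 := ⟨_, rfl⟩
  obtain ⟨W, hW⟩ : ∃ W : k[X], W = (-1 + I) * X ^ 7 + (-I) * X ^ 5 + (-1 - I) * X ^ 4 + (-1) * X ^ 3 + (1 + I) * X ^ 2 + (-1 + I) * X + (1 + I) := ⟨_, rfl⟩
  have dA : derivative A = (-1 - I) * X ^ 4 + 1 * X + (-I) := by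
    rw [hA]
    simp only [derivative_add, derivative_sub, derivative_mul, derivative_neg, derivative_X,
      derivative_X_pow, dI, derivative_one, Nat.cast_ofNat, map_ofNat, Nat.add_one_sub_one]
    linear_combination ((2) * I ^ 1 * X ^ 4 + (2) * X ^ 4 + (-1) * X ^ 1) * h3
  have dB : derivative B = (-1) * X ^ 4 + (-1 - I) := by
    rw [hB]
    simp only [derivative_add, derivative_sub, derivative_mul, derivative_neg, derivative_X,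
      derivative_X_pow, dI, derivative_one, Nat.cast_ofNat, map_ofNat, Nat.add_one_sub_one]
    linear_combination ((-1) * I ^ 1 * X ^ 2 + (2) * X ^ 4) * h3
  have E1 : A * a + B * b = 1 := by
    rw [hA, hB, ha, hb]
    linear_combination ((-1) * I ^ 1 * X ^ 6 + (1) * I ^ 1 * X ^ 2 + (-1) * I ^ 1 * X ^ 1 + (1) * X ^ 5 + (-1)) * h3 + ((-2) * X ^ 6 + (-1) * X ^ 5 + (-1) * X ^ 4 + (1) * X ^ 2 + (1)) * hi2
  have E2 : W = derivative A * B - A * derivative B := by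
    rw [dA, dB, hA, hB, hW]
    linear_combination ((-1) * I ^ 1 * X ^ 5 + (1) * I ^ 1 * X ^ 2 + (-1) * X ^ 4 + (1) * X ^ 2) * h3 + ((-1) * X ^ 7 + (-2) * X ^ 5 + (1) * X ^ 4 + (-1) * X ^ 3 + (1)) * hi2
  have E3 : A * W = b ^ 3 * X + c ^ 3 := by
    rw [hA, hW, hb, hc]
    linear_combination ((2) * I ^ 1 * X ^ 9 + (7) * I ^ 1 * X ^ 8 + (2) * I ^ 1 * X ^ 7 + (-2) * I ^ 1 * X ^ 6 + (1) * I ^ 1 * X ^ 5 + (-4) * I ^ 1 * X ^ 4 + (-1) * I ^ 1 * X ^ 3 + (2) * I ^ 1 * X ^ 2 + (-1) * I ^ 1 * X ^ 1 + (-1) * X ^ 12 + (-1) * X ^ 11 + (-1) * X ^ 10 + (-1) * X ^ 9 + (1) * X ^ 8 + (7) * X ^ 7 + (3) * X ^ 6 + (2) * X ^ 5 + (-1) * X ^ 3 + (1) * X ^ 1) * h3 + ((-1) * I ^ 1 * X ^ 10 + (-3) * I ^ 1 * X ^ 7 + (1) * I ^ 1 * X ^ 6 + (3) * I ^ 1 * X ^ 5 + (1) * I ^ 1 * X ^ 3 + (-1) * I ^ 1 * X ^ 1 + (1) * X ^ 12 + (-4) * X ^ 10 + (-1) * X ^ 9 + (-1) * X ^ 8 + (-17) * X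 ^ 7 + (-10) * X ^ 6 + (2) * X ^ 5 + (-6) * X ^ 4 + (2) * X ^ 3 + (2) * X ^ 2 + (-4) * X ^ 1) * hi2
  have E4 : B * W = - a ^ 3 * X + d ^ 3 := by
    rw [hB, hW, ha, hd]
    linear_combination ((1) * I ^ 1 * X ^ 12 + (2) * I ^ 1 * X ^ 11 + (-4) * I ^ 1 * X ^ 10 + (1) * I ^ 1 * X ^ 9 + (-4) * I ^ 1 * X ^ 8 + (-4) * I ^ 1 * X ^ 7 + (5) * I ^ 1 * X ^ 6 + (-6) * I ^ 1 * X ^ 5 + (7) * I ^ 1 * X ^ 4 + (-5) * I ^ 1 * X ^ 3 + (3) * I ^ 1 * X ^ 2 + (-2) * I ^ 1 * X ^ 1 + (-1) * X ^ 12 + (2) * X ^ 11 + (2) * X ^ 10 + (-3) * X ^ 9 + (4) * X ^ 8 + (-9) * X ^ 7 + (3) * X ^ 6 + (3) * X ^ 4 + (5) * X ^ 3 + (1) * X ^ 1 + (-1)) * h3 + ((1) * I ^ 1 * X ^ 12 + (-3) * I ^ 1 * X ^ 11 + (3) * I ^ 1 * X ^ 10 + (-4) * I ^ 1 * X ^ 9 + (6) * I ^ 1 * X ^ 8 + (-3) * I ^ 1 * X ^ 7 + (3) * I ^ 1 * X ^ 6 + (-3) * I ^ 1 * X ^ 5 + (-1) * I ^ 1 * X ^ 4 + (-4) * I ^ 1 * X ^ 3 + (-3)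 * I ^ 1 * X ^ 2 + (-1) * I ^ 1 * X ^ 1 + (3) * X ^ 12 + (-3) * X ^ 11 + (-7) * X ^ 10 + (6) * X ^ 9 + (-12) * X ^ 8 + (23) * X ^ 7 + (-14) * X ^ 6 + (8) * X ^ 5 + (-17) * X ^ 4 + (-5) * X ^ 3 + (-6) * X ^ 2 + (1)) * hi2
  obtain ⟨F1, F2⟩ := second_derivatives A B a b c d W E2 E3 E4
  refine ⟨A, B, a, b, natDegree_comb A B 5 i hi ?_ ?_ (Or.inl ⟨?_, ?_⟩), E1, F1, F2⟩
  · rw [hA, hI]; compute_degree
  · rw [hB, hI]; compute_degree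
  · rw [hA, hI]; simp [coeff_mul_X_pow', coeff_one, coeff_C]
  · rw [hB, hI]; simp [coeff_mul_X_pow', coeff_one]


/-- A certified pair of polynomials of degree `7`. -/
theorem pair_seven (i : k) (hi : i * i = -1) :
    ∃ A B a b : k[X],
      (∀ s t : ZMod 3, ¬ (s = 0 ∧ t = 0) →
        (algebraMap (ZMod 3) k[X] s * A + algebraMap (ZMod 3) k[X] t * B).natDegree = 7) ∧
      A * a + B * b = 1 ∧ derivative (derivative (A * B ^ 2)) = - a ^ 3 ∧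
      derivative (derivative (A ^ 2 * B)) = - b ^ 3 := by
  have h3 := three_eq_zero (k := k)
  obtain ⟨I, hI⟩ : ∃ I : k[X], I = C i := ⟨_, rfl⟩
  have hi2 : I ^ 2 + 1 = 0 := by
    rw [hI, pow_two, ← C_mul, hi, C_neg, C_1]; ring
  have dI : derivative I = 0 := by rw [hI, derivative_C]
  obtain ⟨A, hA⟩ : ∃ A : k[X], A = I * X ^ 7 + 1 * X ^ 6 + (1 + I) * X ^ 5 + (-1 + I) * X ^ 4 + (1 - I) * X ^ 3 + (-1 + I) * X ^ 2 + (1 - I) := ⟨_, rfl⟩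
  obtain ⟨B, hB⟩ : ∃ B : k[X], B = 1 * X ^ 7 + (-I) * X ^ 6 + (-1 + I) * X ^ 5 + (-1 + I) * X ^ 4 + (1 - I) * X + (-1) := ⟨_, rfl⟩
  obtain ⟨a, ha⟩ : ∃ a : k[X], a = 1 * X ^ 5 + (1 - I) * X ^ 3 + (-I) * X + I := ⟨_, rfl⟩
  obtain ⟨b, hb⟩ : ∃ b : k[X], b = (-I) * X ^ 5 + (-1 - I) * X ^ 2 + I := ⟨_, rfl⟩
  obtain ⟨c, hc⟩ : ∃ c : k[X], c = (1 + I) * X ^ 6 + (-1 - I) * X ^ 5 + (-1) * X ^ 3 + 1 * X ^ 2 + (-1 - I) * X + (-1 + I) := ⟨_, rfl⟩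
  obtain ⟨d, hd⟩ : ∃ d : k[X], d = (-1 + I) * X ^ 6 + (-I) * X ^ 5 + (-1 - I) * X ^ 4 + I * X ^ 3 + (-1 + I) * X ^ 2 + 1 * X + (-I) := ⟨_, rfl⟩
  obtain ⟨W, hW⟩ : ∃ W : k[X], W = (-1 - I) * X ^ 11 + (1 - I) * X ^ 10 + (1 + I) * X ^ 9 + (-1 + I) * X ^ 7 + (1 - I) * X ^ 6 + (-1 + I) * X ^ 5 + 1 * X ^ 4 + (1 - I) * X ^ 3 + (-I) * X ^ 2 + (-1 + I) * X + (-I) := ⟨_, rfl⟩
  have dA : derivative A = I * X ^ 6 + (-1 - I) * X ^ 4 + (-1 + I) * X ^ 3 + (1 - I) * X := by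
    rw [hA]
    simp only [derivative_add, derivative_sub, derivative_mul, derivative_neg, derivative_X,
      derivative_X_pow, dI, derivative_one, Nat.cast_ofNat, map_ofNat, Nat.add_one_sub_one]
    linear_combination ((2) * I ^ 1 * X ^ 6 + (2) * I ^ 1 * X ^ 4 + (1) * I ^ 1 * X ^ 3 + (-1) * I ^ 1 * X ^ 2 + (1) * I ^ 1 * X ^ 1 + (2) * X ^ 5 + (2) * X ^ 4 + (-1) * X ^ 3 + (1) * X ^ 2 + (-1) * X ^ 1) * h3
  have dB : derivative B = 1 * X ^ 6 + (1 - I) * X ^ 4 + (-1 + I) * X ^ 3 + (1 - I) := by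
    rw [hB]
    simp only [derivative_add, derivative_sub, derivative_mul, derivative_neg, derivative_X,
      derivative_X_pow, dI, derivative_one, Nat.cast_ofNat, map_ofNat, Nat.add_one_sub_one]
    linear_combination ((-2) * I ^ 1 * X ^ 5 + (2) * I ^ 1 * X ^ 4 + (1) * I ^ 1 * X ^ 3 + (2) * X ^ 6 + (-2) * X ^ 4 + (-1) * X ^ 3) * h3
  have E1 : A * a + B * b = 1 := by
    rw [hA, hB, ha, hb]
    linear_combination ((1) * I ^ 1 * X ^ 10 + (1) * I ^ 1 * X ^ 7 + (-1) * I ^ 1 * X ^ 6 + (1) * I ^ 1 * X ^ 5 + (-1) * I ^ 1 * X ^ 4 + (1) * X ^ 10 + (1) * X ^ 8 + (1) * X ^ 6 + (-1) * X ^ 4) * h3 + ((1) * X ^ 11 + (-2) * X ^ 10 + (-1) * X ^ 9 + (-1) * X ^ 8 + (-1) * X ^ 7 + (-1) * X ^ 6 + (3) * X ^ 4 + (1) * X ^ 2 + (-1)) * hi2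
  have E2 : W = derivative A * B - A * derivative B := by
    rw [dA, dB, hA, hB, hW]
    linear_combination ((1) * I ^ 1 * X ^ 11 + (-1) * I ^ 1 * X ^ 10 + (2) * I ^ 1 * X ^ 8 + (-1) * I ^ 1 * X ^ 5 + (-1) * I ^ 1 * X ^ 4 + (1) * I ^ 1 * X ^ 2 + (-1) * I ^ 1 + (1) * X ^ 11 + (1) * X ^ 10 + (-2) * X ^ 8 + (1) * X ^ 6 + (1) * X ^ 5) * h3 + ((1) * X ^ 12 + (-2) * X ^ 11 + (-1) * X ^ 10 + (1) * X ^ 9 + (-1) * X ^ 6 + (1) * X ^ 4 + (-2) * X ^ 2 + (1)) * hi2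
  have E3 : A * W = b ^ 3 * X + c ^ 3 := by
    rw [hA, hW, hb, hc]
    linear_combination ((-1) * I ^ 1 * X ^ 18 + (2) * I ^ 1 * X ^ 17 + (-3) * I ^ 1 * X ^ 16 + (3) * I ^ 1 * X ^ 15 + (-5) * I ^ 1 * X ^ 14 + (7) * I ^ 1 * X ^ 13 + (-5) * I ^ 1 * X ^ 12 + (2) * I ^ 1 * X ^ 11 + (-4) * I ^ 1 * X ^ 10 + (7) * I ^ 1 * X ^ 9 + (-3) * I ^ 1 * X ^ 8 + (1) * I ^ 1 * X ^ 6 + (3) * I ^ 1 * X ^ 5 + (-2) * I ^ 1 * X ^ 4 + (-4) * I ^ 1 * X ^ 3 + (4) * I ^ 1 * X ^ 2 + (-1) * I ^ 1 * X ^ 1 + (-1) * I ^ 1 + (1) * X ^ 18 + (-2) * X ^ 17 + (2) * X ^ 16 + (1) * X ^ 15 + (-1) * X ^ 14 + (-3) * X ^ 13 + (5) * X ^ 12 + (-4) * X ^ 11 + (-3) * X ^ 10 + (-1) * X ^ 9 + (11) * X ^ 8 + (-8) * X ^ 7 + (3) * X ^ 5 + (6) * X ^ 4 + (-6) * X ^ 3 + (2) * X ^ 2 + (2) * X ^ 1 + (-1)) * h3 + ((-1) * I ^ 1 * X ^ 18 + (3) * I ^ 1 * X ^ 17 + (-2) * I ^ 1 * X ^ 16 + (1) * I ^ 1 * X ^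 15 + (6) * I ^ 1 * X ^ 13 + (-9) * I ^ 1 * X ^ 12 + (6) * I ^ 1 * X ^ 11 + (-9) * I ^ 1 * X ^ 8 + (10) * I ^ 1 * X ^ 7 + (-6) * I ^ 1 * X ^ 6 + (4) * I ^ 1 * X ^ 3 + (-3) * I ^ 1 * X ^ 2 + (2) * I ^ 1 * X ^ 1 + (-1) * I ^ 1 + (-4) * X ^ 18 + (8) * X ^ 17 + (-9) * X ^ 16 + (4) * X ^ 15 + (-7) * X ^ 14 + (21) * X ^ 13 + (-24) * X ^ 12 + (17) * X ^ 11 + (-4) * X ^ 10 + (19) * X ^ 9 + (-35) * X ^ 8 + (21) * X ^ 7 + (-1) * X ^ 6 + (-7) * X ^ 5 + (-12) * X ^ 4 + (18) * X ^ 3 + (-6) * X ^ 2 + (-4) * X ^ 1 + (4)) * hi2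
  have E4 : B * W = - a ^ 3 * X + d ^ 3 := by
    rw [hB, hW, ha, hd]
    linear_combination ((-1) * I ^ 1 * X ^ 18 + (-1) * I ^ 1 * X ^ 16 + (4) * I ^ 1 * X ^ 15 + (-3) * I ^ 1 * X ^ 14 + (-1) * I ^ 1 * X ^ 13 + (-5) * I ^ 1 * X ^ 12 + (6) * I ^ 1 * X ^ 11 + (-3) * I ^ 1 * X ^ 10 + (-5) * I ^ 1 * X ^ 9 + (2) * I ^ 1 * X ^ 8 + (3) * I ^ 1 * X ^ 7 + (8) * I ^ 1 * X ^ 6 + (-7) * I ^ 1 * X ^ 5 + (-1) * I ^ 1 * X ^ 4 + (-2) * I ^ 1 * X ^ 3 + (4) * I ^ 1 * X ^ 2 + (-1) * I ^ 1 * X ^ 1 + (-1) * X ^ 18 + (2) * X ^ 17 + (2) * X ^ 16 + (-1) * X ^ 15 + (1) * X ^ 14 + (2) * X ^ 13 + (2) * X ^ 12 + (-6) * X ^ 11 + (3) * X ^ 10 + (1) * X ^ 9 + (-4) * X ^ 8 + (-2) * X ^ 7 + (1) * X ^ 6 + (7) * X ^ 5 + (-1) * X ^ 4 + (-3) * X ^ 3 + (-1) * X ^ 2 + (1) * X ^ 1) * h3 + ((-1) * I ^ 1 * X ^ 18 + (3) * I ^ 1 * X ^ 17 + (-8) * I ^ 1 * X ^ 15 + (3) * I ^ 1 * X ^ 14 + (12)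 * I ^ 1 * X ^ 13 + (-2) * I ^ 1 * X ^ 12 + (-18) * I ^ 1 * X ^ 11 + (-1) * I ^ 1 * X ^ 10 + (20) * I ^ 1 * X ^ 9 + (-12) * I ^ 1 * X ^ 7 + (-10) * I ^ 1 * X ^ 6 + (15) * I ^ 1 * X ^ 5 + (2) * I ^ 1 * X ^ 4 + (-6) * I ^ 1 * X ^ 2 + (1) * I ^ 1 * X ^ 1 + (1) * I ^ 1 + (3) * X ^ 18 + (-5) * X ^ 17 + (3) * X ^ 15 + (3) * X ^ 14 + (-9) * X ^ 13 + (3) * X ^ 12 + (15) * X ^ 11 + (-1) * X ^ 10 + (-13) * X ^ 9 + (14) * X ^ 8 + (1) * X ^ 7 + (-21) * X ^ 5 + (6) * X ^ 4 + (7) * X ^ 3 + (2) * X ^ 2 + (-2) * X ^ 1) * hi2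
  obtain ⟨F1, F2⟩ := second_derivatives A B a b c d W E2 E3 E4
  refine ⟨A, B, a, b, natDegree_comb A B 7 i hi ?_ ?_ (Or.inr ⟨?_, ?_⟩), E1, F1, F2⟩
  · rw [hA, hI]; compute_degree
  · rw [hB, hI]; compute_degree
  · rw [hA, hI]; simp [coeff_mul_X_pow', coeff_one, coeff_C]
  · rw [hB, hI]; simp [coeff_mul_X_pow', coeff_one]

end Pool.Agent.TH713.LogForms
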